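import Mathlib

set_option autoImplicit false

open Finset

namespace Pool.Agent.Helper11.RP4

section Complex

variable {V : Type} [Fintype V] [DecidableEq V]

/-- `K` is a finite abstract simplicial complex with vertex set `V`: its members (the faces) are
nonempty sets of vertices, every nonempty subset of a face is a face and every vertex is one. -/
structure IsComplex (K : Finset (Finset V)) : Prop where
  nonempty : ∀ σ ∈ K, σ.Nonempty
  down : ∀ σ ∈ K, ∀ τ : Finset V, τ ⊆ σ → τ.Nonempty → τ ∈ K
  vertex : ∀ v : V, {v} ∈ K

/-- `z` is an `i`-dimensional chain of `K` with coefficients in `ℤ/2`: a function on sets of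
vertices which vanishes outside the faces of dimension `i` (that is, with `i + 1` vertices). -/
def IsChain (K : Finset (Finset V)) (i : ℕ) (z : Finset V → ZMod 2) : Prop :=
  ∀ σ, z σ ≠ 0 → σ ∈ K ∧ σ.card = i + 1

/-- The boundary of a chain mod 2: the coefficient at `τ` is the sum of the coefficients of the
simplices obtained from `τ` by adding one vertex. -/
def bd (z : Finset V → ZMod 2) (τ : Finset V) : ZMod 2 :=
  ∑ v ∈ univ.filter (fun v => v ∉ τ), z (insert v τ)

/-- `z` is an `i`-dimensional cycle of `K` (every `0`-chain is a cycle). -/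
def IsCycle (K : Finset (Finset V)) (i : ℕ) (z : Finset V → ZMod 2) : Prop :=
  IsChain K i z ∧ (0 < i → ∀ τ, bd z τ = 0)

/-- `z` is the boundary of an `(i + 1)`-dimensional chain of `K`. -/
def Bounds (K : Finset (Finset V)) (i : ℕ) (z : Finset V → ZMod 2) : Prop :=
  ∃ c : Finset V → ZMod 2, IsChain K (i + 1) c ∧ ∀ τ, bd c τ = z τ

/-- The full subcomplex of `K` spanned by the set of vertices `W`. -/
def full (K : Finset (Finset V)) (W : Finset V) : Finset (Finset V) :=
  K.filter (fun σ => σ ⊆ W)

/-- The inclusion of the full subcomplex spanned by `W` is injective on homology mod 2 in every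
dimension: a cycle of the subcomplex that bounds in `K` bounds in the subcomplex. -/
def HomologyInjective (K : Finset (Finset V)) (W : Finset V) : Prop :=
  ∀ (i : ℕ) (z : Finset V → ZMod 2), IsCycle (full K W) i z → Bounds K i z →
    Bounds (full K W) i z

/-- `K` is a complex all of whose homology groups mod 2 are those of the 4-sphere: it has
dimension at most 4, it is connected, cycles of dimension 1, 2, 3 bound, and its only
4-dimensional cycles are zero and the sum of all 4-dimensional faces. -/
structure IsHomologySphere (K : Finset (Finset V)) : Prop where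
  dim : ∀ σ ∈ K, σ.card ≤ 5
  connected : ∀ u v : V, u ≠ v →
    Bounds K 0 (fun σ => if σ = {u} ∨ σ = {v} then 1 else 0)
  middle : ∀ i, 1 ≤ i → i ≤ 3 → ∀ z, IsCycle K i z → Bounds K i z
  top : ∀ z, IsCycle K 4 z → (∀ σ, z σ = 0) ∨ ∀ σ ∈ K, σ.card = 5 → z σ = 1

end Complex

section Cover

variable {V : Type} [Fintype V] [DecidableEq V]

/-- The double cover of `K` defined by the cocycle `a`. Its vertices are the pairs `(v, s)` with
`s` in `ℤ/2`; its faces are the sets that project one to one onto a face of `K` and in which any
two vertices `(u, s)`, `(v, t)` satisfy `s + t = a u v`. -/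
def cover (K : Finset (Finset V)) (a : V → V → ZMod 2) : Finset (Finset (V × ZMod 2)) :=
  univ.filter (fun σ => σ.image Prod.fst ∈ K ∧
    ∀ x ∈ σ, ∀ y ∈ σ, x ≠ y → x.1 ≠ y.1 ∧ x.2 + y.2 = a x.1 y.1)

/-- `a` is a 1-cocycle mod 2 of `K`: a symmetric function on pairs of vertices with
`a u v + a v w + a u w = 0` for every triangle `uvw` of `K`. -/
structure IsCocycle (K : Finset (Finset V)) (a : V → V → ZMod 2) : Prop where
  symm : ∀ u v, a u v = a v u
  triangle : ∀ u v w, u ≠ v → v ≠ w → u ≠ w → {u, v, w} ∈ K → a u v + a v w + a u w = 0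

/-- The combinatorial and homological properties of a triangulation of real projective 4-space
that are used here: `K` is a closed 4-dimensional pseudomanifold (every face lies in a face with
five vertices, every face with four vertices lies in exactly two faces with five vertices), and
`K` has a double cover which is a homology 4-sphere mod 2 (for a triangulation of the projective
space: its universal cover). -/
structure IsProjective4 (K : Finset (Finset V)) : Prop where
  complex : IsComplex K
  pure : ∀ σ ∈ K, ∃ τ ∈ K, σ ⊆ τ ∧ τ.card = 5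
  closed : ∀ σ ∈ K, σ.card = 4 → (K.filter (fun τ => σ ⊆ τ ∧ τ.card = 5)).card = 2
  cover_sphere : ∃ a : V → V → ZMod 2, IsCocycle K a ∧ IsHomologySphere (cover K a)

end Cover

section Tight

variable {V : Type} [Fintype V] [DecidableEq V]

open Classical in
/-- The vertices of `K` in the closed half-space `ℓ x ≤ c`. -/
noncomputable def below {N : ℕ} (p : V → (Fin N → ℝ)) (ℓ : (Fin N → ℝ) →ₗ[ℝ] ℝ) (c : ℝ) :
    Finset V :=
  univ.filter (fun v => ℓ (p v) ≤ c)

/-- Tightness of the simplexwise linear map of `K` into `ℝ^N` given by the positions `p` of the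
vertices: for every closed half-space `ℓ x ≤ c`, the inclusion of the full subcomplex spanned by
the vertices in the half-space is injective on homology mod 2. -/
def Tight {N : ℕ} (K : Finset (Finset V)) (p : V → (Fin N → ℝ)) : Prop :=
  ∀ (ℓ : (Fin N → ℝ) →ₗ[ℝ] ℝ) (c : ℝ), ℓ ≠ 0 → HomologyInjective K (below p ℓ c)

/-- Some closed half-space contains exactly the vertices in `W`. -/
def CutOff {N : ℕ} (p : V → (Fin N → ℝ)) (W : Finset V) : Prop :=
  ∃ (ℓ : (Fin N → ℝ) →ₗ[ℝ] ℝ) (c : ℝ), ℓ ≠ 0 ∧ below p ℓ c = W

/-- The convex hull of the vertices is a simplicial polytope and its boundary contains no vertices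
of the complex besides its own: the vertices on any supporting hyperplane are affinely
independent. -/
def SimplicialHull {N : ℕ} (p : V → (Fin N → ℝ)) : Prop :=
  ∀ (ℓ : (Fin N → ℝ) →ₗ[ℝ] ℝ) (c : ℝ), ℓ ≠ 0 → (∀ v, c ≤ ℓ (p v)) →
    AffineIndependent ℝ (fun v : {v : V // ℓ (p v) = c} => p v)

/-- Every face of the convex hull of dimension at most `k` is a simplex which contains no
vertices of the complex besides its own vertices: if the vertices on a supporting hyperplane
span a subspace of dimension at most `k`, then they are affinely independent. -/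
def SimplicialFaces {N : ℕ} (k : ℕ) (p : V → (Fin N → ℝ)) : Prop :=
  ∀ (ℓ : (Fin N → ℝ) →ₗ[ℝ] ℝ) (c : ℝ), ℓ ≠ 0 → (∀ v, c ≤ ℓ (p v)) →
    Module.finrank ℝ (vectorSpan ℝ (p '' {v : V | ℓ (p v) = c})) ≤ k →
    AffineIndependent ℝ (fun v : {v : V // ℓ (p v) = c} => p v)

end Tight

end Pool.Agent.Helper11.RP4
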