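import Mathlib
import Pool.Agent.Helper11.RP4.Defs

set_option autoImplicit false

open Finset

namespace Pool.Agent.Helper11.RP4

lemma z2_add_self (x : ZMod 2) : x + x = 0 := by
  revert x; decide

lemma z2_ne_zero {x : ZMod 2} (h : x ≠ 0) : x = 1 := by
  revert x; decide

lemma z2_ne_one {x : ZMod 2} (h : x ≠ 1) : x = 0 := by
  revert x; decide

section Chains

variable {V : Type} [Fintype V] [DecidableEq V]

/-- The chain consisting of a single simplex. -/
def dl (S : Finset V) (σ : Finset V) : ZMod 2 := if σ = S then 1 else 0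

lemma dl_self (S : Finset V) : dl S S = 1 := by simp [dl]

lemma dl_ne {S σ : Finset V} (h : dl S σ ≠ 0) : σ = S := by
  by_contra hne
  exact h (by simp [dl, hne])

lemma bd_add (c d : Finset V → ZMod 2) (τ : Finset V) :
    bd (fun σ => c σ + d σ) τ = bd c τ + bd d τ := by
  unfold bd
  rw [Finset.sum_add_distrib]

lemma bd_congr {c d : Finset V → ZMod 2} (h : ∀ σ, c σ = d σ) (τ : Finset V) :
    bd c τ = bd d τ := by
  unfold bd
  exact Finset.sum_congr rfl (fun v _ => h _)

/-- The boundary of a boundary is zero. -/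
lemma bd_bd (c : Finset V → ZMod 2) (τ : Finset V) : bd (bd c) τ = 0 := by
  unfold bd
  rw [Finset.sum_sigma']
  refine Finset.sum_involution (fun x _ => ⟨x.2, x.1⟩) ?_ ?_ ?_ ?_
  · rintro ⟨v, w⟩ h
    simp only [mem_sigma, mem_filter, mem_univ, true_and, mem_insert, not_or] at h
    simp only
    rw [Finset.insert_comm w v τ]
    exact z2_add_self _
  · rintro ⟨v, w⟩ h _
    simp only [mem_sigma, mem_filter, mem_univ, true_and, mem_insert, not_or] at h
    intro heq
    simp only [Sigma.mk.injEq] at heq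
    exact h.2.1 heq.1
  · rintro ⟨v, w⟩ h
    simp only [mem_sigma, mem_filter, mem_univ, true_and, mem_insert, not_or] at h ⊢
    exact ⟨h.2.2, fun h' => h.2.1 h'.symm, h.1⟩
  · rintro ⟨v, w⟩ h
    rfl

lemma bd_dl_erase {S : Finset V} {v : V} (hv : v ∈ S) : bd (dl S) (S.erase v) = 1 := by
  unfold bd
  rw [Finset.sum_eq_single v]
  · rw [Finset.insert_erase hv, dl_self]
  · intro w hw hwv
    simp only [mem_filter, mem_univ, true_and, mem_erase, not_and] at hw
    by_contra h
    have h1 := dl_ne h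
    have h2 : w ∈ S := by rw [← h1]; exact mem_insert_self _ _
    exact hw hwv h2
  · intro h
    exact absurd (by simp) h

lemma bd_dl_ne {S τ : Finset V} (h : bd (dl S) τ ≠ 0) : ∃ v ∈ S, τ = S.erase v := by
  unfold bd at h
  obtain ⟨v, hv, hne⟩ := Finset.exists_ne_zero_of_sum_ne_zero h
  have h1 := dl_ne hne
  simp only [mem_filter, mem_univ, true_and] at hv
  refine ⟨v, by rw [← h1]; exact mem_insert_self _ _, ?_⟩
  rw [← h1, Finset.erase_insert hv]

lemma bd_zero {c : Finset V → ZMod 2} (h : ∀ σ, c σ = 0) (τ : Finset V) : bd c τ = 0 := by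
  unfold bd
  exact Finset.sum_eq_zero (fun v _ => h _)

/-- A chain which bounds is a cycle. -/
lemma isCycle_of_eq_bd {K : Finset (Finset V)} {i : ℕ} {c z : Finset V → ZMod 2}
    (hz : IsChain K i z) (h : ∀ τ, bd c τ = z τ) : IsCycle K i z := by
  refine ⟨hz, fun _ τ => ?_⟩
  rw [bd_congr (fun σ => (h σ).symm) τ]
  exact bd_bd c τ

end Chains

section Push

variable {V : Type} [Fintype V] [DecidableEq V]

/-- Image of a chain under the projection of the double cover. -/
def push (z : Finset (V × ZMod 2) → ZMod 2) (τ : Finset V) : ZMod 2 :=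
  ∑ σ ∈ univ.filter (fun σ : Finset (V × ZMod 2) => σ.image Prod.fst = τ), z σ

/-- The simplices of the chain project injectively. -/
def InjSupp (z : Finset (V × ZMod 2) → ZMod 2) : Prop :=
  ∀ σ, z σ ≠ 0 → ∀ x ∈ σ, ∀ y ∈ σ, x.1 = y.1 → x = y

lemma image_erase_fst {σ : Finset (V × ZMod 2)} (hσ : ∀ x ∈ σ, ∀ y ∈ σ, x.1 = y.1 → x = y)
    {x : V × ZMod 2} (hx : x ∈ σ) :
    (σ.erase x).image Prod.fst = (σ.image Prod.fst).erase x.1 := by
  ext v
  simp only [mem_image, mem_erase]
  constructor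
  · rintro ⟨y, ⟨hyx, hy⟩, rfl⟩
    exact ⟨fun h => hyx (hσ y hy x hx h), y, hy, rfl⟩
  · rintro ⟨hv, y, hy, rfl⟩
    exact ⟨y, ⟨fun h => hv (by rw [h]), hy⟩, rfl⟩

lemma push_bd {z : Finset (V × ZMod 2) → ZMod 2} (hz : InjSupp z) (τ : Finset V) :
    bd (push z) τ = push (bd z) τ := by
  unfold push bd
  rw [Finset.sum_sigma', Finset.sum_sigma']
  symm
  refine Finset.sum_bij_ne_zero (fun (q : Σ _ : Finset (V × ZMod 2), V × ZMod 2) _ _ =>
    (⟨q.2.1, insert q.2 q.1⟩ : Σ _ : V, Finset (V × ZMod 2))) ?_ ?_ ?_ ?_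
  · rintro ⟨ρ, x⟩ h hne
    simp only [mem_sigma, mem_filter, mem_univ, true_and] at h hne ⊢
    obtain ⟨h1, h2⟩ := h
    refine ⟨?_, ?_⟩
    · intro hx
      rw [← h1, mem_image] at hx
      obtain ⟨y, hy, hyx⟩ := hx
      have := hz _ hne y (mem_insert_of_mem hy) x (mem_insert_self _ _) hyx
      exact h2 (this ▸ hy)
    · rw [image_insert, h1]
  · rintro ⟨ρ, x⟩ h hne ⟨ρ', x'⟩ h' hne' heq
    simp only [mem_sigma, mem_filter, mem_univ, true_and] at h hne h' hne' heq
    simp only [Sigma.mk.injEq] at heq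
    obtain ⟨hfst, hins⟩ := heq
    have hins := eq_of_heq hins
    have hxx : x = x' := by
      apply hz _ hne x (mem_insert_self _ _) x' _ hfst
      rw [hins]; exact mem_insert_self _ _
    subst hxx
    have : ρ = ρ' := by
      rw [← Finset.erase_insert h.2, hins, Finset.erase_insert h'.2]
    subst this
    rfl
  · rintro ⟨v, σ⟩ h hne
    simp only [mem_sigma, mem_filter, mem_univ, true_and] at h hne
    obtain ⟨h1, h2⟩ := h
    have hv : v ∈ σ.image Prod.fst := by rw [h2]; exact mem_insert_self _ _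
    rw [mem_image] at hv
    obtain ⟨x, hx, hxv⟩ := hv
    refine ⟨⟨σ.erase x, x⟩, ?_, ?_, ?_⟩
    · simp only [mem_sigma, mem_filter, mem_univ, true_and]
      refine ⟨?_, by simp⟩
      rw [image_erase_fst (hz σ hne) hx, h2, hxv, Finset.erase_insert h1]
    · simp only
      rw [Finset.insert_erase hx]
      exact hne
    · simp only [Sigma.mk.injEq]
      refine ⟨hxv, ?_⟩
      rw [Finset.insert_erase hx]
  · rintro ⟨ρ, x⟩ h hne
    rfl

lemma push_dl (S : Finset (V × ZMod 2)) (τ : Finset V) :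
    push (dl S) τ = dl (S.image Prod.fst) τ := by
  unfold push dl
  rw [Finset.sum_ite_eq' ]
  by_cases h : S.image Prod.fst = τ
  · simp [h]
  · have h' : ¬ τ = S.image Prod.fst := fun h'' => h h''.symm
    simp [h, h']

lemma push_add (c d : Finset (V × ZMod 2) → ZMod 2) (τ : Finset V) :
    push (fun σ => c σ + d σ) τ = push c τ + push d τ := by
  unfold push
  rw [Finset.sum_add_distrib]

lemma push_congr {c d : Finset (V × ZMod 2) → ZMod 2} (h : ∀ σ, c σ = d σ) (τ : Finset V) :
    push c τ = push d τ := by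
  unfold push
  exact Finset.sum_congr rfl (fun v _ => h _)

lemma cover_inj {K : Finset (Finset V)} {a : V → V → ZMod 2} {σ : Finset (V × ZMod 2)}
    (hσ : σ ∈ cover K a) : ∀ x ∈ σ, ∀ y ∈ σ, x.1 = y.1 → x = y := by
  intro x hx y hy hxy
  by_contra hne
  unfold cover at hσ
  rw [mem_filter] at hσ
  exact (hσ.2.2 x hx y hy hne).1 hxy

lemma injSupp_of_isChain {K : Finset (Finset V)} {a : V → V → ZMod 2} {i : ℕ}
    {z : Finset (V × ZMod 2) → ZMod 2} (hz : IsChain (cover K a) i z) : InjSupp z := by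
  intro σ hσ
  exact cover_inj (hz σ hσ).1

lemma card_image_fst {σ : Finset (V × ZMod 2)} (hσ : ∀ x ∈ σ, ∀ y ∈ σ, x.1 = y.1 → x = y) :
    (σ.image Prod.fst).card = σ.card := by
  apply Finset.card_image_of_injOn
  intro x hx y hy h
  exact hσ x hx y hy h

lemma push_isChain {K : Finset (Finset V)} {a : V → V → ZMod 2} {i : ℕ}
    {z : Finset (V × ZMod 2) → ZMod 2} (hz : IsChain (cover K a) i z) :
    IsChain K i (push z) := by
  intro τ hτ
  unfold push at hτ
  obtain ⟨σ, hσ, hne⟩ := Finset.exists_ne_zero_of_sum_ne_zero hτ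
  rw [mem_filter] at hσ
  obtain ⟨h1, h2⟩ := hz σ hne
  have h3 := cover_inj h1
  unfold cover at h1
  rw [mem_filter] at h1
  refine ⟨by rw [← hσ.2]; exact h1.2.1, ?_⟩
  rw [← hσ.2, card_image_fst h3, h2]

/-- If a chain of the cover bounds, so does its image. -/
lemma push_bounds {K : Finset (Finset V)} {a : V → V → ZMod 2} {i : ℕ}
    {z : Finset (V × ZMod 2) → ZMod 2} (hz : Bounds (cover K a) i z) :
    Bounds K i (push z) := by
  obtain ⟨c, hc, hcz⟩ := hz
  refine ⟨push c, push_isChain hc, fun τ => ?_⟩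
  rw [push_bd (injSupp_of_isChain hc)]
  exact push_congr hcz τ

end Push

end Pool.Agent.Helper11.RP4
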