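import Mathlib
import Pool.Agent.Helper11.RP4.Faces

set_option autoImplicit false
set_option linter.unusedSectionVars false

open Finset

namespace Pool.Agent.Helper11.RP4

variable {V : Type} [Fintype V] [DecidableEq V]

/-- Parity of a triple: the value of the cocycle on the triangle path. -/
def par (a : V → V → ZMod 2) (x y z : V) : ZMod 2 := a x y + a y z + a x z

lemma par_12 {K : Finset (Finset V)} {a : V → V → ZMod 2} (ha : IsCocycle K a) (x y z : V) :
    par a y x z = par a x y z := by
  unfold par; rw [ha.symm y x]; ring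

lemma par_23 {K : Finset (Finset V)} {a : V → V → ZMod 2} (ha : IsCocycle K a) (x y z : V) :
    par a x z y = par a x y z := by
  unfold par; rw [ha.symm z y]; ring

/-- All triples of the set are even. -/
def EvenSet (a : V → V → ZMod 2) (S : Finset V) : Prop :=
  ∀ x ∈ S, ∀ y ∈ S, ∀ z ∈ S, x ≠ y → y ≠ z → x ≠ z → par a x y z = 0

/-- All triples of the set are odd. -/
def OddSet (a : V → V → ZMod 2) (S : Finset V) : Prop :=
  ∀ x ∈ S, ∀ y ∈ S, ∀ z ∈ S, x ≠ y → y ≠ z → x ≠ z → par a x y z = 1

lemma EvenSet.mono {a : V → V → ZMod 2} {S T : Finset V} (h : EvenSet a S) (hT : T ⊆ S) :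
    EvenSet a T := fun x hx y hy z hz => h x (hT hx) y (hT hy) z (hT hz)

lemma even_potential {K : Finset (Finset V)} {a : V → V → ZMod 2} (ha : IsCocycle K a)
    {S : Finset V} (hS : EvenSet a S) :
    ∃ g : V → ZMod 2, ∀ x ∈ S, ∀ y ∈ S, x ≠ y → g x + g y = a x y := by
  rcases S.eq_empty_or_nonempty with rfl | ⟨x0, hx0⟩
  · exact ⟨fun _ => 0, fun x hx => absurd hx (by simp)⟩
  · refine ⟨fun v => if v = x0 then 0 else a x0 v, ?_⟩
    intro x hx y hy hxy
    by_cases h1 : x = x0
    · subst h1
      have h2 : ¬ y = x := fun h => hxy h.symm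
      simp [h2]
    · by_cases h2 : y = x0
      · subst h2
        simp [h1, ha.symm y x]
      · simp only [h1, h2, if_false]
        have h3 := hS x0 hx0 x hx y hy (fun h => h1 h.symm) hxy (fun h => h2 h.symm)
        unfold par at h3
        have h4 : a x y = a x y + (a x0 x + a x y + a x0 y) := by rw [h3, add_zero]
        rw [h4]
        have h5 := z2_add_self (a x y)
        linear_combination (-1 : ZMod 2) * h5

/-- Lift of a set of vertices to the double cover. -/
def lift (g : V → ZMod 2) (S : Finset V) : Finset (V × ZMod 2) := S.image (fun v => (v, g v))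

lemma mem_lift {g : V → ZMod 2} {S : Finset V} {x : V × ZMod 2} :
    x ∈ lift g S ↔ x.1 ∈ S ∧ x.2 = g x.1 := by
  unfold lift
  simp only [mem_image]
  constructor
  · rintro ⟨v, hv, rfl⟩; exact ⟨hv, rfl⟩
  · rintro ⟨h1, h2⟩; exact ⟨x.1, h1, by rw [← h2]⟩

lemma lift_inj {g : V → ZMod 2} {S : Finset V} :
    ∀ x ∈ lift g S, ∀ y ∈ lift g S, x.1 = y.1 → x = y := by
  intro x hx y hy h
  rw [mem_lift] at hx hy
  exact Prod.ext h (by rw [hx.2, hy.2, h])

lemma lift_fst (g : V → ZMod 2) (S : Finset V) : (lift g S).image Prod.fst = S := by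
  ext v
  simp only [mem_image, mem_lift]
  constructor
  · rintro ⟨x, ⟨h1, _⟩, rfl⟩; exact h1
  · intro h; exact ⟨(v, g v), ⟨h, rfl⟩, rfl⟩

lemma lift_card (g : V → ZMod 2) (S : Finset V) : (lift g S).card = S.card := by
  conv_rhs => rw [← lift_fst g S]
  rw [card_image_fst lift_inj]

lemma lift_erase (g : V → ZMod 2) (S : Finset V) (x : V × ZMod 2) (hx : x ∈ lift g S) :
    (lift g S).erase x = lift g (S.erase x.1) := by
  ext y
  simp only [mem_erase, mem_lift]
  constructor
  · rintro ⟨h1, h2, h3⟩
    exact ⟨⟨fun h => h1 (lift_inj y (mem_lift.2 ⟨h2, h3⟩) x hx h), h2⟩, h3⟩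
  · rintro ⟨⟨h1, h2⟩, h3⟩
    exact ⟨fun h => h1 (by rw [h]), h2, h3⟩

lemma lift_mem_cover {K : Finset (Finset V)} {a : V → V → ZMod 2} {T : Finset V} (hT : T ∈ K)
    {g : V → ZMod 2} (hg : ∀ x ∈ T, ∀ y ∈ T, x ≠ y → g x + g y = a x y) :
    lift g T ∈ cover K a := by
  unfold cover
  rw [mem_filter]
  refine ⟨mem_univ _, by rw [lift_fst]; exact hT, ?_⟩
  intro x hx y hy hxy
  have h1 : x.1 ≠ y.1 := fun h => hxy (lift_inj x hx y hy h)
  rw [mem_lift] at hx hy
  exact ⟨h1, by rw [hx.2, hy.2]; exact hg _ hx.1 _ hy.1 h1⟩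

/-- Chain of the faces of a lifted simplex. -/
lemma lift_isChain {K : Finset (Finset V)} {a : V → V → ZMod 2} {S : Finset V}
    {g : V → ZMod 2} (hg : ∀ x ∈ S, ∀ y ∈ S, x ≠ y → g x + g y = a x y) {i : ℕ}
    (hcard : S.card = i + 2) (hfaces : ∀ v ∈ S, S.erase v ∈ K) :
    IsChain (cover K a) i (bd (dl (lift g S))) := by
  intro σ hσ
  obtain ⟨x, hx, rfl⟩ := bd_dl_ne hσ
  rw [lift_erase g S x hx, lift_card]
  have hx1 : x.1 ∈ S := (mem_lift.1 hx).1
  refine ⟨lift_mem_cover (hfaces _ hx1) ?_, ?_⟩
  · intro u hu v hv huv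
    exact hg u (mem_of_mem_erase hu) v (mem_of_mem_erase hv) huv
  · rw [Finset.card_erase_of_mem hx1, hcard]; rfl

lemma injSupp_dl_lift (g : V → ZMod 2) (S : Finset V) : InjSupp (dl (lift g S)) := by
  intro σ hσ
  rw [dl_ne hσ]
  exact lift_inj

lemma push_bd_dl_lift (g : V → ZMod 2) (S τ : Finset V) :
    push (bd (dl (lift g S))) τ = bd (dl S) τ := by
  rw [← push_bd (injSupp_dl_lift g S)]
  refine bd_congr (fun σ => ?_) τ
  rw [push_dl, lift_fst]

/-- The boundary of an even simplex, all of whose proper faces are in `K`, bounds in `K`. -/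
lemma even_bounds {K : Finset (Finset V)} {a : V → V → ZMod 2} (ha : IsCocycle K a)
    (hsph : IsHomologySphere (cover K a)) {S : Finset V} (hS : EvenSet a S) {i : ℕ}
    (hcard : S.card = i + 2) (hi : i ≤ 3) (hfaces : ∀ v ∈ S, S.erase v ∈ K) :
    Bounds K i (bd (dl S)) := by
  obtain ⟨g, hg⟩ := even_potential ha hS
  have hchain := lift_isChain hg hcard hfaces
  have hb : Bounds (cover K a) i (bd (dl (lift g S))) := by
    rcases Nat.eq_zero_or_pos i with h0 | hpos
    · subst h0
      obtain ⟨u, v, huv, hSuv⟩ := Finset.card_eq_two.1 (by rw [lift_card]; exact hcard :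
        (lift g S).card = 2)
      obtain ⟨c, hc, hcz⟩ := hsph.connected u v huv
      refine ⟨c, hc, fun τ => ?_⟩
      rw [hcz τ, hSuv]
      beta_reduce
      by_cases hτ : τ = {u} ∨ τ = {v}
      · rw [if_pos hτ]
        symm
        rcases hτ with rfl | rfl
        · have : ({u} : Finset (V × ZMod 2)) = ({u, v} : Finset (V × ZMod 2)).erase v := by
            ext x; simp only [mem_singleton, mem_erase, mem_insert]
            constructor
            · rintro rfl; exact ⟨huv, Or.inl rfl⟩
            · rintro ⟨h1, h2 | h2⟩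
              · exact h2
              · exact absurd h2 h1
          have h := bd_dl_erase (S := ({u, v} : Finset (V × ZMod 2))) (v := v) (by simp)
          rw [← this] at h
          exact h
        · have : ({v} : Finset (V × ZMod 2)) = ({u, v} : Finset (V × ZMod 2)).erase u := by
            ext x; simp only [mem_singleton, mem_erase, mem_insert]
            constructor
            · rintro rfl; exact ⟨huv.symm, Or.inr rfl⟩
            · rintro ⟨h1, h2 | h2⟩
              · exact absurd h2 h1
              · exact h2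
          have h := bd_dl_erase (S := ({u, v} : Finset (V × ZMod 2))) (v := u) (by simp)
          rw [← this] at h
          exact h
      · rw [if_neg hτ]
        by_contra hne
        obtain ⟨x, hx, hxe⟩ := bd_dl_ne (Ne.symm hne)
        simp only [mem_insert, mem_singleton] at hx
        apply hτ
        rcases hx with rfl | rfl
        · right
          rw [hxe]
          ext y; simp only [mem_singleton, mem_erase, mem_insert]
          constructor
          · rintro ⟨h1, h2 | h2⟩
            · exact absurd h2 h1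
            · exact h2
          · rintro rfl; exact ⟨huv.symm, Or.inr rfl⟩
        · left
          rw [hxe]
          ext y; simp only [mem_singleton, mem_erase, mem_insert]
          constructor
          · rintro ⟨h1, h2 | h2⟩
            · exact h2
            · exact absurd h2 h1
          · rintro rfl; exact ⟨huv, Or.inl rfl⟩
    · exact hsph.middle i hpos hi _ (isCycle_of_eq_bd hchain (fun τ => rfl))
  have := push_bounds hb
  obtain ⟨c, hc, hcz⟩ := this
  exact ⟨c, hc, fun τ => by rw [hcz τ, push_bd_dl_lift]⟩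

/-- The boundary of a 5-simplex with even triples is not contained in `K`. -/
lemma even_six {K : Finset (Finset V)} {a : V → V → ZMod 2} (ha : IsCocycle K a)
    (hsph : IsHomologySphere (cover K a)) {S : Finset V} (hS : EvenSet a S)
    (hcard : S.card = 6) (hfaces : ∀ v ∈ S, S.erase v ∈ K) : False := by
  obtain ⟨g, hg⟩ := even_potential ha hS
  have hchain := lift_isChain (i := 4) hg hcard hfaces
  have hcyc := isCycle_of_eq_bd (c := dl (lift g S)) hchain (fun τ => rfl)
  obtain ⟨v, hv⟩ : S.Nonempty := by rw [← Finset.card_pos, hcard]; norm_num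
  rcases hsph.top _ hcyc with h | h
  · have h1 : ((v, g v) : V × ZMod 2) ∈ lift g S := mem_lift.2 ⟨hv, rfl⟩
    have := h ((lift g S).erase (v, g v))
    rw [bd_dl_erase h1] at this
    exact one_ne_zero this
  · have hmem : lift (fun x => g x + 1) (S.erase v) ∈ cover K a := by
      apply lift_mem_cover (hfaces v hv)
      intro x hx y hy hxy
      rw [← hg x (mem_of_mem_erase hx) y (mem_of_mem_erase hy) hxy]
      have := z2_add_self (1 : ZMod 2)
      linear_combination this
    have hc5 : (lift (fun x => g x + 1) (S.erase v)).card = 5 := by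
      rw [lift_card, Finset.card_erase_of_mem hv, hcard]
    have h1 := h _ hmem hc5
    have h2 : bd (dl (lift g S)) (lift (fun x => g x + 1) (S.erase v)) ≠ 0 := by
      rw [h1]; exact one_ne_zero
    obtain ⟨x, hx, hxe⟩ := bd_dl_ne h2
    obtain ⟨w, hw⟩ : (S.erase v).Nonempty := by
      rw [← Finset.card_pos, Finset.card_erase_of_mem hv, hcard]; norm_num
    have h3 : ((w, g w + 1) : V × ZMod 2) ∈ lift (fun x => g x + 1) (S.erase v) :=
      mem_lift.2 ⟨hw, rfl⟩
    rw [hxe] at h3
    have h4 := (mem_lift.1 (mem_of_mem_erase h3)).2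
    simp at h4

/-- If the full subcomplex on an even set `S` is homologically injective and contains the
boundary of the simplex `S`, then `S` is a face. -/
lemma even_face {K : Finset (Finset V)} {a : V → V → ZMod 2} (ha : IsCocycle K a)
    (hsph : IsHomologySphere (cover K a)) {S : Finset V} (hS : EvenSet a S) {i : ℕ}
    (hcard : S.card = i + 2) (hi : i ≤ 3) (hfaces : ∀ v ∈ S, S.erase v ∈ K)
    (hinj : HomologyInjective K S) : S ∈ K := by
  have hb := even_bounds ha hsph hS hcard hi hfaces
  have hchain : IsChain (full K S) i (bd (dl S)) := by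
    intro σ hσ
    obtain ⟨x, hx, rfl⟩ := bd_dl_ne hσ
    refine ⟨?_, ?_⟩
    · unfold full
      rw [mem_filter]
      exact ⟨hfaces x hx, Finset.erase_subset _ _⟩
    · rw [Finset.card_erase_of_mem hx, hcard]; rfl
  obtain ⟨c, hc, hcz⟩ := hinj i _ (isCycle_of_eq_bd hchain (fun τ => rfl)) hb
  obtain ⟨v, hv⟩ : S.Nonempty := by rw [← Finset.card_pos, hcard]; omega
  have h1 := hcz (S.erase v)
  rw [bd_dl_erase hv] at h1
  have h2 : bd c (S.erase v) ≠ 0 := by rw [h1]; exact one_ne_zero
  unfold bd at h2
  obtain ⟨w, hw, hne⟩ := Finset.exists_ne_zero_of_sum_ne_zero h2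
  obtain ⟨h3, h4⟩ := hc _ hne
  unfold full at h3
  rw [mem_filter] at h3
  have hwS : w ∈ S := h3.2 (mem_insert_self _ _)
  simp only [mem_filter, mem_univ, true_and, mem_erase, not_and] at hw
  have hwv : w = v := by
    by_contra hne'
    exact hw hne' hwS
  subst hwv
  rw [Finset.insert_erase hwS] at h3
  exact h3.1

/-- In a family of homologically injective subsets, the even sets are faces. -/
lemma even_mem {K : Finset (Finset V)} {a : V → V → ZMod 2} (hK : IsComplex K)
    (hdim : ∀ σ ∈ K, σ.card ≤ 5) (ha : IsCocycle K a)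
    (hsph : IsHomologySphere (cover K a)) (F : Finset V)
    (hF : ∀ S, S ⊆ F → 2 ≤ S.card → S.card ≤ 5 → HomologyInjective K S) :
    ∀ n (S : Finset V), S.card = n → S ⊆ F → S.Nonempty → EvenSet a S → S ∈ K := by
  intro n
  induction n using Nat.strong_induction_on with
  | _ n ih =>
    intro S hn hSF hne hS
    have hpos : 0 < S.card := Finset.card_pos.2 hne
    rcases Nat.lt_or_ge S.card 2 with h2 | h2
    · obtain ⟨v, hv⟩ := Finset.card_eq_one.1 (by omega : S.card = 1)
      rw [hv]; exact hK.vertex v
    · have hfaces : ∀ v ∈ S, S.erase v ∈ K := by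
        intro v hv
        have hc : (S.erase v).card = S.card - 1 := Finset.card_erase_of_mem hv
        apply ih (S.card - 1) (by omega) _ hc ((Finset.erase_subset _ _).trans hSF)
        · rw [← Finset.card_pos, hc]; omega
        · exact hS.mono (Finset.erase_subset _ _)
      have h6 : S.card ≤ 6 := by
        obtain ⟨v, hv⟩ := hne
        have := hdim _ (hfaces v hv)
        rw [Finset.card_erase_of_mem hv] at this
        omega
      rcases Nat.lt_or_ge S.card 6 with h | h
      · obtain ⟨i, hi⟩ : ∃ i, S.card = i + 2 := ⟨S.card - 2, by omega⟩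
        exact even_face ha hsph hS hi (by omega) hfaces (hF S hSF h2 (by omega))
      · exact (even_six ha hsph hS (by omega) hfaces).elim

end Pool.Agent.Helper11.RP4
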