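import Mathlib
import Pool.Agent.Helper11.RP4.Good

set_option autoImplicit false
set_option linter.unusedSectionVars false

open Finset

namespace Pool.Agent.Helper11.RP4

variable {V : Type} [Fintype V] [DecidableEq V]

lemma erase_of_triple_1 {α : Type} [DecidableEq α] {x y z : α} (hxy : x ≠ y) (hxz : x ≠ z) :
    ({x, y, z} : Finset α).erase x = {y, z} := by
  rw [Finset.erase_insert]
  simp [hxy, hxz]

lemma triple_erase_cases {α : Type} [DecidableEq α] {x y z u : α} {σ : Finset α}
    (hu : u ∈ ({x, y, z} : Finset α)) (hσ : σ = ({x, y, z} : Finset α).erase u)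
    (hxy : x ≠ y) (hxz : x ≠ z) (hyz : y ≠ z) :
    σ = {y, z} ∨ σ = {x, z} ∨ σ = {x, y} := by
  simp only [mem_insert, mem_singleton] at hu
  rcases hu with rfl | rfl | rfl
  · left; rw [hσ]; exact erase_of_triple_1 hxy hxz
  · right; left; rw [hσ]
    rw [Finset.insert_comm, erase_of_triple_1 hxy.symm hyz]
  · right; right; rw [hσ]
    rw [Finset.pair_comm y u, Finset.insert_comm x u, erase_of_triple_1 hxz.symm hyz.symm]

/-- A full subcomplex on four vertices, containing all edges and with four odd triples, is not
homologically injective. -/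
lemma four_odd {K : Finset (Finset V)} {a : V → V → ZMod 2}
    (ha : IsCocycle K a) (hsph : IsHomologySphere (cover K a)) {x y z w : V}
    (hxy : x ≠ y) (hxz : x ≠ z) (hxw : x ≠ w) (hyz : y ≠ z) (hyw : y ≠ w) (hzw : z ≠ w)
    (hodd : OddSet a {x, y, z, w})
    (exy : ({x, y} : Finset V) ∈ K) (eyz : ({y, z} : Finset V) ∈ K)
    (ezw : ({z, w} : Finset V) ∈ K) (exw : ({x, w} : Finset V) ∈ K)
    (hinj : HomologyInjective K {x, y, z, w}) : False := by
  have p1 : par a x y z = 1 := hodd x (by simp) y (by simp) z (by simp) hxy hyz hxz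
  have p2 : par a x z w = 1 := hodd x (by simp) z (by simp) w (by simp) hxz hzw hxw
  unfold par at p1 p2
  have hsum : a x y + a y z + a z w + a x w = 0 := by
    have h1 := z2_add_self (a x z)
    have h2 := z2_add_self (1 : ZMod 2)
    linear_combination p1 + p2 + h2 - h1
  -- lifts
  set X : V × ZMod 2 := (x, 0) with hX
  set Y : V × ZMod 2 := (y, a x y) with hY
  set Z : V × ZMod 2 := (z, a x y + a y z) with hZ
  set W : V × ZMod 2 := (w, a x w) with hW
  have hXY : X ≠ Y := fun h => hxy (congrArg Prod.fst h)
  have hXZ : X ≠ Z := fun h => hxz (congrArg Prod.fst h)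
  have hXW : X ≠ W := fun h => hxw (congrArg Prod.fst h)
  have hYZ : Y ≠ Z := fun h => hyz (congrArg Prod.fst h)
  have hYW : Y ≠ W := fun h => hyw (congrArg Prod.fst h)
  have hZW : Z ≠ W := fun h => hzw (congrArg Prod.fst h)
  have edge : ∀ P Q : V × ZMod 2, P.1 ≠ Q.1 → ({P.1, Q.1} : Finset V) ∈ K →
      P.2 + Q.2 = a P.1 Q.1 → ({P, Q} : Finset (V × ZMod 2)) ∈ cover K a := by
    intro P Q h1 h2 h3
    unfold cover
    rw [mem_filter]
    refine ⟨mem_univ _, by rw [image_insert, image_singleton]; exact h2, ?_⟩
    intro A hA B hB hAB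
    simp only [mem_insert, mem_singleton] at hA hB
    rcases hA with rfl | rfl <;> rcases hB with rfl | rfl
    · exact absurd rfl hAB
    · exact ⟨h1, h3⟩
    · exact ⟨h1.symm, by rw [add_comm, h3, ha.symm]⟩
    · exact absurd rfl hAB
  have cXY : ({X, Y} : Finset (V × ZMod 2)) ∈ cover K a := edge X Y hxy exy (by simp [hX, hY])
  have cYZ : ({Y, Z} : Finset (V × ZMod 2)) ∈ cover K a := by
    apply edge Y Z hyz eyz
    have := z2_add_self (a x y)
    simp only [hY, hZ]
    linear_combination this
  have cZW : ({Z, W} : Finset (V × ZMod 2)) ∈ cover K a := by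
    apply edge Z W hzw ezw
    have := z2_add_self (a z w)
    simp only [hZ, hW]
    linear_combination hsum - this
  have cXW : ({X, W} : Finset (V × ZMod 2)) ∈ cover K a := edge X W hxw exw (by simp [hX, hW])
  -- the lifted cycle
  set A : Finset (V × ZMod 2) := {X, Y, Z} with hA
  set B : Finset (V × ZMod 2) := {X, Z, W} with hB
  have eA : A.erase Y = {X, Z} := by
    rw [hA, Finset.insert_comm, erase_of_triple_1 hXY.symm hYZ]
  have eB : B.erase W = {X, Z} := by
    rw [hB, Finset.pair_comm Z W, Finset.insert_comm X W, erase_of_triple_1 hXW.symm hZW.symm]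
  have bXZ : bd (fun σ => dl A σ + dl B σ) {X, Z} = 0 := by
    rw [bd_add, ← eA, bd_dl_erase (by simp [hA]), eA, ← eB, bd_dl_erase (by simp [hB])]
    exact z2_add_self 1
  have hchain : IsChain (cover K a) 1 (bd (fun σ => dl A σ + dl B σ)) := by
    intro σ hσ
    have hne : σ ≠ {X, Z} := by
      rintro rfl
      exact hσ bXZ
    rw [bd_add] at hσ
    have hcases : σ = {X, Y} ∨ σ = {Y, Z} ∨ σ = {Z, W} ∨ σ = {X, W} := by
      by_cases h1 : bd (dl A) σ = 0
      · have h2 : bd (dl B) σ ≠ 0 := by
          intro h; apply hσ; rw [h1, h, add_zero]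
        obtain ⟨u, hu, hue⟩ := bd_dl_ne h2
        rcases triple_erase_cases hu hue hXZ hXW hZW with h | h | h
        · exact Or.inr (Or.inr (Or.inl h))
        · exact Or.inr (Or.inr (Or.inr h))
        · exact absurd h hne
      · obtain ⟨u, hu, hue⟩ := bd_dl_ne h1
        rcases triple_erase_cases hu hue hXY hXZ hYZ with h | h | h
        · exact Or.inr (Or.inl h)
        · exact absurd h hne
        · exact Or.inl h
    rcases hcases with rfl | rfl | rfl | rfl
    · exact ⟨cXY, Finset.card_pair hXY⟩
    · exact ⟨cYZ, Finset.card_pair hYZ⟩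
    · exact ⟨cZW, Finset.card_pair hZW⟩
    · exact ⟨cXW, Finset.card_pair hXW⟩
  have hb := hsph.middle 1 le_rfl (by norm_num) _ (isCycle_of_eq_bd hchain (fun τ => rfl))
  have hb' := push_bounds hb
  -- its projection
  set A' : Finset V := {x, y, z} with hA'
  set B' : Finset V := {x, z, w} with hB'
  have pA : A.image Prod.fst = A' := by
    simp only [hA, hA', image_insert, image_singleton, hX, hY, hZ]
  have pB : B.image Prod.fst = B' := by
    simp only [hB, hB', image_insert, image_singleton, hX, hW, hZ]
  have injA : ∀ P ∈ A, ∀ Q ∈ A, P.1 = Q.1 → P = Q := by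
    intro P hP Q hQ h
    simp only [hA, mem_insert, mem_singleton] at hP hQ
    rcases hP with rfl | rfl | rfl <;> rcases hQ with rfl | rfl | rfl <;>
      first
      | rfl
      | exact absurd h hxy
      | exact absurd h.symm hxy
      | exact absurd h hxz
      | exact absurd h.symm hxz
      | exact absurd h hyz
      | exact absurd h.symm hyz
  have injB : ∀ P ∈ B, ∀ Q ∈ B, P.1 = Q.1 → P = Q := by
    intro P hP Q hQ h
    simp only [hB, mem_insert, mem_singleton] at hP hQ
    rcases hP with rfl | rfl | rfl <;> rcases hQ with rfl | rfl | rfl <;>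
      first
      | rfl
      | exact absurd h hxz
      | exact absurd h.symm hxz
      | exact absurd h hxw
      | exact absurd h.symm hxw
      | exact absurd h hzw
      | exact absurd h.symm hzw
  have hinjS : InjSupp (fun σ => dl A σ + dl B σ) := by
    intro σ hσ
    by_cases h1 : dl A σ = 0
    · have h2 : dl B σ ≠ 0 := by
        intro h; apply hσ; simp only [h1, h, add_zero]
      rw [dl_ne h2]; exact injB
    · rw [dl_ne h1]; exact injA
  have hpush : ∀ τ, push (bd (fun σ => dl A σ + dl B σ)) τ =
      bd (fun σ => dl A' σ + dl B' σ) τ := by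
    intro τ
    rw [← push_bd hinjS]
    refine bd_congr (fun σ => ?_) τ
    rw [push_add, push_dl, push_dl, pA, pB]
  have hbz : Bounds K 1 (bd (fun σ => dl A' σ + dl B' σ)) := by
    obtain ⟨c, hc, hcz⟩ := hb'
    exact ⟨c, hc, fun τ => by rw [hcz τ, hpush τ]⟩
  -- in the full subcomplex
  have eA' : A'.erase y = {x, z} := by
    rw [hA', Finset.insert_comm, erase_of_triple_1 hxy.symm hyz]
  have eB' : B'.erase w = {x, z} := by
    rw [hB', Finset.pair_comm z w, Finset.insert_comm x w, erase_of_triple_1 hxw.symm hzw.symm]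
  have bxz : bd (fun σ => dl A' σ + dl B' σ) {x, z} = 0 := by
    rw [bd_add, ← eA', bd_dl_erase (by simp [hA']), eA', ← eB', bd_dl_erase (by simp [hB'])]
    exact z2_add_self 1
  have hchain' : IsChain (full K {x, y, z, w}) 1 (bd (fun σ => dl A' σ + dl B' σ)) := by
    intro σ hσ
    have hne : σ ≠ {x, z} := by
      rintro rfl
      exact hσ bxz
    rw [bd_add] at hσ
    have hcases : σ = {x, y} ∨ σ = {y, z} ∨ σ = {z, w} ∨ σ = {x, w} := by
      by_cases h1 : bd (dl A') σ = 0
      · have h2 : bd (dl B') σ ≠ 0 := by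
          intro h; apply hσ; rw [h1, h, add_zero]
        obtain ⟨u, hu, hue⟩ := bd_dl_ne h2
        rcases triple_erase_cases hu hue hxz hxw hzw with h | h | h
        · exact Or.inr (Or.inr (Or.inl h))
        · exact Or.inr (Or.inr (Or.inr h))
        · exact absurd h hne
      · obtain ⟨u, hu, hue⟩ := bd_dl_ne h1
        rcases triple_erase_cases hu hue hxy hxz hyz with h | h | h
        · exact Or.inr (Or.inl h)
        · exact absurd h hne
        · exact Or.inl h
    unfold full
    rcases hcases with rfl | rfl | rfl | rfl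
    · refine ⟨mem_filter.2 ⟨exy, ?_⟩, Finset.card_pair hxy⟩
      intro t ht; simp only [mem_insert, mem_singleton] at ht ⊢; tauto
    · refine ⟨mem_filter.2 ⟨eyz, ?_⟩, Finset.card_pair hyz⟩
      intro t ht; simp only [mem_insert, mem_singleton] at ht ⊢; tauto
    · refine ⟨mem_filter.2 ⟨ezw, ?_⟩, Finset.card_pair hzw⟩
      intro t ht; simp only [mem_insert, mem_singleton] at ht ⊢; tauto
    · refine ⟨mem_filter.2 ⟨exw, ?_⟩, Finset.card_pair hxw⟩
      intro t ht; simp only [mem_insert, mem_singleton] at ht ⊢; tauto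
  obtain ⟨c, hc, hcz⟩ := hinj 1 _ (isCycle_of_eq_bd hchain' (fun τ => rfl)) hbz
  have hc0 : ∀ σ, c σ = 0 := by
    intro σ
    by_contra hne
    obtain ⟨h1, h2⟩ := hc σ hne
    unfold full at h1
    rw [mem_filter] at h1
    obtain ⟨u, v, t, huv, hut, hvt, rfl⟩ := Finset.card_eq_three.1 h2
    have h3 := ha.triangle u v t huv hvt hut h1.1
    have h4 := hodd u (h1.2 (by simp)) v (h1.2 (by simp)) t (h1.2 (by simp)) huv hvt hut
    unfold par at h4
    rw [h3] at h4
    exact zero_ne_one h4
  have h1 := hcz {x, y}
  rw [bd_zero hc0] at h1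
  have hAxy : bd (dl A') {x, y} = 1 := by
    have : A'.erase z = {x, y} := by
      rw [hA', Finset.pair_comm y z, Finset.insert_comm x z,
        erase_of_triple_1 hxz.symm hyz.symm]
    rw [← this]
    exact bd_dl_erase (by simp [hA'])
  have hBxy : bd (dl B') {x, y} = 0 := by
    by_contra hne
    obtain ⟨u, hu, hue⟩ := bd_dl_ne hne
    have : y ∈ B' := by
      have hy : y ∈ ({x, y} : Finset V) := by simp
      rw [hue] at hy
      exact mem_of_mem_erase hy
    simp only [hB', mem_insert, mem_singleton] at this
    rcases this with h | h | h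
    · exact hxy h.symm
    · exact hyz h
    · exact hyw h
  rw [bd_add, hAxy, hBxy, add_zero] at h1
  exact zero_ne_one h1

/-- The combinatorial conditions on the parities of the triples of `F`. -/
structure Good (a : V → V → ZMod 2) (F : Finset V) : Prop where
  four : ∀ x ∈ F, ∀ y ∈ F, ∀ z ∈ F, ∀ w ∈ F, x ≠ y → x ≠ z → x ≠ w → y ≠ z → y ≠ w → z ≠ w →
    par a x y z = 1 → par a x y w = 1 → par a x z w = 1 → par a y z w = 1 → False
  six : ∀ S ⊆ F, EvenSet a S → S.card ≤ 5

/-- A set of vertices all of whose subsets with at most five elements are homologically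
injective has good parities, and its even subsets are faces. -/
lemma good_of_injective {K : Finset (Finset V)} {a : V → V → ZMod 2} (hK : IsComplex K)
    (hdim : ∀ σ ∈ K, σ.card ≤ 5) (ha : IsCocycle K a)
    (hsph : IsHomologySphere (cover K a)) (F : Finset V)
    (hF : ∀ S, S ⊆ F → 2 ≤ S.card → S.card ≤ 5 → HomologyInjective K S) :
    Good a F ∧ ∀ S ⊆ F, S.Nonempty → EvenSet a S → S ∈ K := by
  have hmem : ∀ S ⊆ F, S.Nonempty → EvenSet a S → S ∈ K := fun S hS hne hev =>
    even_mem hK hdim ha hsph F hF S.card S rfl hS hne hev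
  have hpair : ∀ x ∈ F, ∀ y ∈ F, x ≠ y → ({x, y} : Finset V) ∈ K := by
    intro x hx y hy hxy
    apply hmem
    · intro t ht; simp only [mem_insert, mem_singleton] at ht
      rcases ht with rfl | rfl <;> assumption
    · exact ⟨x, by simp⟩
    · intro u hu v hv t ht huv hvt hut
      simp only [mem_insert, mem_singleton] at hu hv ht
      exfalso
      rcases hu with rfl | rfl <;> rcases hv with rfl | rfl <;> rcases ht with rfl | rfl <;>
        first
        | exact huv rfl
        | exact hvt rfl
        | exact hut rfl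
  refine ⟨⟨?_, ?_⟩, hmem⟩
  · intro x hx y hy z hz w hw hxy hxz hxw hyz hyw hzw p1 p2 p3 p4
    have hodd : OddSet a {x, y, z, w} := by
      have s12 := fun u v t : V => par_12 ha u v t
      have s23 := fun u v t : V => par_23 ha u v t
      intro u hu v hv t ht huv hvt hut
      simp only [mem_insert, mem_singleton] at hu hv ht
      rcases hu with rfl | rfl | rfl | rfl <;> rcases hv with rfl | rfl | rfl | rfl <;>
        rcases ht with rfl | rfl | rfl | rfl <;>
        first
        | exact absurd rfl huv
        | exact absurd rfl hvt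
        | exact absurd rfl hut
        | assumption
        | (rw [s12]; assumption)
        | (rw [s23]; assumption)
        | (rw [s12, s23]; assumption)
        | (rw [s23, s12]; assumption)
        | (rw [s12, s23, s12]; assumption)
    refine four_odd ha hsph hxy hxz hxw hyz hyw hzw hodd (hpair x hx y hy hxy)
      (hpair y hy z hz hyz) (hpair z hz w hw hzw) (hpair x hx w hw hxw) ?_
    have hcard : ({x, y, z, w} : Finset V).card = 4 := by
      rw [Finset.card_insert_of_notMem (by simp [hxy, hxz, hxw]),
        Finset.card_insert_of_notMem (by simp [hyz, hyw]), Finset.card_pair hzw]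
    apply hF
    · intro t ht; simp only [mem_insert, mem_singleton] at ht
      rcases ht with rfl | rfl | rfl | rfl <;> assumption
    · rw [hcard]; norm_num
    · rw [hcard]; norm_num
  · intro S hS hev
    rcases S.eq_empty_or_nonempty with rfl | hne
    · simp
    · exact hdim S (hmem S hS hne hev)

end Pool.Agent.Helper11.RP4
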