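import Mathlib
import Pool.Agent.Helper11.RP4.Four

set_option autoImplicit false
set_option linter.unusedSectionVars false

open Finset

namespace Pool.Agent.Helper11.RP4

section Graph

variable {V : Type} [DecidableEq V]

/-- `x0 x1 x2 x3 x4` is an induced pentagon of the graph `adj` on `X`. -/
structure Pentagon (adj : V → V → Prop) (X : Finset V) (c : Fin 5 → V) : Prop where
  mem : ∀ i, c i ∈ X
  inj : Function.Injective c
  adj1 : ∀ i, adj (c i) (c (i + 1))
  nadj2 : ∀ i, ¬ adj (c i) (c (i + 2))

/-- A triangle-free graph without two disjoint non-linked edges is bipartite or contains an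
induced pentagon. -/
lemma pentagon_or_bipartite (adj : V → V → Prop) (X : Finset V)
    (symm : ∀ x y, adj x y → adj y x)
    (tri : ∀ x ∈ X, ∀ y ∈ X, ∀ z ∈ X, x ≠ y → y ≠ z → x ≠ z → adj x y → adj y z → adj x z →
      False)
    (kk : ∀ x ∈ X, ∀ y ∈ X, ∀ z ∈ X, ∀ w ∈ X, x ≠ y → x ≠ z → x ≠ w → y ≠ z → y ≠ w → z ≠ w →
      adj x y → adj z w → ¬ adj x z → ¬ adj x w → ¬ adj y z → ¬ adj y w → False) :
    (∃ c : Fin 5 → V, Pentagon adj X c) ∨
    ∃ A B : Finset V, A ∪ B = X ∧ Disjoint A B ∧
      (∀ x ∈ A, ∀ y ∈ A, x ≠ y → ¬ adj x y) ∧ (∀ x ∈ B, ∀ y ∈ B, x ≠ y → ¬ adj x y) := by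
  classical
  by_cases hno : ∃ x ∈ X, ∃ y ∈ X, x ≠ y ∧ adj x y
  · obtain ⟨x, hx, y, hy, hxy, axy⟩ := hno
    -- `x ~ y`
    by_cases hP : ∃ z ∈ X, z ≠ x ∧ z ≠ y ∧ ¬ adj x z ∧ ¬ adj y z ∧
        (∃ p ∈ X, p ≠ x ∧ p ≠ z ∧ adj x p ∧ adj p z) ∧
        (∃ q ∈ X, q ≠ y ∧ q ≠ z ∧ adj y q ∧ adj q z)
    · left
      obtain ⟨z, hz, hzx, hzy, nxz, nyz, ⟨p, hp, hpx, hpz, axp, apz⟩, q, hq, hqy, hqz, ayq, aqz⟩ := hP
      have hpy : p ≠ y := fun h => nyz (h ▸ apz)
      have hqx : q ≠ x := fun h => nxz (h ▸ aqz)
      have npy : ¬ adj y p := fun h =>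
        tri x hx y hy p hp hxy (Ne.symm hpy) (Ne.symm hpx) axy h axp
      have nqx : ¬ adj x q := fun h =>
        tri y hy x hx q hq hxy.symm (Ne.symm hqx) (Ne.symm hqy) (symm _ _ axy) h ayq
      have hpq : p ≠ q := fun h => npy (h ▸ ayq)
      have npq : ¬ adj p q := fun h => tri p hp q hq z hz hpq hqz hpz h aqz apz
      refine ⟨![x, p, z, q, y], ?_, ?_, ?_, ?_⟩
      · intro i; fin_cases i <;> simp [hx, hp, hz, hq, hy]
      · intro i j hij
        fin_cases i <;> fin_cases j <;> simp at hij ⊢ <;>
          first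
          | exact absurd hij hpx
          | exact absurd hij.symm hpx
          | exact absurd hij hzx
          | exact absurd hij.symm hzx
          | exact absurd hij hqx
          | exact absurd hij.symm hqx
          | exact absurd hij hxy
          | exact absurd hij.symm hxy
          | exact absurd hij hpz
          | exact absurd hij.symm hpz
          | exact absurd hij hpq
          | exact absurd hij.symm hpq
          | exact absurd hij hpy
          | exact absurd hij.symm hpy
          | exact absurd hij hqz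
          | exact absurd hij.symm hqz
          | exact absurd hij hzy
          | exact absurd hij.symm hzy
          | exact absurd hij hqy
          | exact absurd hij.symm hqy
      · intro i
        fin_cases i
        · exact axp
        · exact apz
        · exact symm _ _ aqz
        · exact symm _ _ ayq
        · exact symm _ _ axy
      · intro i
        fin_cases i
        · exact nxz
        · exact npq
        · exact fun h => nyz (symm _ _ h)
        · exact fun h => nqx (symm _ _ h)
        · exact npy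
    · right
      -- the bipartition
      set R : Finset V := X.filter (fun z => ¬ adj x z ∧ ¬ adj y z ∧ z ≠ x ∧ z ≠ y) with hR
      set A : Finset V := X.filter (fun z => z ≠ x ∧ (adj x z ∨
        (z ≠ y ∧ ¬ adj y z ∧ ¬ ∃ p ∈ X, p ≠ x ∧ p ≠ z ∧ adj x p ∧ adj p z))) with hA
      refine ⟨A, X \ A, ?_, Finset.disjoint_sdiff, ?_, ?_⟩
      · rw [Finset.union_sdiff_of_subset]
        exact Finset.filter_subset _ _
      · intro u hu w hw huw auw
        rw [hA, mem_filter] at hu hw
        obtain ⟨huX, hux, hu'⟩ := hu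
        obtain ⟨hwX, hwx, hw'⟩ := hw
        rcases hu' with h1 | ⟨h1, h1', h1''⟩
        · rcases hw' with h2 | ⟨h2, h2', h2''⟩
          · exact tri x hx u huX w hwX (Ne.symm hux) huw (Ne.symm hwx) h1 auw h2
          · exact h2'' ⟨u, huX, hux, huw, h1, auw⟩
        · rcases hw' with h2 | ⟨h2, h2', h2''⟩
          · exact h1'' ⟨w, hwX, hwx, Ne.symm huw, h2, symm _ _ auw⟩
          · by_cases h3 : adj x u
            · exact h2'' ⟨u, huX, hux, huw, h3, auw⟩
            · by_cases h4 : adj x w
              · exact h1'' ⟨w, hwX, hwx, Ne.symm huw, h4, symm _ _ auw⟩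
              · exact kk x hx y hy u huX w hwX hxy (Ne.symm hux) (Ne.symm hwx) (Ne.symm h1)
                  (Ne.symm h2) huw axy auw h3 h4 h1' h2'
      · -- elements outside `A`
        have hB : ∀ u ∈ X \ A, u = x ∨ (u ≠ x ∧ ¬ adj x u ∧ (u = y ∨ adj y u ∨
            (u ≠ y ∧ ¬ adj y u ∧ ∃ p ∈ X, p ≠ x ∧ p ≠ u ∧ adj x p ∧ adj p u))) := by
          intro u hu
          rw [mem_sdiff, hA, mem_filter] at hu
          obtain ⟨huX, hu'⟩ := hu
          by_cases h1 : u = x
          · left; exact h1
          · right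
            refine ⟨h1, ?_, ?_⟩
            · intro h; exact hu' ⟨huX, h1, Or.inl h⟩
            · by_cases h2 : u = y
              · left; exact h2
              · by_cases h3 : adj y u
                · right; left; exact h3
                · right; right
                  refine ⟨h2, h3, ?_⟩
                  by_contra h4
                  exact hu' ⟨huX, h1, Or.inr ⟨h2, h3, h4⟩⟩
        -- every element outside `A` is `x`, a neighbour of `y` or is linked to a neighbour of x
        have hC : ∀ u ∈ X \ A, (u ≠ y ∧ adj y u) ∨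
            (u ≠ x ∧ u ≠ y ∧ ¬ adj x u ∧ ¬ adj y u ∧ ∃ p ∈ X, p ≠ x ∧ p ≠ u ∧ adj x p ∧ adj p u) := by
          intro u hu
          rcases hB u hu with h | ⟨h1, h2, h3 | h3 | h3⟩
          · left; rw [h]; exact ⟨hxy, symm _ _ axy⟩
          · rw [h3] at h2; exact absurd axy h2
          · by_cases h4 : u = y
            · rw [h4] at h2; exact absurd axy h2
            · left; exact ⟨h4, h3⟩
          · right; exact ⟨h1, h3.1, h2, h3.2.1, h3.2.2⟩
        intro u hu w hw huw auw
        have huX : u ∈ X := (mem_sdiff.1 hu).1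
        have hwX : w ∈ X := (mem_sdiff.1 hw).1
        rcases hC u hu with ⟨h1, h1'⟩ | ⟨h1, h1', h1'', h1''', h5⟩
        · rcases hC w hw with ⟨h2, h2'⟩ | ⟨h2, h2', h2'', h2''', h6⟩
          · exact tri y hy u huX w hwX (Ne.symm h1) huw (Ne.symm h2) h1' auw h2'
          · exact hP ⟨w, hwX, h2, h2', h2'', h2''', h6, u, huX, h1, huw, h1', auw⟩
        · rcases hC w hw with ⟨h2, h2'⟩ | ⟨h2, h2', h2'', h2''', h6⟩
          · exact hP ⟨u, huX, h1, h1', h1'', h1''', h5, w, hwX, h2, Ne.symm huw, h2',
              symm _ _ auw⟩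
          · exact kk x hx y hy u huX w hwX hxy (Ne.symm h1) (Ne.symm h2) (Ne.symm h1')
              (Ne.symm h2') huw axy auw h1'' h2'' h1''' h2'''
  · right
    refine ⟨X, ∅, by simp, by simp, ?_, by simp⟩
    intro x hx y hy hxy h
    exact hno ⟨x, hx, y, hy, hxy, h⟩

end Graph

end Pool.Agent.Helper11.RP4
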