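import Mathlib
import Pool.Agent.Helper11.RP4.Penta

set_option autoImplicit false
set_option linter.unusedSectionVars false

open Finset

namespace Pool.Agent.Helper11.RP4

/-- Adjacency of the classes: a pentagon on `0, …, 4` and an isolated point `5`. -/
def T (i j : Fin 6) : ZMod 2 :=
  if i.val < 5 ∧ j.val < 5 ∧ ((i.val + 1) % 5 = j.val ∨ (j.val + 1) % 5 = i.val) then 1 else 0

/-- Parity of a triple of classes. -/
def T3 (i j k : Fin 6) : ZMod 2 := T i j + T j k + T i k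

lemma T_castSucc (i j : Fin 5) : T i.castSucc j.castSucc = 1 ↔ (j = i + 1 ∨ j = i + 4) := by
  revert i j; decide

lemma T_five_left (j : Fin 6) : T 5 j = 0 := by revert j; decide

lemma T_five_right (j : Fin 6) : T j 5 = 0 := by revert j; decide

lemma T_symm (i j : Fin 6) : T i j = T j i := by revert i j; decide

lemma pattern (s : Fin 5 → Bool) (h1 : ∀ j, ¬ (s j = true ∧ s (j + 1) = true))
    (h2 : ∀ j, s j = true → s (j + 2) = true ∨ s (j + 3) = true) :
    (∀ j, ¬ s j = true) ∨ ∃ i, ∀ j, (s j = true ↔ (j = i + 1 ∨ j = i + 4)) := by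
  revert s; decide

lemma f5a (i : Fin 5) : i + 3 + 2 = i := by revert i; decide
lemma f5b (i : Fin 5) : i + 4 + 1 = i := by revert i; decide
lemma f5c (i : Fin 5) : ¬ (i + 3 = i + 1 ∨ i + 3 = i + 4) := by revert i; decide
lemma f5d (i : Fin 5) : i ≠ i + 2 := by revert i; decide
lemma f5e (i : Fin 5) : i ≠ i + 3 := by revert i; decide
lemma f5f (i : Fin 5) : ¬ (i + 1 + 1 = i + 1 ∨ i + 1 + 1 = i + 4) := by revert i; decide
lemma f5g (i : Fin 5) : ¬ (i + 4 = i + 1 + 1 ∨ i + 4 = i + 1 + 4) := by revert i; decide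
lemma f5h (i : Fin 5) : ¬ (i + 1 + 1 = i + 4 + 1 ∨ i + 1 + 1 = i + 4 + 4) := by revert i; decide
lemma f5i (i : Fin 5) : i + 4 ≠ i + 1 + 1 := by revert i; decide
lemma f5j (i : Fin 5) : i + 3 = i + 2 + 1 := by revert i; decide
lemma f5k (i : Fin 5) : ¬ (i + 2 = i + 1 ∨ i + 2 = i + 4) := by revert i; decide
lemma f5l (i : Fin 5) : i = i + 4 + 1 := by revert i; decide

variable {V : Type} [Fintype V] [DecidableEq V]

/-- Adjacency in the graph at `v`. -/
def nb (a : V → V → ZMod 2) (v x y : V) : Prop := x ≠ y ∧ par a v x y = 1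

lemma par_base {K : Finset (Finset V)} {a : V → V → ZMod 2} (ha : IsCocycle K a)
    (v x y z : V) : par a x y z = par a v x y + par a v y z + par a v x z := by
  unfold par
  have h1 := z2_add_self (a v x)
  have h2 := z2_add_self (a v y)
  have h3 := z2_add_self (a v z)
  linear_combination (-1 : ZMod 2) * h1 - h2 - h3

lemma nb_symm {K : Finset (Finset V)} {a : V → V → ZMod 2} (ha : IsCocycle K a) {v x y : V}
    (h : nb a v x y) : nb a v y x :=
  ⟨h.1.symm, by rw [par_23 ha]; exact h.2⟩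

lemma par_eq_zero_of_not_nb {a : V → V → ZMod 2} {v x y : V} (hxy : x ≠ y)
    (h : ¬ nb a v x y) : par a v x y = 0 :=
  z2_ne_one (fun h' => h ⟨hxy, h'⟩)

lemma nb_tri {K : Finset (Finset V)} {a : V → V → ZMod 2} (ha : IsCocycle K a) {F : Finset V}
    (hF : Good a F) {v : V} (hv : v ∈ F) :
    ∀ x ∈ F.erase v, ∀ y ∈ F.erase v, ∀ z ∈ F.erase v, x ≠ y → y ≠ z → x ≠ z →
      nb a v x y → nb a v y z → nb a v x z → False := by
  intro x hx y hy z hz hxy hyz hxz h1 h2 h3
  rw [mem_erase] at hx hy hz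
  refine hF.four v hv x hx.2 y hy.2 z hz.2 (Ne.symm hx.1) (Ne.symm hy.1) (Ne.symm hz.1) hxy hxz
    hyz h1.2 h3.2 h2.2 ?_
  rw [par_base ha v, h1.2, h2.2, h3.2]
  decide

lemma nb_kk {K : Finset (Finset V)} {a : V → V → ZMod 2} (ha : IsCocycle K a) {F : Finset V}
    (hF : Good a F) {v : V} (hv : v ∈ F) :
    ∀ x ∈ F.erase v, ∀ y ∈ F.erase v, ∀ z ∈ F.erase v, ∀ w ∈ F.erase v,
      x ≠ y → x ≠ z → x ≠ w → y ≠ z → y ≠ w → z ≠ w →
      nb a v x y → nb a v z w → ¬ nb a v x z → ¬ nb a v x w → ¬ nb a v y z → ¬ nb a v y w →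
      False := by
  intro x hx y hy z hz w hw hxy hxz hxw hyz hyw hzw h1 h2 n1 n2 n3 n4
  rw [mem_erase] at hx hy hz hw
  have e1 := par_eq_zero_of_not_nb hxz n1
  have e2 := par_eq_zero_of_not_nb hxw n2
  have e3 := par_eq_zero_of_not_nb hyz n3
  have e4 := par_eq_zero_of_not_nb hyw n4
  refine hF.four x hx.2 y hy.2 z hz.2 w hw.2 hxy hxz hxw hyz hyw hzw ?_ ?_ ?_ ?_
  · rw [par_base ha v, h1.2, e1, e3]; decide
  · rw [par_base ha v, h1.2, e2, e4]; decide
  · rw [par_base ha v, h2.2, e1, e2]; decide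
  · rw [par_base ha v, h2.2, e3, e4]; decide

section Pent

variable {K : Finset (Finset V)} {a : V → V → ZMod 2} {F : Finset V} {v : V} {c : Fin 5 → V}

lemma pent_self (ha : IsCocycle K a) (hc : Pentagon (nb a v) (F.erase v) c) (k j : Fin 5) :
    nb a v (c k) (c j) ↔ (j = k + 1 ∨ j = k + 4) := by
  have hcases : j = k ∨ j = k + 1 ∨ j = k + 2 ∨ j = k + 3 ∨ j = k + 4 := by
    revert j k; decide
  rcases hcases with h | h | h | h | h
  · subst h
    constructor
    · intro h; exact absurd rfl h.1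
    · intro h; exfalso; revert h; revert j; decide
  · subst h
    exact ⟨fun _ => Or.inl rfl, fun _ => hc.adj1 k⟩
  · subst h
    constructor
    · intro h; exact absurd h (hc.nadj2 k)
    · intro h; exfalso; revert h; revert k; decide
  · subst h
    constructor
    · intro h
      have h2 := hc.nadj2 (k + 3)
      have h3 : k + 3 + 2 = k := f5a k
      rw [h3] at h2
      exact absurd (nb_symm ha h) h2
    · intro h; exfalso; revert h; revert k; decide
  · subst h
    refine ⟨fun _ => Or.inr rfl, fun _ => ?_⟩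
    have h2 := hc.adj1 (k + 4)
    have h3 : k + 4 + 1 = k := f5b k
    rw [h3] at h2
    exact nb_symm ha h2

lemma pent_class (ha : IsCocycle K a) (hF : Good a F) (hv : v ∈ F)
    (hc : Pentagon (nb a v) (F.erase v) c) {x : V} (hx : x ∈ F.erase v) :
    (∀ j, ¬ nb a v x (c j)) ∨ ∃ i, ∀ j, (nb a v x (c j) ↔ (j = i + 1 ∨ j = i + 4)) := by
  classical
  by_cases hxc : ∃ k, x = c k
  · obtain ⟨k, rfl⟩ := hxc
    right
    exact ⟨k, pent_self ha hc k⟩
  · have hne : ∀ k, x ≠ c k := fun k h => hxc ⟨k, h⟩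
    have h1 : ∀ j, ¬ (nb a v x (c j) ∧ nb a v x (c (j + 1))) := by
      rintro j ⟨h1, h2⟩
      exact nb_tri ha hF hv x hx (c j) (hc.mem _) (c (j + 1)) (hc.mem _) (hne _)
        (hc.adj1 j).1 (hne _) h1 (hc.adj1 j) h2
    have h2 : ∀ j, nb a v x (c j) → nb a v x (c (j + 2)) ∨ nb a v x (c (j + 3)) := by
      intro j hj
      by_contra hcon
      rw [not_or] at hcon
      have n1 : ¬ nb a v (c j) (c (j + 2)) := hc.nadj2 j
      have n2 : ¬ nb a v (c j) (c (j + 3)) := by
        rw [pent_self ha hc]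
        exact f5c j
      have h3 : nb a v (c (j + 2)) (c (j + 3)) := by
        rw [pent_self ha hc]
        exact Or.inl (f5j j)
      have d1 : c j ≠ c (j + 2) := fun h => f5d j (hc.inj h)
      have d2 : c j ≠ c (j + 3) := fun h => f5e j (hc.inj h)
      exact nb_kk ha hF hv x hx (c j) (hc.mem _) (c (j + 2)) (hc.mem _) (c (j + 3)) (hc.mem _)
        (hne _) (hne _) (hne _) d1 d2 h3.1 hj h3 hcon.1 hcon.2 n1 n2
    have := pattern (fun j => decide (nb a v x (c j))) (by
      intro j; simpa using h1 j) (by intro j; simpa using h2 j)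
    simpa using this

/-- Relation between two classes. -/
lemma pent_adj_succ (ha : IsCocycle K a) (hF : Good a F) (hv : v ∈ F)
    (hc : Pentagon (nb a v) (F.erase v) c) {x y : V} (hx : x ∈ F.erase v) (hy : y ∈ F.erase v)
    (hxy : x ≠ y) {i : Fin 5} (hxi : ∀ j, (nb a v x (c j) ↔ (j = i + 1 ∨ j = i + 4)))
    (hyi : ∀ j, (nb a v y (c j) ↔ (j = i + 1 + 1 ∨ j = i + 1 + 4))) : nb a v x y := by
  by_contra hno
  have hx4 : nb a v x (c (i + 4)) := (hxi _).2 (Or.inr rfl)
  have hy2 : nb a v y (c (i + 1 + 1)) := (hyi _).2 (Or.inl rfl)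
  have n1 : ¬ nb a v x (c (i + 1 + 1)) := by
    rw [hxi]; exact f5f i
  have n2 : ¬ nb a v (c (i + 4)) y := by
    intro h
    have := nb_symm ha h
    rw [hyi] at this
    exact f5g i this
  have n3 : ¬ nb a v (c (i + 4)) (c (i + 1 + 1)) := by
    rw [pent_self ha hc]; exact f5h i
  have d1 : x ≠ c (i + 1 + 1) := by
    intro h
    rw [← h] at hy2
    exact hno (nb_symm ha hy2)
  have d2 : c (i + 4) ≠ y := by
    intro h
    rw [h] at hx4
    exact hno hx4
  have d3 : c (i + 4) ≠ c (i + 1 + 1) := fun h => f5i i (hc.inj h)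
  exact nb_kk ha hF hv x hx (c (i + 4)) (hc.mem _) y hy (c (i + 1 + 1)) (hc.mem _) hx4.1 hxy d1
    d2 d3 hy2.1 hx4 hy2 hno n1 n2 n3

lemma pent_nadj (ha : IsCocycle K a) (hF : Good a F) (hv : v ∈ F)
    (hc : Pentagon (nb a v) (F.erase v) c) {x y : V} (hx : x ∈ F.erase v) (hy : y ∈ F.erase v)
    (hxy : x ≠ y) {i j : Fin 5} (hxi : ∀ k, (nb a v x (c k) ↔ (k = i + 1 ∨ k = i + 4)))
    (hyj : ∀ k, (nb a v y (c k) ↔ (k = j + 1 ∨ k = j + 4))) (h1 : j ≠ i + 1) (h4 : j ≠ i + 4) :
    ¬ nb a v x y := by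
  intro h
  have hex : ∃ k, (k = i + 1 ∨ k = i + 4) ∧ (k = j + 1 ∨ k = j + 4) := by
    revert h1 h4
    clear hxi hyj
    revert i j
    decide
  obtain ⟨k, hk1, hk2⟩ := hex
  have e1 := (hxi k).2 hk1
  have e2 := (hyj k).2 hk2
  exact nb_tri ha hF hv x hx y hy (c k) (hc.mem _) hxy e2.1 e1.1 h e2 e1

lemma pent_free (ha : IsCocycle K a) (hF : Good a F) (hv : v ∈ F)
    (hc : Pentagon (nb a v) (F.erase v) c) {x y : V} (hx : x ∈ F.erase v) (hy : y ∈ F.erase v)
    (hxy : x ≠ y) (hxn : ∀ k, ¬ nb a v x (c k)) {i : Fin 5}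
    (hyi : ∀ k, (nb a v y (c k) → (k = i + 1 ∨ k = i + 4))) : ¬ nb a v x y := by
  intro h
  have h3 : nb a v (c (i + 2)) (c (i + 3)) := by
    rw [pent_self ha hc]
    exact Or.inl (f5j i)
  have n1 : ¬ nb a v y (c (i + 2)) := by
    intro h'; exact f5k i (hyi _ h')
  have n2 : ¬ nb a v y (c (i + 3)) := by
    intro h'; exact f5c i (hyi _ h')
  have dx : ∀ k, x ≠ c k := by
    intro k hk
    apply hxn (k + 1)
    rw [hk]
    exact hc.adj1 k
  have d1 : y ≠ c (i + 2) := by
    intro h'; rw [← h'] at h3; exact n2 h3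
  have d2 : y ≠ c (i + 3) := by
    intro h'; rw [← h'] at h3; exact n1 (nb_symm ha h3)
  exact nb_kk ha hF hv x hx y hy (c (i + 2)) (hc.mem _) (c (i + 3)) (hc.mem _) hxy (dx _) (dx _)
    d1 d2 h3.1 h h3 (hxn _) (hxn _) n1 n2

/-- The classes of the points, in the presence of a pentagon. -/
lemma exists_classes (ha : IsCocycle K a) (hF : Good a F) (hv : v ∈ F)
    (hc : Pentagon (nb a v) (F.erase v) c) :
    ∃ cl : V → Fin 6, (∀ k : Fin 6, ∃ x ∈ F, cl x = k) ∧
      ∀ x ∈ F, ∀ y ∈ F, ∀ z ∈ F, x ≠ y → y ≠ z → x ≠ z →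
        par a x y z = T3 (cl x) (cl y) (cl z) := by
  classical
  have hex : ∀ x : V, ∃ k : Fin 6, (x = v → k = 5) ∧ (x ∈ F.erase v →
      (k = 5 ∧ ∀ j, ¬ nb a v x (c j)) ∨
      ∃ i : Fin 5, k = i.castSucc ∧ ∀ j, (nb a v x (c j) ↔ (j = i + 1 ∨ j = i + 4))) := by
    intro x
    by_cases hx : x ∈ F.erase v
    · rcases pent_class ha hF hv hc hx with h | ⟨i, hi⟩
      · exact ⟨5, fun _ => rfl, fun _ => Or.inl ⟨rfl, h⟩⟩
      · refine ⟨i.castSucc, fun h => ?_, fun _ => Or.inr ⟨i, rfl, hi⟩⟩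
        rw [h] at hx
        simp at hx
    · exact ⟨5, fun _ => rfl, fun h => absurd h hx⟩
  choose cl hcl using hex
  have hclv : cl v = 5 := (hcl v).1 rfl
  have hadj : ∀ x ∈ F.erase v, ∀ y ∈ F.erase v, x ≠ y → (nb a v x y ↔ T (cl x) (cl y) = 1) := by
    intro x hx y hy hxy
    rcases (hcl x).2 hx with ⟨hx5, hxn⟩ | ⟨i, hxi, hxn⟩
    · rcases (hcl y).2 hy with ⟨hy5, hyn⟩ | ⟨j, hyj, hyn⟩
      · rw [hx5, T_five_left]
        refine ⟨fun h => ?_, fun h => absurd h zero_ne_one⟩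
        exact absurd h (pent_free ha hF hv hc hx hy hxy hxn (i := 0)
          (fun k hk => absurd hk (hyn k)))
      · rw [hx5, T_five_left]
        refine ⟨fun h => ?_, fun h => absurd h zero_ne_one⟩
        exact absurd h (pent_free ha hF hv hc hx hy hxy hxn (i := j)
          (fun k hk => (hyn k).1 hk))
    · rcases (hcl y).2 hy with ⟨hy5, hyn⟩ | ⟨j, hyj, hyn⟩
      · rw [hy5, T_five_right]
        refine ⟨fun h => ?_, fun h => absurd h zero_ne_one⟩
        exact absurd (nb_symm ha h) (pent_free ha hF hv hc hy hx hxy.symm hyn (i := i)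
          (fun k hk => (hxn k).1 hk))
      · rw [hxi, hyj, T_castSucc]
        constructor
        · intro h
          by_contra hcon
          rw [not_or] at hcon
          exact pent_nadj ha hF hv hc hx hy hxy hxn hyn hcon.1 hcon.2 h
        · rintro (h | h)
          · subst h
            exact pent_adj_succ ha hF hv hc hx hy hxy hxn hyn
          · have hi : i = j + 1 := by rw [h]; exact f5l i
            subst hi
            exact nb_symm ha (pent_adj_succ ha hF hv hc hy hx hxy.symm hyn hxn)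
  have hpar : ∀ x ∈ F.erase v, ∀ y ∈ F.erase v, x ≠ y → par a v x y = T (cl x) (cl y) := by
    intro x hx y hy hxy
    by_cases h : nb a v x y
    · rw [h.2, (hadj x hx y hy hxy).1 h]
    · rw [par_eq_zero_of_not_nb hxy h]
      symm
      exact z2_ne_one (fun h' => h ((hadj x hx y hy hxy).2 h'))
  refine ⟨cl, ?_, ?_⟩
  · intro k
    by_cases hk : k = 5
    · exact ⟨v, hv, by rw [hclv, hk]⟩
    · have hk5 : ∃ i : Fin 5, k = i.castSucc := by
        revert hk; revert k; decide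
      obtain ⟨i, rfl⟩ := hk5
      refine ⟨c i, mem_of_mem_erase (hc.mem i), ?_⟩
      rcases (hcl (c i)).2 (hc.mem i) with ⟨_, h2⟩ | ⟨j, h2, h3⟩
      · exact absurd (hc.adj1 i) (h2 _)
      · rw [h2]
        have h4 : ∀ k, (k = i + 1 ∨ k = i + 4) ↔ (k = j + 1 ∨ k = j + 4) := by
          intro k
          rw [← pent_self ha hc i k, h3 k]
        have : i = j := by
          clear h2 h3
          revert h4; revert i j; decide
        rw [this]
  · intro x hx y hy z hz hxy hyz hxz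
    unfold T3
    by_cases h1 : x = v
    · subst h1
      rw [hclv, T_five_left, T_five_left]
      rw [hpar y (mem_erase.2 ⟨hxy.symm, hy⟩) z (mem_erase.2 ⟨hxz.symm, hz⟩) hyz]
      ring
    · by_cases h2 : y = v
      · subst h2
        rw [hclv, T_five_left, T_five_right, par_12 ha]
        rw [hpar x (mem_erase.2 ⟨hxy, hx⟩) z (mem_erase.2 ⟨hyz.symm, hz⟩) hxz]
        ring
      · by_cases h3 : z = v
        · subst h3
          rw [hclv, T_five_right, T_five_right, ← par_23 ha, ← par_12 ha]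
          rw [hpar x (mem_erase.2 ⟨hxz, hx⟩) y (mem_erase.2 ⟨hyz, hy⟩) hxy]
          ring
        · have hx' := mem_erase.2 ⟨h1, hx⟩
          have hy' := mem_erase.2 ⟨h2, hy⟩
          have hz' := mem_erase.2 ⟨h3, hz⟩
          rw [par_base ha v, hpar x hx' y hy' hxy, hpar y hy' z hz' hyz, hpar x hx' z hz' hxz]

end Pent

end Pool.Agent.Helper11.RP4
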