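import Mathlib
import Pool.Agent.Helper11.RP4.Defs

set_option autoImplicit false
set_option linter.unusedSectionVars false

open Finset

namespace Pool.Agent.Helper11.RP4

variable {V : Type} [Fintype V] [DecidableEq V] {N : ℕ}

/-- Value of the affine functional `ℓ - c` at a vertex. -/
def val (p : V → (Fin N → ℝ)) (ℓ : (Fin N → ℝ) →ₗ[ℝ] ℝ) (c : ℝ) (v : V) : ℝ := ℓ (p v) - c

lemma val_comb (p : V → (Fin N → ℝ)) (m ℓ : (Fin N → ℝ) →ₗ[ℝ] ℝ) (d c t : ℝ) (v : V) :
    val p (m + t • ℓ) (d + t * c) v = val p m d v + t * val p ℓ c v := by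
  unfold val
  simp only [LinearMap.add_apply, LinearMap.smul_apply, smul_eq_mul]
  ring

lemma val_zero_linear (p : V → (Fin N → ℝ)) (c : ℝ) (v : V) : val p 0 c v = -c := by
  simp [val]

/-- A nonconstant functional has a nonzero linear part. -/
lemma linear_ne_zero {p : V → (Fin N → ℝ)} {ℓ : (Fin N → ℝ) →ₗ[ℝ] ℝ} {c : ℝ} {u v : V}
    (h : val p ℓ c u ≠ val p ℓ c v) : ℓ ≠ 0 := by
  rintro rfl
  exact h (by rw [val_zero_linear, val_zero_linear])

/-- Interpolation on an affinely independent set. -/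
lemma interp (p : V → (Fin N → ℝ)) (Z : Set V)
    (hZ : AffineIndependent ℝ (fun v : Z => p v)) (f : V → ℝ) :
    ∃ (m : (Fin N → ℝ) →ₗ[ℝ] ℝ) (d : ℝ), ∀ v ∈ Z, val p m d v = f v := by
  rcases Z.eq_empty_or_nonempty with rfl | ⟨v0, hv0⟩
  · exact ⟨0, 0, fun v hv => absurd hv (by simp)⟩
  · have hli := (affineIndependent_iff_linearIndependent_vsub ℝ (fun v : Z => p v)
      ⟨v0, hv0⟩).1 hZ
    set u : {x : Z // x ≠ ⟨v0, hv0⟩} → (Fin N → ℝ) :=
      fun i => (p (i : Z) -ᵥ p v0) with hu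
    have hli' : LinearIndependent ℝ u := hli
    set g : Submodule.span ℝ (Set.range u) →ₗ[ℝ] ℝ :=
      (Finsupp.linearCombination ℝ (fun i : {x : Z // x ≠ ⟨v0, hv0⟩} =>
        f (i : Z) - f v0)) ∘ₗ (hli'.repr : _ →ₗ[ℝ] _) with hg
    obtain ⟨m, hm⟩ := LinearMap.exists_extend g
    refine ⟨m, m (p v0) - f v0, ?_⟩
    intro v hv
    by_cases hvv : v = v0
    · subst hvv
      simp [val]
    · have hne : (⟨v, hv⟩ : Z) ≠ ⟨v0, hv0⟩ := fun h => hvv (congrArg Subtype.val h)
      set i : {x : Z // x ≠ ⟨v0, hv0⟩} := ⟨⟨v, hv⟩, hne⟩ with hi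
      have h1 : m (u i) = f v - f v0 := by
        have hmem : u i ∈ Submodule.span ℝ (Set.range u) :=
          Submodule.subset_span ⟨i, rfl⟩
        have h2 : m (u i) = g ⟨u i, hmem⟩ := by
          rw [← hm]; rfl
        rw [h2, hg]
        simp only [LinearMap.comp_apply, LinearEquiv.coe_coe]
        rw [hli'.repr_eq_single i ⟨u i, hmem⟩ rfl]
        simp [hi]
      have h3 : m (p v) - m (p v0) = f v - f v0 := by
        rw [← h1, ← map_sub]
        rfl
      unfold val
      linarith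

/-- If the vertices affinely span the space, a functional vanishing at all of them is zero. -/
lemma span_zero {p : V → (Fin N → ℝ)} (hspan : affineSpan ℝ (Set.range p) = ⊤)
    {ℓ : (Fin N → ℝ) →ₗ[ℝ] ℝ} {c : ℝ} (h : ∀ v, val p ℓ c v = 0) : ℓ = 0 ∧ c = 0 := by
  have hall : ∀ x : Fin N → ℝ, ℓ x = c := by
    intro x
    have hx : x ∈ affineSpan ℝ (Set.range p) := by rw [hspan]; trivial
    have hle : affineSpan ℝ (Set.range p) ≤
        (AffineSubspace.mk' (0 : ℝ) (⊥ : Submodule ℝ ℝ)).comap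
          (ℓ.toAffineMap - AffineMap.const ℝ (Fin N → ℝ) c) := by
      rw [affineSpan_le]
      rintro _ ⟨v, rfl⟩
      simp only [AffineSubspace.coe_comap, Set.mem_preimage, SetLike.mem_coe,
        AffineSubspace.mem_mk', Submodule.mem_bot]
      have := h v
      unfold val at this
      simpa using this
    have hx' := hle hx
    rw [AffineSubspace.mem_comap, AffineSubspace.mem_mk', Submodule.mem_bot] at hx'
    have h2 : ℓ x - c = 0 := by simpa using hx'
    linarith
  have hc : c = 0 := by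
    have := hall 0
    rw [map_zero] at this
    exact this.symm
  refine ⟨?_, hc⟩
  ext1 i
  ext
  simp [hall, hc]

/-- `(ℓ, c)` supports the set of vertices. -/
def Supports (p : V → (Fin N → ℝ)) (ℓ : (Fin N → ℝ) →ₗ[ℝ] ℝ) (c : ℝ) : Prop :=
  ℓ ≠ 0 ∧ ∀ v, 0 ≤ val p ℓ c v

open Classical in
/-- The vertices on the hyperplane. -/
noncomputable def zs (p : V → (Fin N → ℝ)) (ℓ : (Fin N → ℝ) →ₗ[ℝ] ℝ) (c : ℝ) : Finset V :=
  univ.filter (fun v => val p ℓ c v = 0)

lemma mem_zs {p : V → (Fin N → ℝ)} {ℓ : (Fin N → ℝ) →ₗ[ℝ] ℝ} {c : ℝ} {v : V} :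
    v ∈ zs p ℓ c ↔ val p ℓ c v = 0 := by simp [zs]

lemma zs_affineIndependent {p : V → (Fin N → ℝ)} (hS : SimplicialHull p)
    {ℓ : (Fin N → ℝ) →ₗ[ℝ] ℝ} {c : ℝ} (h : Supports p ℓ c) :
    AffineIndependent ℝ (fun v : (↑(zs p ℓ c) : Set V) => p v) := by
  have h1 := hS ℓ c h.1 (fun v => by have := h.2 v; unfold val at this; linarith)
  have hset : (↑(zs p ℓ c) : Set V) = {v : V | ℓ (p v) = c} := by
    ext v
    simp only [mem_coe, mem_zs, Set.mem_setOf_eq, val]
    constructor <;> intro h <;> linarith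
  rw [hset]
  exact h1

lemma interp_zs {p : V → (Fin N → ℝ)} (hS : SimplicialHull p)
    {ℓ : (Fin N → ℝ) →ₗ[ℝ] ℝ} {c : ℝ} (h : Supports p ℓ c) (f : V → ℝ) :
    ∃ (m : (Fin N → ℝ) →ₗ[ℝ] ℝ) (d : ℝ), ∀ v ∈ zs p ℓ c, val p m d v = f v :=
  interp p _ (zs_affineIndependent hS h) f

/-- Evaluation at the vertices in `Z`, as a linear map on affine functionals. -/
noncomputable def evalMap (p : V → (Fin N → ℝ)) (Z : Finset V) :
    (((Fin N → ℝ) →ₗ[ℝ] ℝ) × ℝ) →ₗ[ℝ] (Z → ℝ) where
  toFun q v := val p q.1 q.2 v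
  map_add' q r := by
    funext v
    simp only [val, Prod.fst_add, Prod.snd_add, LinearMap.add_apply, Pi.add_apply]
    ring
  map_smul' t q := by
    funext v
    simp only [val, Prod.smul_fst, Prod.smul_snd, LinearMap.smul_apply, smul_eq_mul,
      RingHom.id_apply, Pi.smul_apply]
    ring

lemma finrank_functionals : Module.finrank ℝ (((Fin N → ℝ) →ₗ[ℝ] ℝ) × ℝ) = N + 1 := by
  rw [Module.finrank_prod, Module.finrank_linearMap]
  simp

lemma card_zs_le {p : V → (Fin N → ℝ)} (hS : SimplicialHull p)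
    {ℓ : (Fin N → ℝ) →ₗ[ℝ] ℝ} {c : ℝ} (h : Supports p ℓ c) : (zs p ℓ c).card ≤ N := by
  set Z := zs p ℓ c with hZ
  have hsurj : Function.Surjective (evalMap p Z) := by
    intro f
    classical
    obtain ⟨m, d, hm⟩ := interp_zs hS h (fun v => if hv : v ∈ Z then f ⟨v, hv⟩ else 0)
    refine ⟨(m, d), ?_⟩
    funext v
    have := hm v v.2
    simp only [evalMap, LinearMap.coe_mk, AddHom.coe_mk]
    rw [this]
    simp
  have hrank := LinearMap.finrank_range_add_finrank_ker (evalMap p Z)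
  rw [LinearMap.range_eq_top.2 hsurj, finrank_top, finrank_functionals] at hrank
  have h1 : Module.finrank ℝ (Z → ℝ) = Z.card := by simp
  rw [h1] at hrank
  have h2 : 0 < Module.finrank ℝ (LinearMap.ker (evalMap p Z)) := by
    have hmem : ((ℓ, c) : ((Fin N → ℝ) →ₗ[ℝ] ℝ) × ℝ) ∈ LinearMap.ker (evalMap p Z) := by
      rw [LinearMap.mem_ker]
      funext v
      simp only [evalMap, LinearMap.coe_mk, AddHom.coe_mk, Pi.zero_apply]
      exact mem_zs.1 v.2
    haveI : Nontrivial (LinearMap.ker (evalMap p Z)) := by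
      refine ⟨⟨⟨(ℓ, c), hmem⟩, 0, ?_⟩⟩
      intro h0
      have := congrArg (fun q : LinearMap.ker (evalMap p Z) =>
        (q : ((Fin N → ℝ) →ₗ[ℝ] ℝ) × ℝ).1) h0
      exact h.1 this
    exact Module.finrank_pos (R := ℝ) (M := LinearMap.ker (evalMap p Z))
  omega

/-- Rotating a supporting functional `L` with the help of `M`: the largest `t` with a zero
outside the zero set of `L`. -/
lemma rotate {p : V → (Fin N → ℝ)} (hspan : affineSpan ℝ (Set.range p) = ⊤)
    {ℓ : (Fin N → ℝ) →ₗ[ℝ] ℝ} {c : ℝ} (h : Supports p ℓ c)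
    (m : (Fin N → ℝ) →ₗ[ℝ] ℝ) (d : ℝ) :
    ∃ (t : ℝ) (y : V), y ∉ zs p ℓ c ∧ val p (m + t • ℓ) (d + t * c) y = 0 ∧
      ∀ v, v ∉ zs p ℓ c → 0 ≤ val p (m + t • ℓ) (d + t * c) v := by
  classical
  have hne : (univ.filter (fun v => v ∉ zs p ℓ c)).Nonempty := by
    by_contra hcon
    rw [Finset.not_nonempty_iff_eq_empty, Finset.filter_eq_empty_iff] at hcon
    have : ∀ v, val p ℓ c v = 0 := by
      intro v
      have := hcon (mem_univ v)
      rw [not_not] at this
      exact mem_zs.1 this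
    exact h.1 (span_zero hspan this).1
  obtain ⟨y, hy, hmax⟩ := Finset.exists_max_image _ (fun v => - val p m d v / val p ℓ c v) hne
  simp only [mem_filter, mem_univ, true_and] at hy hmax
  have hpos : ∀ v, v ∉ zs p ℓ c → 0 < val p ℓ c v := by
    intro v hv
    rcases (h.2 v).lt_or_eq with h1 | h1
    · exact h1
    · exact absurd (mem_zs.2 h1.symm) hv
  refine ⟨- val p m d y / val p ℓ c y, y, hy, ?_, ?_⟩
  · rw [val_comb]
    have := hpos y hy
    field_simp
    ring
  · intro v hv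
    rw [val_comb]
    have h1 := hmax v hv
    have h2 := hpos v hv
    have h3 : - val p m d v / val p ℓ c v * val p ℓ c v ≤
        - val p m d y / val p ℓ c y * val p ℓ c v :=
      mul_le_mul_of_nonneg_right h1 h2.le
    have h4 : - val p m d v / val p ℓ c v * val p ℓ c v = - val p m d v := by
      field_simp
    linarith

/-- `F` is the set of vertices on a facet of the convex hull. -/
def Facet (p : V → (Fin N → ℝ)) (F : Finset V) : Prop :=
  ∃ (ℓ : (Fin N → ℝ) →ₗ[ℝ] ℝ) (c : ℝ), Supports p ℓ c ∧ zs p ℓ c = F ∧ F.card = N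

/-- There is a facet. -/
lemma exists_facet {p : V → (Fin N → ℝ)} (hspan : affineSpan ℝ (Set.range p) = ⊤)
    (hS : SimplicialHull p) (hN : 0 < N) : ∃ F, Facet p F := by
  classical
  -- a supporting functional exists
  have hne : Nonempty V := by
    by_contra hemp
    rw [not_nonempty_iff] at hemp
    rw [Set.range_eq_empty, AffineSubspace.span_empty] at hspan
    exact bot_ne_top hspan
  have hstart : ∃ (ℓ : (Fin N → ℝ) →ₗ[ℝ] ℝ) (c : ℝ), Supports p ℓ c := by
    set ℓ : (Fin N → ℝ) →ₗ[ℝ] ℝ := LinearMap.proj ⟨0, hN⟩ with hℓ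
    obtain ⟨v, _, hv⟩ := Finset.exists_min_image (univ : Finset V) (fun v => ℓ (p v))
      Finset.univ_nonempty
    refine ⟨ℓ, ℓ (p v), ?_, ?_⟩
    · intro h0
      have := congrArg (fun g : (Fin N → ℝ) →ₗ[ℝ] ℝ => g (fun _ => 1)) h0
      simp [hℓ] at this
    · intro w
      have := hv w (mem_univ w)
      unfold val
      linarith
  -- choose one with the largest zero set
  have hbound : ∃ n, ∃ (ℓ : (Fin N → ℝ) →ₗ[ℝ] ℝ) (c : ℝ), Supports p ℓ c ∧
      (zs p ℓ c).card = n ∧ ∀ (ℓ' : (Fin N → ℝ) →ₗ[ℝ] ℝ) (c' : ℝ), Supports p ℓ' c' →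
        (zs p ℓ' c').card ≤ n := by
    have hex : ∃ n, ∃ (ℓ : (Fin N → ℝ) →ₗ[ℝ] ℝ) (c : ℝ), Supports p ℓ c ∧
        (zs p ℓ c).card = n := by
      obtain ⟨ℓ, c, h⟩ := hstart
      exact ⟨_, ℓ, c, h, rfl⟩
    have hb : ∀ n, (∃ (ℓ : (Fin N → ℝ) →ₗ[ℝ] ℝ) (c : ℝ), Supports p ℓ c ∧
        (zs p ℓ c).card = n) → n ≤ N := by
      rintro n ⟨ℓ, c, h, rfl⟩
      exact card_zs_le hS h
    obtain ⟨n0, hn0⟩ := hex
    have hspec := Nat.findGreatest_spec (P := fun n => ∃ (ℓ : (Fin N → ℝ) →ₗ[ℝ] ℝ) (c : ℝ),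
      Supports p ℓ c ∧ (zs p ℓ c).card = n) (hb n0 hn0) hn0
    obtain ⟨ℓ, c, h1, h2⟩ := hspec
    exact ⟨_, ℓ, c, h1, h2, fun ℓ' c' h' => Nat.le_findGreatest
      (P := fun n => ∃ (ℓ : (Fin N → ℝ) →ₗ[ℝ] ℝ) (c : ℝ), Supports p ℓ c ∧
        (zs p ℓ c).card = n) (hb _ ⟨ℓ', c', h', rfl⟩) ⟨ℓ', c', h', rfl⟩⟩
  obtain ⟨n, ℓ, c, h, hn, hmax⟩ := hbound
  have hle : n ≤ N := by rw [← hn]; exact card_zs_le hS h
  rcases Nat.lt_or_ge n N with hlt | hge
  · exfalso
    -- a functional vanishing on the zero set, not proportional to `(ℓ, c)`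
    have hrank := LinearMap.finrank_range_add_finrank_ker (evalMap p (zs p ℓ c))
    rw [finrank_functionals] at hrank
    have h1 : Module.finrank ℝ (LinearMap.range (evalMap p (zs p ℓ c))) ≤ n := by
      have := Submodule.finrank_le (LinearMap.range (evalMap p (zs p ℓ c)))
      have h2 : Module.finrank ℝ ((zs p ℓ c) → ℝ) = (zs p ℓ c).card := by simp
      rw [h2, hn] at this
      exact this
    have h2 : 2 ≤ Module.finrank ℝ (LinearMap.ker (evalMap p (zs p ℓ c))) := by omega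
    have hex : ∃ q : ((Fin N → ℝ) →ₗ[ℝ] ℝ) × ℝ, q ∈ LinearMap.ker (evalMap p (zs p ℓ c)) ∧
        q ∉ Submodule.span ℝ {((ℓ, c) : ((Fin N → ℝ) →ₗ[ℝ] ℝ) × ℝ)} := by
      by_contra hcon
      push Not at hcon
      have hle' : LinearMap.ker (evalMap p (zs p ℓ c)) ≤
          Submodule.span ℝ {((ℓ, c) : ((Fin N → ℝ) →ₗ[ℝ] ℝ) × ℝ)} := fun q hq => hcon q hq
      have h3 := Submodule.finrank_mono hle'
      have h4 := finrank_span_le_card (R := ℝ)
        ({((ℓ, c) : ((Fin N → ℝ) →ₗ[ℝ] ℝ) × ℝ)} : Set (((Fin N → ℝ) →ₗ[ℝ] ℝ) × ℝ))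
      simp at h4
      omega
    obtain ⟨⟨m, d⟩, hq, hqn⟩ := hex
    obtain ⟨t, y, hy, hy0, hnn⟩ := rotate hspan h m d
    have hzero : ∀ v ∈ zs p ℓ c, val p (m + t • ℓ) (d + t * c) v = 0 := by
      intro v hv
      rw [val_comb, mem_zs.1 hv, mul_zero, add_zero]
      rw [LinearMap.mem_ker] at hq
      have := congrFun hq ⟨v, hv⟩
      simpa [evalMap] using this
    have hsup : Supports p (m + t • ℓ) (d + t * c) := by
      constructor
      · intro h0
        have h5 : d + t * c = 0 := by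
          have h6 := hy0
          rw [h0, val_zero_linear] at h6
          linarith
        apply hqn
        rw [Submodule.mem_span_singleton]
        refine ⟨-t, ?_⟩
        ext1
        · simp only [Prod.smul_mk]
          have h6 : m = - (t • ℓ) := by
            rw [eq_neg_iff_add_eq_zero]; exact h0
          rw [h6]
          simp
        · simp only [Prod.smul_mk, smul_eq_mul]
          linarith
      · intro v
        by_cases hv : v ∈ zs p ℓ c
        · rw [hzero v hv]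
        · exact hnn v hv
    have hsub : insert y (zs p ℓ c) ⊆ zs p (m + t • ℓ) (d + t * c) := by
      intro v hv
      rw [mem_insert] at hv
      rcases hv with rfl | hv
      · exact mem_zs.2 hy0
      · exact mem_zs.2 (hzero v hv)
    have h6 := Finset.card_le_card hsub
    rw [Finset.card_insert_of_notMem hy, hn] at h6
    have h7 := hmax _ _ hsup
    omega
  · exact ⟨zs p ℓ c, ℓ, c, h, rfl, by omega⟩

/-- Going from a facet to the neighbouring one. -/
lemma flip {p : V → (Fin N → ℝ)} (hspan : affineSpan ℝ (Set.range p) = ⊤)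
    (hS : SimplicialHull p) {F : Finset V} (hF : Facet p F) {x : V} (hx : x ∈ F) :
    ∃ y, y ∉ F ∧ Facet p (insert y (F.erase x)) := by
  classical
  obtain ⟨ℓ, c, h, rfl, hcard⟩ := hF
  obtain ⟨m, d, hm⟩ := interp_zs hS h (fun v => if v = x then 1 else 0)
  obtain ⟨t, y, hy, hy0, hnn⟩ := rotate hspan h m d
  have hx1 : val p (m + t • ℓ) (d + t * c) x = 1 := by
    rw [val_comb, mem_zs.1 hx, mul_zero, add_zero, hm x hx]
    simp
  have hzero : ∀ v ∈ (zs p ℓ c).erase x, val p (m + t • ℓ) (d + t * c) v = 0 := by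
    intro v hv
    rw [mem_erase] at hv
    rw [val_comb, mem_zs.1 hv.2, mul_zero, add_zero, hm v hv.2]
    simp [hv.1]
  have hsup : Supports p (m + t • ℓ) (d + t * c) := by
    constructor
    · apply linear_ne_zero (u := x) (v := y)
      rw [hx1, hy0]
      exact one_ne_zero
    · intro v
      by_cases hv : v ∈ zs p ℓ c
      · by_cases hvx : v = x
        · rw [hvx, hx1]; norm_num
        · rw [hzero v (mem_erase.2 ⟨hvx, hv⟩)]
      · exact hnn v hv
  have hsub : insert y ((zs p ℓ c).erase x) ⊆ zs p (m + t • ℓ) (d + t * c) := by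
    intro v hv
    rw [mem_insert] at hv
    rcases hv with rfl | hv
    · exact mem_zs.2 hy0
    · exact mem_zs.2 (hzero v hv)
  have hcard' : (insert y ((zs p ℓ c).erase x)).card = N := by
    rw [Finset.card_insert_of_notMem (fun h' => hy (mem_of_mem_erase h')),
      Finset.card_erase_of_mem hx, hcard]
    have : 0 < (zs p ℓ c).card := Finset.card_pos.2 ⟨x, hx⟩
    omega
  have heq : insert y ((zs p ℓ c).erase x) = zs p (m + t • ℓ) (d + t * c) := by
    apply Finset.eq_of_subset_of_card_le hsub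
    rw [hcard']
    exact card_zs_le hS hsup
  exact ⟨y, hy, _, _, hsup, heq.symm, hcard'⟩

/-- Every nonempty set of vertices of a facet can be cut off. -/
lemma facet_cutOff {p : V → (Fin N → ℝ)} (hspan : affineSpan ℝ (Set.range p) = ⊤)
    (hS : SimplicialHull p) {F : Finset V} (hF : Facet p F) {S : Finset V} (hSF : S ⊆ F)
    (hne : S.Nonempty) : CutOff p S := by
  classical
  obtain ⟨ℓ, c, h, rfl, hcard⟩ := hF
  obtain ⟨m, d, hm⟩ := interp_zs hS h (fun v => if v ∈ S then 0 else 1)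
  obtain ⟨t, y, hy, hy0, hnn⟩ := rotate hspan h m d
  have hpos : ∀ v, v ∉ zs p ℓ c → 0 < val p ℓ c v := by
    intro v hv
    rcases (h.2 v).lt_or_eq with h1 | h1
    · exact h1
    · exact absurd (mem_zs.2 h1.symm) hv
  have hout : ∀ v, v ∉ zs p ℓ c → 0 < val p (m + (t + 1) • ℓ) (d + (t + 1) * c) v := by
    intro v hv
    have h1 := hnn v hv
    rw [val_comb] at h1 ⊢
    have h2 := hpos v hv
    linarith
  have hin : ∀ v ∈ zs p ℓ c, val p (m + (t + 1) • ℓ) (d + (t + 1) * c) v =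
      if v ∈ S then 0 else 1 := by
    intro v hv
    rw [val_comb, mem_zs.1 hv, mul_zero, add_zero, hm v hv]
  obtain ⟨s, hs⟩ := hne
  refine ⟨m + (t + 1) • ℓ, d + (t + 1) * c, ?_, ?_⟩
  · apply linear_ne_zero (p := p) (c := d + (t + 1) * c) (u := s) (v := y)
    rw [hin s (hSF hs)]
    simp only [hs, if_true]
    exact ne_of_lt (hout y hy)
  · ext v
    unfold below
    rw [mem_filter]
    simp only [mem_univ, true_and]
    have hval : (m + (t + 1) • ℓ) (p v) ≤ d + (t + 1) * c ↔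
        val p (m + (t + 1) • ℓ) (d + (t + 1) * c) v ≤ 0 := by
      unfold val
      constructor <;> intro h <;> linarith
    rw [hval]
    constructor
    · intro h1
      by_cases hv : v ∈ zs p ℓ c
      · rw [hin v hv] at h1
        by_contra h2
        simp only [h2, if_false] at h1
        linarith
      · exact absurd (hout v hv) (not_lt.2 h1)
    · intro hv
      rw [hin v (hSF hv)]
      simp [hv]

end Pool.Agent.Helper11.RP4
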