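import Mathlib
import Pool.Agent.Helper11.RP4.Defs

set_option autoImplicit false

open Finset

namespace Pool.Agent.Helper11.RP4

variable {V : Type} [Fintype V] [DecidableEq V]

/-- The faces of `K` with `k` vertices which contain `σ`. -/
def facesOver (K : Finset (Finset V)) (σ : Finset V) (k : ℕ) : Finset (Finset V) :=
  K.filter (fun τ => σ ⊆ τ ∧ τ.card = k)

/-- The properties of a triangulation of real projective 4-space that are used here: those of
`IsProjective4`, the link of every edge has the Euler characteristic 2 of a 2-sphere (triangles
minus tetrahedra plus 4-simplices at the edge), and `K` has Euler characteristic 1. -/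
structure IsProjectiveManifold4 (K : Finset (Finset V)) : Prop where
  projective : IsProjective4 K
  edge_link : ∀ e ∈ K, e.card = 2 →
    (facesOver K e 3).card + (facesOver K e 5).card = (facesOver K e 4).card + 2
  euler : (facesOver K ∅ 1).card + (facesOver K ∅ 3).card + (facesOver K ∅ 5).card =
    (facesOver K ∅ 2).card + (facesOver K ∅ 4).card + 1

end Pool.Agent.Helper11.RP4
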