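import Mathlib
import Pool.Agent.Helper11.RP4.Good

set_option autoImplicit false
set_option linter.unusedSectionVars false

open Finset

namespace Pool.Agent.Helper11.RP4

variable {V : Type} [Fintype V] [DecidableEq V]

/-- The potential on a face which takes the value `s` at the vertex `p`. -/
def pot (a : V → V → ZMod 2) (p : V) (s : ZMod 2) (v : V) : ZMod 2 :=
  if v = p then s else a p v + s

lemma pot_self (a : V → V → ZMod 2) (p : V) (s : ZMod 2) : pot a p s p = s := by simp [pot]

lemma pot_spec {K : Finset (Finset V)} (hK : IsComplex K) {a : V → V → ZMod 2}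
    (ha : IsCocycle K a) {τ : Finset V} (hτ : τ ∈ K) {p : V} (hp : p ∈ τ) (s : ZMod 2) :
    ∀ x ∈ τ, ∀ y ∈ τ, x ≠ y → pot a p s x + pot a p s y = a x y := by
  intro x hx y hy hxy
  unfold pot
  have h2 : ∀ z : ZMod 2, z + z = 0 := z2_add_self
  by_cases hxp : x = p
  · subst hxp
    have hyp : ¬ y = x := fun h => hxy h.symm
    rw [if_pos rfl, if_neg hyp]
    linear_combination h2 s
  · by_cases hyp : y = p
    · subst hyp
      rw [if_neg hxp, if_pos rfl, ha.symm y x]
      linear_combination h2 s
    · rw [if_neg hxp, if_neg hyp]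
      have h3 : ({p, x, y} : Finset V) ∈ K := by
        apply hK.down τ hτ
        · intro t ht
          simp only [mem_insert, mem_singleton] at ht
          rcases ht with rfl | rfl | rfl <;> assumption
        · exact ⟨p, by simp⟩
      have h4 := ha.triangle p x y (fun h => hxp h.symm) hxy (fun h => hyp h.symm) h3
      linear_combination h4 + h2 s - h2 (a x y)

lemma lift_pot_mem {K : Finset (Finset V)} (hK : IsComplex K) {a : V → V → ZMod 2}
    (ha : IsCocycle K a) {τ : Finset V} (hτ : τ ∈ K) {p : V} (hp : p ∈ τ) (s : ZMod 2) :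
    lift (pot a p s) τ ∈ cover K a :=
  lift_mem_cover hτ (pot_spec hK ha hτ hp s)

lemma cover_image_mem {K : Finset (Finset V)} {a : V → V → ZMod 2} {σ : Finset (V × ZMod 2)}
    (hσ : σ ∈ cover K a) : σ.image Prod.fst ∈ K := by
  unfold cover at hσ
  exact (mem_filter.1 hσ).2.1

lemma cover_nonempty {K : Finset (Finset V)} (hK : IsComplex K) {a : V → V → ZMod 2}
    {σ : Finset (V × ZMod 2)} (hσ : σ ∈ cover K a) : σ.Nonempty := by
  have := hK.nonempty _ (cover_image_mem hσ)
  rwa [Finset.image_nonempty] at this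

/-- A simplex of the cover is determined by its image and one of its vertices. -/
lemma cover_eq_lift {K : Finset (Finset V)} {a : V → V → ZMod 2} {σ : Finset (V × ZMod 2)}
    (hσ : σ ∈ cover K a) {p : V} {s : ZMod 2} (hp : (p, s) ∈ σ) :
    σ = lift (pot a p s) (σ.image Prod.fst) := by
  have hσ' := hσ
  unfold cover at hσ'
  rw [mem_filter] at hσ'
  have key : ∀ x ∈ σ, x.2 = pot a p s x.1 := by
    intro x hx
    unfold pot
    by_cases h : x.1 = p
    · rw [if_pos h]
      have := cover_inj hσ x hx (p, s) hp h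
      rw [this]
    · rw [if_neg h]
      have hne : (p, s) ≠ x := fun h' => h (by rw [← h'])
      have h1 := (hσ'.2.2 (p, s) hp x hx hne).2
      have h2 := z2_add_self s
      simp only at h1
      linear_combination h1 - h2
  ext x
  rw [mem_lift]
  constructor
  · intro hx
    exact ⟨mem_image_of_mem _ hx, key x hx⟩
  · rintro ⟨h1, h2⟩
    rw [mem_image] at h1
    obtain ⟨y, hy, hyx⟩ := h1
    have : x = y := Prod.ext hyx.symm (by rw [h2, key y hy, hyx])
    rw [this]; exact hy

lemma cover_eq_of_mem {K : Finset (Finset V)} {a : V → V → ZMod 2}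
    {σ σ' : Finset (V × ZMod 2)} (hσ : σ ∈ cover K a) (hσ' : σ' ∈ cover K a)
    (him : σ.image Prod.fst = σ'.image Prod.fst) {x : V × ZMod 2} (hx : x ∈ σ) (hx' : x ∈ σ') :
    σ = σ' := by
  rw [cover_eq_lift hσ (p := x.1) (s := x.2) hx, cover_eq_lift hσ' (p := x.1) (s := x.2) hx', him]

lemma cover_down {K : Finset (Finset V)} (hK : IsComplex K) {a : V → V → ZMod 2}
    {σ ρ : Finset (V × ZMod 2)} (hσ : σ ∈ cover K a) (hρ : ρ ⊆ σ) (hne : ρ.Nonempty) :
    ρ ∈ cover K a := by
  unfold cover at hσ ⊢
  rw [mem_filter] at hσ ⊢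
  refine ⟨mem_univ _, ?_, fun x hx y hy hxy => hσ.2.2 x (hρ hx) y (hρ hy) hxy⟩
  exact hK.down _ hσ.2.1 _ (Finset.image_subset_image hρ) (hne.image _)

/-- The transfer of a chain of `K` to the cover. -/
def tr (K : Finset (Finset V)) (a : V → V → ZMod 2) (y : Finset V → ZMod 2)
    (σ : Finset (V × ZMod 2)) : ZMod 2 :=
  if σ ∈ cover K a then y (σ.image Prod.fst) else 0

lemma tr_isChain {K : Finset (Finset V)} {a : V → V → ZMod 2} {i : ℕ} {y : Finset V → ZMod 2}
    (hy : IsChain K i y) : IsChain (cover K a) i (tr K a y) := by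
  intro σ hσ
  unfold tr at hσ
  by_cases h : σ ∈ cover K a
  · rw [if_pos h] at hσ
    refine ⟨h, ?_⟩
    rw [← card_image_fst (cover_inj h)]
    exact (hy _ hσ).2
  · rw [if_neg h] at hσ
    exact absurd rfl hσ

/-- The transfer is a chain map. -/
lemma bd_tr {K : Finset (Finset V)} (hK : IsComplex K) {a : V → V → ZMod 2}
    (ha : IsCocycle K a) {i : ℕ} {y : Finset V → ZMod 2} (hy : IsChain K (i + 1) y)
    (σ : Finset (V × ZMod 2)) : bd (tr K a y) σ = tr K a (bd y) σ := by
  by_cases hσ : σ ∈ cover K a
  · have h1 : tr K a (bd y) σ = bd y (σ.image Prod.fst) := by unfold tr; rw [if_pos hσ]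
    rw [h1]
    unfold bd
    obtain ⟨⟨p, s⟩, hp⟩ := cover_nonempty hK hσ
    refine Finset.sum_bij_ne_zero (fun (x : V × ZMod 2) _ _ => x.1) ?_ ?_ ?_ ?_
    · intro x hx hne
      rw [mem_filter] at hx ⊢
      refine ⟨mem_univ _, ?_⟩
      unfold tr at hne
      by_cases h : insert x σ ∈ cover K a
      · intro hx1
        rw [mem_image] at hx1
        obtain ⟨z, hz, hzx⟩ := hx1
        have := cover_inj h z (mem_insert_of_mem hz) x (mem_insert_self _ _) hzx
        exact hx.2 (this ▸ hz)
      · rw [if_neg h] at hne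
        exact absurd rfl hne
    · intro x hx hne x' hx' hne' heq
      unfold tr at hne hne'
      by_cases h : insert x σ ∈ cover K a
      · by_cases h' : insert x' σ ∈ cover K a
        · have him : (insert x σ).image Prod.fst = (insert x' σ).image Prod.fst := by
            rw [image_insert, image_insert, heq]
          have := cover_eq_of_mem h h' him (mem_insert_of_mem hp) (mem_insert_of_mem hp)
          have hx1 : x ∈ insert x' σ := by rw [← this]; exact mem_insert_self _ _
          exact cover_inj h' x hx1 x' (mem_insert_self _ _) heq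
        · rw [if_neg h'] at hne'
          exact absurd rfl hne'
      · rw [if_neg h] at hne
        exact absurd rfl hne
    · intro v hv hne
      rw [mem_filter] at hv
      have hvK := (hy _ hne).1
      have hp1 : p ∈ insert v (σ.image Prod.fst) :=
        mem_insert_of_mem (mem_image_of_mem Prod.fst hp)
      have hl := lift_pot_mem hK ha hvK hp1 s
      have hins : lift (pot a p s) (insert v (σ.image Prod.fst)) =
          insert (v, pot a p s v) σ := by
        conv_rhs => rw [cover_eq_lift hσ hp]
        ext x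
        rw [mem_lift, mem_insert, mem_insert, mem_lift]
        constructor
        · rintro ⟨h1 | h1, h2⟩
          · left; exact Prod.ext h1 (by rw [h2, h1])
          · right; exact ⟨h1, h2⟩
        · rintro (h1 | ⟨h1, h2⟩)
          · rw [h1]; exact ⟨Or.inl rfl, rfl⟩
          · exact ⟨Or.inr h1, h2⟩
      rw [hins] at hl
      refine ⟨(v, pot a p s v), ?_, ?_, rfl⟩
      · rw [mem_filter]
        refine ⟨mem_univ _, fun h => hv.2 (mem_image_of_mem Prod.fst h)⟩
      · unfold tr
        rw [if_pos hl, image_insert]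
        exact hne
    · intro x hx hne
      unfold tr at hne ⊢
      by_cases h : insert x σ ∈ cover K a
      · rw [if_pos h, image_insert]
      · rw [if_neg h] at hne
        exact absurd rfl hne
  · have h1 : tr K a (bd y) σ = 0 := by unfold tr; rw [if_neg hσ]
    rw [h1]
    unfold bd
    apply Finset.sum_eq_zero
    intro x hx
    rw [mem_filter] at hx
    by_contra hne
    obtain ⟨h2, h3⟩ := tr_isChain hy _ hne
    rcases σ.eq_empty_or_nonempty with h | h
    · subst h
      simp at h3
    · exact hσ (cover_down hK h2 (subset_insert _ _) h)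

/-- The two lifts of a face. -/
lemma push_two {K : Finset (Finset V)} (hK : IsComplex K) {a : V → V → ZMod 2}
    (ha : IsCocycle K a) {w : Finset (V × ZMod 2) → ZMod 2}
    (hw : ∀ σ, w σ ≠ 0 → σ ∈ cover K a) {τ : Finset V} (hτ : τ ∈ K) {p : V} (hp : p ∈ τ) :
    push w τ = w (lift (pot a p 0) τ) + w (lift (pot a p 1) τ) := by
  unfold push
  have hne : lift (pot a p 0) τ ≠ lift (pot a p 1) τ := by
    intro h
    have h1 : ((p, 0) : V × ZMod 2) ∈ lift (pot a p 0) τ := mem_lift.2 ⟨hp, by rw [pot_self]⟩
    rw [h, mem_lift] at h1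
    have h2 := h1.2
    rw [pot_self] at h2
    exact zero_ne_one h2
  rw [← Finset.sum_pair hne]
  symm
  apply Finset.sum_subset_zero_on_sdiff
  · intro σ hσ
    rw [mem_insert, mem_singleton] at hσ
    rw [mem_filter]
    refine ⟨mem_univ _, ?_⟩
    rcases hσ with rfl | rfl <;> exact lift_fst _ _
  · intro σ hσ
    rw [mem_sdiff, mem_filter, mem_insert, mem_singleton, not_or] at hσ
    by_contra hne'
    have h1 := hw σ hne'
    have hp' : p ∈ σ.image Prod.fst := by rw [hσ.1.2]; exact hp
    rw [mem_image] at hp'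
    obtain ⟨x, hx, hxp⟩ := hp'
    have h2 : (p, x.2) ∈ σ := by rw [← hxp]; exact hx
    have h3 := cover_eq_lift h1 h2
    rw [hσ.1.2] at h3
    rcases (show x.2 = 0 ∨ x.2 = 1 by generalize x.2 = t; revert t; decide) with h | h
    · rw [h] at h3; exact hσ.2.1 h3
    · rw [h] at h3; exact hσ.2.2 h3
  · intro σ _
    rfl

lemma push_tr {K : Finset (Finset V)} (hK : IsComplex K) {a : V → V → ZMod 2}
    (ha : IsCocycle K a) {y : Finset V → ZMod 2} (τ : Finset V) : push (tr K a y) τ = 0 := by
  have hw : ∀ σ, tr K a y σ ≠ 0 → σ ∈ cover K a := by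
    intro σ h
    by_contra hc
    unfold tr at h
    rw [if_neg hc] at h
    exact h rfl
  by_cases hτ : τ ∈ K
  · obtain ⟨p, hp⟩ := hK.nonempty τ hτ
    rw [push_two hK ha hw hτ hp]
    unfold tr
    rw [if_pos (lift_pot_mem hK ha hτ hp 0), if_pos (lift_pot_mem hK ha hτ hp 1), lift_fst,
      lift_fst]
    exact z2_add_self _
  · unfold push
    apply Finset.sum_eq_zero
    intro σ hσ
    by_contra hne
    rw [mem_filter] at hσ
    apply hτ
    rw [← hσ.2]
    exact cover_image_mem (hw σ hne)

/-- Pushing a class up: if `y` bounds, so does `z`. -/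
lemma bounds_up {K : Finset (Finset V)} (hK : IsComplex K) {a : V → V → ZMod 2}
    (ha : IsCocycle K a) (hsph : IsHomologySphere (cover K a)) {i : ℕ} (hi : i ≤ 2)
    {z y : Finset V → ZMod 2} {c : Finset (V × ZMod 2) → ZMod 2}
    (hc : IsChain (cover K a) (i + 1) c) (hz : ∀ τ, push c τ = z τ)
    (hy : ∀ σ, bd c σ = tr K a y σ) (hb : Bounds K i y) : Bounds K (i + 1) z := by
  obtain ⟨e, he, hey⟩ := hb
  have hcyc : IsCycle (cover K a) (i + 1) (fun σ => c σ + tr K a e σ) := by
    refine ⟨?_, fun _ τ => ?_⟩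
    · intro σ hσ
      beta_reduce at hσ
      by_cases h : c σ = 0
      · rw [h, zero_add] at hσ
        exact tr_isChain he σ hσ
      · exact hc σ h
    · rw [bd_add, hy, bd_tr hK ha he]
      have : tr K a (bd e) τ = tr K a y τ := by
        unfold tr
        by_cases h : τ ∈ cover K a
        · rw [if_pos h, if_pos h, hey]
        · rw [if_neg h, if_neg h]
      rw [this]
      exact z2_add_self _
  have hb := push_bounds (hsph.middle (i + 1) (by omega) (by omega) _ hcyc)
  obtain ⟨d, hd, hdz⟩ := hb
  refine ⟨d, hd, fun τ => ?_⟩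
  rw [hdz τ, push_add, push_tr hK ha, add_zero, hz]

/-- The last step: if `y` bounds, the 4-cycle `z` is zero. -/
lemma zero_of_bounds {K : Finset (Finset V)} (hK : IsComplex K) {a : V → V → ZMod 2}
    (ha : IsCocycle K a) (hsph : IsHomologySphere (cover K a))
    {z y : Finset V → ZMod 2} {c : Finset (V × ZMod 2) → ZMod 2}
    (hc : IsChain (cover K a) 4 c) (hz : ∀ τ, push c τ = z τ)
    (hy : ∀ σ, bd c σ = tr K a y σ) (hb : Bounds K 3 y) : ∀ τ, z τ = 0 := by
  obtain ⟨e, he, hey⟩ := hb
  have hcyc : IsCycle (cover K a) 4 (fun σ => c σ + tr K a e σ) := by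
    refine ⟨?_, fun _ τ => ?_⟩
    · intro σ hσ
      beta_reduce at hσ
      by_cases h : c σ = 0
      · rw [h, zero_add] at hσ
        exact tr_isChain he σ hσ
      · exact hc σ h
    · rw [bd_add, hy, bd_tr hK ha he]
      have : tr K a (bd e) τ = tr K a y τ := by
        unfold tr
        by_cases h : τ ∈ cover K a
        · rw [if_pos h, if_pos h, hey]
        · rw [if_neg h, if_neg h]
      rw [this]
      exact z2_add_self _
  intro τ
  have h1 : push (fun σ => c σ + tr K a e σ) τ = z τ := by
    rw [push_add, push_tr hK ha, add_zero, hz]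
  rw [← h1]
  rcases hsph.top _ hcyc with h | h
  · unfold push
    exact Finset.sum_eq_zero (fun σ _ => h σ)
  · by_cases hτ : τ ∈ K ∧ τ.card = 5
    · obtain ⟨p, hp⟩ := hK.nonempty τ hτ.1
      rw [push_two hK ha (fun σ hσ => (hcyc.1 σ hσ).1) hτ.1 hp,
        h _ (lift_pot_mem hK ha hτ.1 hp 0) (by rw [lift_card]; exact hτ.2),
        h _ (lift_pot_mem hK ha hτ.1 hp 1) (by rw [lift_card]; exact hτ.2)]
      exact z2_add_self 1
    · by_contra hne
      have := push_isChain hcyc.1 τ hne
      exact hτ this

end Pool.Agent.Helper11.RP4
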