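import Mathlib
import Pool.Agent.Helper11.RP4.Transfer

set_option autoImplicit false
set_option linter.unusedSectionVars false

open Finset

namespace Pool.Agent.Helper11.RP4

variable {V : Type} [Fintype V] [DecidableEq V]

lemma exists_lift {K : Finset (Finset V)} (hK : IsComplex K) {a : V → V → ZMod 2}
    (ha : IsCocycle K a) {W : Finset V} {g : V → ZMod 2}
    (hg : ∀ x ∈ W, ∀ y ∈ W, x ≠ y → g x + g y = a x y) (τ : Finset V) :
    ∃ ρ : Finset (V × ZMod 2), τ ∈ K → ρ ∈ cover K a ∧ ρ.image Prod.fst = τ ∧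
      ∀ w ∈ τ, w ∈ W → (w, g w) ∈ ρ := by
  by_cases hτ : τ ∈ K
  · by_cases h : ∃ w ∈ τ, w ∈ W
    · obtain ⟨w, hw, hwW⟩ := h
      refine ⟨lift (pot a w (g w)) τ, fun _ => ⟨lift_pot_mem hK ha hτ hw _, lift_fst _ _, ?_⟩⟩
      intro x hx hxW
      rw [mem_lift]
      refine ⟨hx, ?_⟩
      unfold pot
      by_cases hxw : x = w
      · rw [if_pos hxw, hxw]
      · rw [if_neg hxw]
        have h1 := hg w hwW x hxW (fun h' => hxw h'.symm)
        have h2 := z2_add_self (g w)
        simp only
        linear_combination h1 - h2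
    · obtain ⟨p, hp⟩ := hK.nonempty τ hτ
      refine ⟨lift (pot a p 0) τ, fun _ => ⟨lift_pot_mem hK ha hτ hp _, lift_fst _ _, ?_⟩⟩
      intro x hx hxW
      exact absurd ⟨x, hx, hxW⟩ h
  · exact ⟨∅, fun h => absurd h hτ⟩

/-- The cap product of a cycle with the class of the double cover, away from an even set. -/
lemma descend {K : Finset (Finset V)} (hK : IsComplex K) {a : V → V → ZMod 2}
    (ha : IsCocycle K a) {i : ℕ} {z : Finset V → ZMod 2} (hz : IsCycle K (i + 1) z)
    {A W : Finset V} (hA : ∀ σ, z σ ≠ 0 → σ ⊆ A) (hW : EvenSet a W) :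
    ∃ (y : Finset V → ZMod 2) (c : Finset (V × ZMod 2) → ZMod 2), IsCycle K i y ∧
      (∀ τ, y τ ≠ 0 → τ ⊆ A \ W) ∧ IsChain (cover K a) (i + 1) c ∧ (∀ τ, push c τ = z τ) ∧
      ∀ σ, bd c σ = tr K a y σ := by
  classical
  obtain ⟨g, hg⟩ := even_potential ha hW
  choose L hL using exists_lift hK ha hg
  set c : Finset (V × ZMod 2) → ZMod 2 := fun ρ =>
    if ρ ∈ cover K a ∧ ρ = L (ρ.image Prod.fst) then z (ρ.image Prod.fst) else 0 with hc
  have hcne : ∀ ρ, c ρ ≠ 0 → ρ ∈ cover K a ∧ ρ = L (ρ.image Prod.fst) ∧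
      z (ρ.image Prod.fst) ≠ 0 := by
    intro ρ h
    rw [hc] at h
    beta_reduce at h
    by_cases h1 : ρ ∈ cover K a ∧ ρ = L (ρ.image Prod.fst)
    · rw [if_pos h1] at h
      exact ⟨h1.1, h1.2, h⟩
    · rw [if_neg h1] at h
      exact absurd rfl h
  have hchain : IsChain (cover K a) (i + 1) c := by
    intro ρ h
    obtain ⟨h1, _, h3⟩ := hcne ρ h
    refine ⟨h1, ?_⟩
    rw [← card_image_fst (cover_inj h1)]
    exact (hz.1 _ h3).2
  have hpush : ∀ τ, push c τ = z τ := by
    intro τ
    by_cases hτ : τ ∈ K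
    · obtain ⟨h1, h2, _⟩ := hL τ hτ
      unfold push
      rw [Finset.sum_eq_single (L τ)]
      · rw [hc]
        beta_reduce
        rw [h2, if_pos ⟨h1, rfl⟩]
      · intro ρ hρ hne
        rw [mem_filter] at hρ
        by_contra h
        obtain ⟨_, h4, _⟩ := hcne ρ h
        rw [hρ.2] at h4
        exact hne h4
      · intro h
        exact (h (mem_filter.2 ⟨mem_univ _, h2⟩)).elim
    · have h0 : z τ = 0 := by
        by_contra h
        exact hτ (hz.1 _ h).1
      rw [h0]
      unfold push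
      apply Finset.sum_eq_zero
      intro ρ hρ
      rw [mem_filter] at hρ
      by_contra h
      apply hτ
      rw [← hρ.2]
      exact cover_image_mem (hcne ρ h).1
  have hbdne : ∀ ρ, bd c ρ ≠ 0 → ∃ x, x ∉ ρ ∧ c (insert x ρ) ≠ 0 := by
    intro ρ h
    unfold bd at h
    obtain ⟨x, hx, hne⟩ := Finset.exists_ne_zero_of_sum_ne_zero h
    rw [mem_filter] at hx
    exact ⟨x, hx.2, hne⟩
  have hbdcard : ∀ ρ, bd c ρ ≠ 0 → ρ.card = i + 1 := by
    intro ρ h
    obtain ⟨x, hx, hne⟩ := hbdne ρ h
    have := (hchain _ hne).2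
    rw [Finset.card_insert_of_notMem hx] at this
    omega
  have hbdcov : ∀ ρ, bd c ρ ≠ 0 → ρ ∈ cover K a := by
    intro ρ h
    obtain ⟨x, hx, hne⟩ := hbdne ρ h
    have h1 := hbdcard ρ h
    exact cover_down hK (hchain _ hne).1 (subset_insert _ _) (Finset.card_pos.1 (by omega))
  have hpb : ∀ τ, push (bd c) τ = 0 := by
    intro τ
    rw [← push_bd (injSupp_of_isChain hchain), bd_congr hpush]
    exact hz.2 (by omega) τ
  have hsame : ∀ ρ ∈ cover K a, bd c ρ = bd c (L (ρ.image Prod.fst)) := by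
    intro ρ hρ
    have hτ := cover_image_mem hρ
    obtain ⟨h1, h2, _⟩ := hL _ hτ
    obtain ⟨p, hp⟩ := hK.nonempty _ hτ
    have h3 := push_two hK ha hbdcov hτ hp
    rw [hpb] at h3
    have heq : bd c (lift (pot a p 0) (ρ.image Prod.fst)) =
        bd c (lift (pot a p 1) (ρ.image Prod.fst)) := by
      generalize bd c (lift (pot a p 0) (ρ.image Prod.fst)) = s at h3 ⊢
      generalize bd c (lift (pot a p 1) (ρ.image Prod.fst)) = t at h3 ⊢
      revert s t; decide
    have key : ∀ ρ' ∈ cover K a, ρ'.image Prod.fst = ρ.image Prod.fst →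
        bd c ρ' = bd c (lift (pot a p 0) (ρ.image Prod.fst)) := by
      intro ρ' hρ' him
      have hp' : p ∈ ρ'.image Prod.fst := by rw [him]; exact hp
      rw [mem_image] at hp'
      obtain ⟨x, hx, hxp⟩ := hp'
      have h4 : (p, x.2) ∈ ρ' := by rw [← hxp]; exact hx
      have h5 := cover_eq_lift hρ' h4
      rw [him] at h5
      rcases (show x.2 = 0 ∨ x.2 = 1 by generalize x.2 = t; revert t; decide) with h | h
      · rw [h5, h]
      · rw [h5, h, heq]
    rw [key ρ hρ rfl, key _ h1 h2]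
  set y : Finset V → ZMod 2 := fun τ => if τ ∈ K then bd c (L τ) else 0 with hy
  have hyne : ∀ τ, y τ ≠ 0 → τ ∈ K ∧ bd c (L τ) ≠ 0 := by
    intro τ h
    rw [hy] at h
    beta_reduce at h
    by_cases h1 : τ ∈ K
    · rw [if_pos h1] at h
      exact ⟨h1, h⟩
    · rw [if_neg h1] at h
      exact absurd rfl h
  have hbdtr : ∀ σ, bd c σ = tr K a y σ := by
    intro σ
    unfold tr
    by_cases h : σ ∈ cover K a
    · rw [if_pos h, hy]
      beta_reduce
      rw [if_pos (cover_image_mem h)]
      exact hsame σ h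
    · rw [if_neg h]
      by_contra hne
      exact h (hbdcov σ hne)
  have hychain : IsChain K i y := by
    intro τ h
    obtain ⟨h1, h2⟩ := hyne τ h
    refine ⟨h1, ?_⟩
    obtain ⟨h3, h4, _⟩ := hL τ h1
    rw [← h4, card_image_fst (cover_inj h3)]
    exact hbdcard _ h2
  refine ⟨y, c, ⟨hychain, ?_⟩, ?_, hchain, hpush, hbdtr⟩
  · intro hi τ
    obtain ⟨j, rfl⟩ : ∃ j, i = j + 1 := ⟨i - 1, by omega⟩
    by_cases hτ : τ ∈ K
    · obtain ⟨h1, h2, _⟩ := hL τ hτ
      have h3 := bd_tr hK ha hychain (L τ)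
      have h4 : tr K a (bd y) (L τ) = bd y τ := by
        unfold tr
        rw [if_pos h1, h2]
      rw [← h4, ← h3, bd_congr (fun σ => (hbdtr σ).symm)]
      exact bd_bd c _
    · by_contra h
      unfold bd at h
      obtain ⟨v, hv, hne⟩ := Finset.exists_ne_zero_of_sum_ne_zero h
      rw [mem_filter] at hv
      obtain ⟨h1, h2⟩ := hychain _ hne
      rw [Finset.card_insert_of_notMem hv.2] at h2
      exact hτ (hK.down _ h1 _ (subset_insert _ _) (Finset.card_pos.1 (by omega)))
  · intro τ h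
    obtain ⟨h1, h2⟩ := hyne τ h
    obtain ⟨h3, h4, _⟩ := hL τ h1
    intro v hv
    rw [mem_sdiff]
    constructor
    · obtain ⟨x, hx, hne⟩ := hbdne _ h2
      obtain ⟨_, _, h7⟩ := hcne _ hne
      apply hA _ h7
      rw [image_insert, h4]
      exact mem_insert_of_mem hv
    · intro hvW
      have hρ := lift_pot_mem hK ha h1 hv (g v + 1)
      have h5 : bd c (lift (pot a v (g v + 1)) τ) ≠ 0 := by
        rw [hbdtr]
        unfold tr
        rw [if_pos hρ, lift_fst]
        exact h
      obtain ⟨x, hx, hne⟩ := hbdne _ h5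
      obtain ⟨h6, h7, _⟩ := hcne _ hne
      have hvi : v ∈ (insert x (lift (pot a v (g v + 1)) τ)).image Prod.fst := by
        rw [image_insert, lift_fst]
        exact mem_insert_of_mem hv
      have h8 := (hL _ (cover_image_mem h6)).2.2 v hvi hvW
      rw [← h7] at h8
      have h9 : (v, g v + 1) ∈ insert x (lift (pot a v (g v + 1)) τ) := by
        apply mem_insert_of_mem
        rw [mem_lift]
        exact ⟨hv, by rw [pot_self]⟩
      have h10 := cover_inj h6 _ h8 _ h9 rfl
      have h11 := congrArg Prod.snd h10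
      simp at h11

lemma exists_ne_of_not_bounds {K : Finset (Finset V)} {i : ℕ} {z : Finset V → ZMod 2}
    (h : ¬ Bounds K i z) : ∃ τ, z τ ≠ 0 := by
  by_contra hcon
  push Not at hcon
  apply h
  refine ⟨fun _ => 0, fun σ hσ => absurd rfl hσ, fun τ => ?_⟩
  rw [hcon τ]
  exact bd_zero (fun _ => rfl) τ

lemma face_even {K : Finset (Finset V)} (hK : IsComplex K) {a : V → V → ZMod 2}
    (ha : IsCocycle K a) {τ : Finset V} (hτ : τ ∈ K) : EvenSet a τ := by
  intro x hx y hy z hz hxy hyz hxz
  have h3 : ({x, y, z} : Finset V) ∈ K := by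
    apply hK.down τ hτ
    · intro t ht
      simp only [mem_insert, mem_singleton] at ht
      rcases ht with rfl | rfl | rfl <;> assumption
    · exact ⟨x, by simp⟩
  exact ha.triangle x y z hxy hyz hxz h3

/-- The sum of the faces with five vertices. -/
def fund (K : Finset (Finset V)) (σ : Finset V) : ZMod 2 := if σ ∈ K ∧ σ.card = 5 then 1 else 0

lemma fund_isCycle {K : Finset (Finset V)} (hK : IsProjective4 K) : IsCycle K 4 (fund K) := by
  refine ⟨?_, fun _ τ => ?_⟩
  · intro σ hσ
    by_contra h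
    unfold fund at hσ
    rw [if_neg h] at hσ
    exact hσ rfl
  · by_cases hτ : τ ∈ K ∧ τ.card = 4
    · have h1 : bd (fund K) τ =
          ((univ.filter (fun v => v ∉ τ ∧ insert v τ ∈ K)).card : ZMod 2) := by
        unfold bd
        rw [Finset.card_filter, Nat.cast_sum, Finset.sum_filter]
        apply Finset.sum_congr rfl
        intro v _
        unfold fund
        by_cases hv : v ∉ τ
        · rw [if_pos hv]
          by_cases h : insert v τ ∈ K
          · rw [if_pos ⟨h, by rw [Finset.card_insert_of_notMem hv, hτ.2]⟩, if_pos ⟨hv, h⟩]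
            simp
          · rw [if_neg (fun h' => h h'.1), if_neg (fun h' => h h'.2)]
            simp
        · rw [if_neg hv, if_neg (fun h' => hv h'.1)]
          simp
      have h2 : (univ.filter (fun v => v ∉ τ ∧ insert v τ ∈ K)).card =
          (K.filter (fun σ => τ ⊆ σ ∧ σ.card = 5)).card := by
        apply Finset.card_bij (fun v _ => insert v τ)
        · intro v hv
          rw [mem_filter] at hv
          rw [mem_filter]
          exact ⟨hv.2.2, subset_insert _ _, by rw [Finset.card_insert_of_notMem hv.2.1, hτ.2]⟩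
        · intro v hv w hw h
          rw [mem_filter] at hv hw
          have : v ∈ insert w τ := by rw [← h]; exact mem_insert_self _ _
          rw [mem_insert] at this
          rcases this with h' | h'
          · exact h'
          · exact absurd h' hv.2.1
        · intro σ hσ
          rw [mem_filter] at hσ
          obtain ⟨v, hv, hvτ⟩ : ∃ v ∈ σ, v ∉ τ := by
            by_contra hcon
            push Not at hcon
            have := Finset.card_le_card (show σ ⊆ τ from hcon)
            omega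
          have hins : insert v τ = σ := by
            apply Finset.eq_of_subset_of_card_le
            · intro x hx
              rw [mem_insert] at hx
              rcases hx with rfl | hx
              · exact hv
              · exact hσ.2.1 hx
            · rw [Finset.card_insert_of_notMem hvτ]; omega
          refine ⟨v, ?_, hins⟩
          rw [mem_filter]
          exact ⟨mem_univ _, hvτ, by rw [hins]; exact hσ.1⟩
      rw [h1, h2, hK.closed τ hτ.1 hτ.2]
      decide
    · unfold bd
      apply Finset.sum_eq_zero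
      intro v hv
      rw [mem_filter] at hv
      unfold fund
      rw [if_neg]
      rintro ⟨h1, h2⟩
      rw [Finset.card_insert_of_notMem hv.2] at h2
      exact hτ ⟨hK.complex.down _ h1 _ (subset_insert _ _) (Finset.card_pos.1 (by omega)),
        by omega⟩

/-- The inequality of Arnoux and Marin for an even set. -/
theorem even_card {K : Finset (Finset V)} (hK : IsProjective4 K) {a : V → V → ZMod 2}
    (ha : IsCocycle K a) (hsph : IsHomologySphere (cover K a)) (hne : ∃ σ ∈ K, σ.card = 5)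
    {W : Finset V} (hW : EvenSet a W) : W.card + 10 ≤ Fintype.card V := by
  have hC := hK.complex
  obtain ⟨z3, c4, hz3, hs3, hc4, hp4, hb4⟩ := descend hC ha (fund_isCycle hK)
    (A := univ) (fun σ _ => subset_univ σ) hW
  have nb3 : ¬ Bounds K 3 z3 := by
    intro h
    have h1 := zero_of_bounds hC ha hsph hc4 hp4 hb4 h
    obtain ⟨σ, hσ, h5⟩ := hne
    have h2 := h1 σ
    unfold fund at h2
    rw [if_pos ⟨hσ, h5⟩] at h2
    exact one_ne_zero h2
  obtain ⟨τ3, hτ3⟩ := exists_ne_of_not_bounds nb3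
  obtain ⟨m3, k3⟩ := hz3.1 τ3 hτ3
  obtain ⟨z2, c3, hz2, hs2, hc3, hp3, hb3⟩ := descend hC ha hz3 hs3 (face_even hC ha m3)
  have nb2 : ¬ Bounds K 2 z2 := fun h => nb3 (bounds_up hC ha hsph (by norm_num) hc3 hp3 hb3 h)
  obtain ⟨τ2, hτ2⟩ := exists_ne_of_not_bounds nb2
  obtain ⟨m2, k2⟩ := hz2.1 τ2 hτ2
  obtain ⟨z1, c2, hz1, hs1, hc2, hp2, hb2⟩ := descend hC ha hz2 hs2 (face_even hC ha m2)
  have nb1 : ¬ Bounds K 1 z1 := fun h => nb2 (bounds_up hC ha hsph (by norm_num) hc2 hp2 hb2 h)
  obtain ⟨τ1, hτ1⟩ := exists_ne_of_not_bounds nb1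
  obtain ⟨m1, k1⟩ := hz1.1 τ1 hτ1
  obtain ⟨z0, c1, hz0, hs0, hc1, hp1, hb1⟩ := descend hC ha hz1 hs1 (face_even hC ha m1)
  have nb0 : ¬ Bounds K 0 z0 := fun h => nb1 (bounds_up hC ha hsph (by norm_num) hc1 hp1 hb1 h)
  obtain ⟨τ0, hτ0⟩ := exists_ne_of_not_bounds nb0
  obtain ⟨m0, k0⟩ := hz0.1 τ0 hτ0
  have e3 := Finset.card_sdiff_add_card_eq_card (s := W) (t := univ) (subset_univ _)
  have e2 := Finset.card_sdiff_add_card_eq_card (hs3 τ3 hτ3)
  have e1 := Finset.card_sdiff_add_card_eq_card (hs2 τ2 hτ2)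
  have e0 := Finset.card_sdiff_add_card_eq_card (hs1 τ1 hτ1)
  have e := Finset.card_le_card (hs0 τ0 hτ0)
  rw [Finset.card_univ] at e3
  omega

end Pool.Agent.Helper11.RP4
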