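import Mathlib
import Pool.Agent.Helper11.RP4.Defs2
import Pool.Agent.Helper11.RP4.Descend
import Pool.Agent.Helper11.RP4.Four

set_option autoImplicit false
set_option linter.unusedSectionVars false

open Finset

namespace Pool.Agent.Helper11.RP4

variable {V : Type} [Fintype V] [DecidableEq V]

lemma mem_facesOver {K : Finset (Finset V)} {σ τ : Finset V} {k : ℕ} :
    τ ∈ facesOver K σ k ↔ τ ∈ K ∧ σ ⊆ τ ∧ τ.card = k := by
  unfold facesOver
  rw [mem_filter]

/-- Double counting of the pairs of faces. -/
lemma double_count {K : Finset (Finset V)} (hK : IsComplex K) {j : ℕ} (hj : 0 < j) (k : ℕ) :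
    ∑ e ∈ facesOver K ∅ j, (facesOver K e k).card = k.choose j * (facesOver K ∅ k).card := by
  classical
  have h1 : ∀ e ∈ facesOver K ∅ j, (facesOver K e k).card =
      ∑ τ ∈ facesOver K ∅ k, if e ⊆ τ then 1 else 0 := by
    intro e _
    rw [← Finset.card_filter]
    congr 1
    ext τ
    rw [mem_facesOver, mem_filter, mem_facesOver]
    constructor
    · rintro ⟨h1, h2, h3⟩; exact ⟨⟨h1, empty_subset _, h3⟩, h2⟩
    · rintro ⟨⟨h1, _, h3⟩, h2⟩; exact ⟨h1, h2, h3⟩
  rw [Finset.sum_congr rfl h1, Finset.sum_comm]
  have h2 : ∀ τ ∈ facesOver K ∅ k, (∑ e ∈ facesOver K ∅ j, if e ⊆ τ then 1 else 0) =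
      k.choose j := by
    intro τ hτ
    rw [mem_facesOver] at hτ
    rw [← Finset.card_filter]
    have h3 : (facesOver K ∅ j).filter (fun e => e ⊆ τ) = powersetCard j τ := by
      ext e
      rw [mem_filter, mem_facesOver, mem_powersetCard]
      constructor
      · rintro ⟨⟨_, _, h⟩, h'⟩; exact ⟨h', h⟩
      · rintro ⟨h', h⟩
        exact ⟨⟨hK.down _ hτ.1 _ h' (Finset.card_pos.1 (by omega)), empty_subset _, h⟩, h'⟩
    rw [h3, card_powersetCard, hτ.2.2]
  rw [Finset.sum_congr rfl h2, Finset.sum_const, smul_eq_mul, mul_comm]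

/-- The number of faces of each dimension in terms of the numbers of vertices and edges. -/
lemma face_numbers {K : Finset (Finset V)} (hK : IsProjectiveManifold4 K) :
    ((facesOver K ∅ 3).card : ℤ) =
      10 + 4 * (facesOver K ∅ 2).card - 10 * (facesOver K ∅ 1).card ∧
    ((facesOver K ∅ 4).card : ℤ) =
      15 + 5 * (facesOver K ∅ 2).card - 15 * (facesOver K ∅ 1).card ∧
    ((facesOver K ∅ 5).card : ℤ) =
      6 + 2 * (facesOver K ∅ 2).card - 6 * (facesOver K ∅ 1).card := by
  have hC := hK.projective.complex
  have h1 : 2 * (facesOver K ∅ 4).card = 5 * (facesOver K ∅ 5).card := by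
    have h := double_count hC (j := 4) (by norm_num) 5
    have h2 : ∀ e ∈ facesOver K ∅ 4, (facesOver K e 5).card = 2 := by
      intro e he
      rw [mem_facesOver] at he
      exact hK.projective.closed e he.1 he.2.2
    rw [Finset.sum_congr rfl h2, Finset.sum_const, smul_eq_mul] at h
    have h3 : Nat.choose 5 4 = 5 := by decide
    rw [h3] at h
    omega
  have h2 : 3 * (facesOver K ∅ 3).card + 10 * (facesOver K ∅ 5).card =
      6 * (facesOver K ∅ 4).card + 2 * (facesOver K ∅ 2).card := by
    have e3 := double_count hC (j := 2) (by norm_num) 3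
    have e4 := double_count hC (j := 2) (by norm_num) 4
    have e5 := double_count hC (j := 2) (by norm_num) 5
    have c3 : Nat.choose 3 2 = 3 := by decide
    have c4 : Nat.choose 4 2 = 6 := by decide
    have c5 : Nat.choose 5 2 = 10 := by decide
    rw [c3] at e3
    rw [c4] at e4
    rw [c5] at e5
    rw [← e3, ← e4, ← e5, ← Finset.sum_add_distrib]
    have h3 : ∀ e ∈ facesOver K ∅ 2, (facesOver K e 3).card + (facesOver K e 5).card =
        (facesOver K e 4).card + 2 := by
      intro e he
      rw [mem_facesOver] at he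
      exact hK.edge_link e he.1 he.2.2
    rw [Finset.sum_congr rfl h3, Finset.sum_add_distrib, Finset.sum_const, smul_eq_mul]
    omega
  have h3 := hK.euler
  omega

/-- The triples and quadruples: every 4-set has an even number of odd triples. -/
lemma par_four {a : V → V → ZMod 2} {x y z w : V} :
    par a x y z + par a x y w + par a x z w + par a y z w = 0 := by
  unfold par
  have h1 := z2_add_self (a x y)
  have h2 := z2_add_self (a y z)
  have h3 := z2_add_self (a x z)
  have h4 := z2_add_self (a y w)
  have h5 := z2_add_self (a x w)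
  have h6 := z2_add_self (a z w)
  linear_combination h1 + h2 + h3 + h4 + h5 + h6

/-- The hypotheses on the small subsets, in combinatorial form. -/
structure Small (K : Finset (Finset V)) (a : V → V → ZMod 2) : Prop where
  pair : ∀ x y, x ≠ y → ({x, y} : Finset V) ∈ K
  triple : ∀ x y z, x ≠ y → y ≠ z → x ≠ z → par a x y z = 0 → ({x, y, z} : Finset V) ∈ K

lemma small_of_injective {K : Finset (Finset V)} {a : V → V → ZMod 2} (hK : IsComplex K)
    (ha : IsCocycle K a) (hsph : IsHomologySphere (cover K a))
    (h : ∀ S : Finset V, 2 ≤ S.card → S.card ≤ 3 → HomologyInjective K S) : Small K a := by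
  have hpair : ∀ x y, x ≠ y → ({x, y} : Finset V) ∈ K := by
    intro x y hxy
    have hc : ({x, y} : Finset V).card = 0 + 2 := Finset.card_pair hxy
    refine even_face ha hsph ?_ hc (by norm_num) ?_ (h _ (by omega) (by omega))
    · intro u hu v hv t ht huv hvt hut
      simp only [mem_insert, mem_singleton] at hu hv ht
      exfalso
      rcases hu with rfl | rfl <;> rcases hv with rfl | rfl <;> rcases ht with rfl | rfl <;>
        first
        | exact huv rfl
        | exact hvt rfl
        | exact hut rfl
    · intro v hv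
      have h1 : (({x, y} : Finset V).erase v).card = 1 := by
        rw [Finset.card_erase_of_mem hv, hc]
      obtain ⟨u, hu⟩ := Finset.card_eq_one.1 h1
      rw [hu]
      exact hK.vertex u
  refine ⟨hpair, ?_⟩
  intro x y z hxy hyz hxz hpar
  have hc : ({x, y, z} : Finset V).card = 1 + 2 := by
    rw [Finset.card_eq_three.2 ⟨x, y, z, hxy, hxz, hyz, rfl⟩]
  refine even_face ha hsph ?_ hc (by norm_num) ?_ (h _ (by omega) (by omega))
  · have p1 := par_12 ha x y z
    have p2 := par_23 ha x y z
    have p3 := par_12 ha x z y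
    have p4 := par_23 ha y x z
    have p5 := par_12 ha y z x
    rw [hpar] at p1 p2
    rw [p2] at p3
    rw [p1] at p4
    rw [p4] at p5
    intro u hu v hv t ht huv hvt hut
    simp only [mem_insert, mem_singleton] at hu hv ht
    rcases hu with rfl | rfl | rfl <;> rcases hv with rfl | rfl | rfl <;>
      rcases ht with rfl | rfl | rfl <;>
      first
      | exact absurd rfl huv
      | exact absurd rfl hvt
      | exact absurd rfl hut
      | assumption
  · intro v hv
    have h1 : (({x, y, z} : Finset V).erase v).card = 2 := by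
      rw [Finset.card_erase_of_mem hv, hc]
    obtain ⟨u, w, huw, he⟩ := Finset.card_eq_two.1 h1
    rw [he]
    exact hpair u w huw

/-- In a homologically injective 4-set at least two triples are faces. -/
lemma two_triples {K : Finset (Finset V)} {a : V → V → ZMod 2} (ha : IsCocycle K a)
    (hsph : IsHomologySphere (cover K a)) (hs : Small K a) {S : Finset V} (hS : S.card = 4)
    (hinj : HomologyInjective K S) : 2 ≤ (S.filter (fun v => S.erase v ∈ K)).card := by
  obtain ⟨x, y, z, w, hxy, hxz, hxw, hyz, hyw, hzw, rfl⟩ := Finset.card_eq_four.1 hS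
  have ex : ({x, y, z, w} : Finset V).erase x = {y, z, w} := by
    rw [Finset.erase_insert]; simp [hxy, hxz, hxw]
  have ey : ({x, y, z, w} : Finset V).erase y = {x, z, w} := by
    rw [Finset.insert_comm, Finset.erase_insert]; simp [hxy.symm, hyz, hyw]
  have ez : ({x, y, z, w} : Finset V).erase z = {x, y, w} := by
    rw [Finset.insert_comm y z, Finset.insert_comm x z, Finset.erase_insert]
    simp [hxz.symm, hyz.symm, hzw]
  have ew : ({x, y, z, w} : Finset V).erase w = {x, y, z} := by
    rw [Finset.pair_comm z w, Finset.insert_comm y w, Finset.insert_comm x w,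
      Finset.erase_insert]
    simp [hxw.symm, hyw.symm, hzw.symm]
  have hsum := par_four (a := a) (x := x) (y := y) (z := z) (w := w)
  have hnot : ¬ (par a x y z = 1 ∧ par a x y w = 1 ∧ par a x z w = 1 ∧ par a y z w = 1) := by
    rintro ⟨h1, h2, h3, h4⟩
    apply four_odd ha hsph hxy hxz hxw hyz hyw hzw _ (hs.pair x y hxy) (hs.pair y z hyz)
      (hs.pair z w hzw) (hs.pair x w hxw) hinj
    have perm : ∀ u v t : V, par a u v t = 1 → par a v u t = 1 ∧ par a u t v = 1 ∧
        par a t u v = 1 ∧ par a v t u = 1 ∧ par a t v u = 1 := by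
      intro u v t h
      have q1 := par_12 ha u v t
      have q2 := par_23 ha u v t
      have q3 := par_12 ha u t v
      have q4 := par_23 ha v u t
      have q5 := par_12 ha v t u
      rw [h] at q1 q2
      rw [q2] at q3
      rw [q1] at q4
      rw [q4] at q5
      exact ⟨q1, q2, q3, q4, q5⟩
    obtain ⟨a1, a2, a3, a4, a5⟩ := perm _ _ _ h1
    obtain ⟨b1, b2, b3, b4, b5⟩ := perm _ _ _ h2
    obtain ⟨c1, c2, c3, c4, c5⟩ := perm _ _ _ h3
    obtain ⟨d1, d2, d3, d4, d5⟩ := perm _ _ _ h4
    intro u hu v hv t ht huv hvt hut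
    simp only [mem_insert, mem_singleton] at hu hv ht
    rcases hu with rfl | rfl | rfl | rfl <;> rcases hv with rfl | rfl | rfl | rfl <;>
      first
      | exact absurd rfl huv
      | (rcases ht with rfl | rfl | rfl | rfl <;>
        first
        | exact absurd rfl hvt
        | exact absurd rfl hut
        | assumption)
  have fx : par a y z w = 0 → x ∈ ({x, y, z, w} : Finset V).filter
      (fun v => ({x, y, z, w} : Finset V).erase v ∈ K) := by
    intro h
    rw [mem_filter, ex]
    exact ⟨by simp, hs.triple y z w hyz hzw hyw h⟩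
  have fy : par a x z w = 0 → y ∈ ({x, y, z, w} : Finset V).filter
      (fun v => ({x, y, z, w} : Finset V).erase v ∈ K) := by
    intro h
    rw [mem_filter, ey]
    exact ⟨by simp, hs.triple x z w hxz hzw hxw h⟩
  have fz : par a x y w = 0 → z ∈ ({x, y, z, w} : Finset V).filter
      (fun v => ({x, y, z, w} : Finset V).erase v ∈ K) := by
    intro h
    rw [mem_filter, ez]
    exact ⟨by simp, hs.triple x y w hxy hyw hxw h⟩
  have fw : par a x y z = 0 → w ∈ ({x, y, z, w} : Finset V).filter
      (fun v => ({x, y, z, w} : Finset V).erase v ∈ K) := by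
    intro h
    rw [mem_filter, ew]
    exact ⟨by simp, hs.triple x y z hxy hyz hxz h⟩
  have two : ∀ {p q : V}, p ≠ q → p ∈ ({x, y, z, w} : Finset V).filter
      (fun v => ({x, y, z, w} : Finset V).erase v ∈ K) →
      q ∈ ({x, y, z, w} : Finset V).filter
      (fun v => ({x, y, z, w} : Finset V).erase v ∈ K) →
      2 ≤ (({x, y, z, w} : Finset V).filter
      (fun v => ({x, y, z, w} : Finset V).erase v ∈ K)).card := by
    intro p q hpq hp hq
    have h1 : ({p, q} : Finset V) ⊆ ({x, y, z, w} : Finset V).filter
      (fun v => ({x, y, z, w} : Finset V).erase v ∈ K) := by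
      intro t ht
      rw [mem_insert, mem_singleton] at ht
      rcases ht with rfl | rfl
      · exact hp
      · exact hq
    have h2 := Finset.card_le_card h1
    rw [Finset.card_pair hpq] at h2
    exact h2
  have hz2 : ∀ s : ZMod 2, s = 0 ∨ s = 1 := by decide
  rcases hz2 (par a x y z) with h1 | h1 <;> rcases hz2 (par a x y w) with h2 | h2 <;>
    rcases hz2 (par a x z w) with h3 | h3 <;> rcases hz2 (par a y z w) with h4 | h4 <;>
    first
    | exact two hzw (fz h2) (fw h1)
    | exact two hyw (fy h3) (fw h1)
    | exact two hxw (fx h4) (fw h1)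
    | exact two hyz (fy h3) (fz h2)
    | exact two hxz (fx h4) (fz h2)
    | exact two hxy (fx h4) (fy h3)
    | (rw [h1, h2, h3, h4] at hsum; exact absurd hsum (by decide))
    | (exfalso; exact hnot ⟨h1, h2, h3, h4⟩)

/-- Double counting of the triples in 4-sets. -/
lemma count_triples (K : Finset (Finset V)) :
    ∑ S ∈ powersetCard 4 (univ : Finset V), (S.filter (fun v => S.erase v ∈ K)).card =
      (facesOver K ∅ 3).card * (Fintype.card V - 3) := by
  classical
  have h1 : (facesOver K ∅ 3).card * (Fintype.card V - 3) =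
      ∑ T ∈ facesOver K ∅ 3, (univ \ T).card := by
    have : ∀ T ∈ facesOver K ∅ 3, (univ \ T).card = Fintype.card V - 3 := by
      intro T hT
      rw [mem_facesOver] at hT
      rw [Finset.card_sdiff_of_subset (subset_univ _), Finset.card_univ, hT.2.2]
    rw [Finset.sum_congr rfl this, Finset.sum_const, smul_eq_mul]
  rw [h1, ← Finset.card_sigma, ← Finset.card_sigma]
  apply Finset.card_bij (fun (q : Σ _ : Finset V, V) _ =>
    (⟨q.1.erase q.2, q.2⟩ : Σ _ : Finset V, V))
  · rintro ⟨S, v⟩ h
    simp only [mem_sigma, mem_powersetCard, mem_filter, mem_sdiff, mem_univ, true_and,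
      mem_facesOver, mem_erase] at h ⊢
    refine ⟨⟨h.2.2, empty_subset _, ?_⟩, fun h' => h'.1 rfl⟩
    rw [Finset.card_erase_of_mem h.2.1, h.1.2]
  · rintro ⟨S, v⟩ h ⟨S', v'⟩ h' heq
    simp only [mem_sigma, mem_powersetCard, mem_filter] at h h'
    simp only [Sigma.mk.injEq] at heq
    obtain ⟨h1, h2⟩ := heq
    have h2 := eq_of_heq h2
    subst h2
    have : S = S' := by
      rw [← Finset.insert_erase h.2.1, h1, Finset.insert_erase h'.2.1]
    subst this
    rfl
  · rintro ⟨T, v⟩ h
    simp only [mem_sigma, mem_facesOver, mem_sdiff, mem_univ, true_and] at h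
    refine ⟨⟨insert v T, v⟩, ?_, ?_⟩
    · simp only [mem_sigma, mem_powersetCard, mem_filter]
      refine ⟨⟨subset_univ _, ?_⟩, mem_insert_self _ _, ?_⟩
      · rw [Finset.card_insert_of_notMem h.2, h.1.2.2]
      · rw [Finset.erase_insert h.2]; exact h.1.1
    · simp only [Sigma.mk.injEq]
      refine ⟨Finset.erase_insert h.2, ?_⟩
      rfl

end Pool.Agent.Helper11.RP4
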