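import Mathlib
import Pool.Agent.Helper11.RP4.Classes

set_option autoImplicit false
set_option linter.unusedSectionVars false

open Finset

namespace Pool.Agent.Helper11.RP4

variable {V : Type} [Fintype V] [DecidableEq V]
variable {K : Finset (Finset V)} {a : V → V → ZMod 2} {F : Finset V} {v : V}

lemma Good.mono {F' : Finset V} (hF : Good a F) (h : F' ⊆ F) : Good a F' where
  four := fun x hx y hy z hz w hw => hF.four x (h hx) y (h hy) z (h hz) w (h hw)
  six := fun S hS => hF.six S (hS.trans h)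

lemma indep_card (ha : IsCocycle K a) (hF : Good a F) (hv : v ∈ F) {I : Finset V}
    (hI : I ⊆ F.erase v) (hind : ∀ x ∈ I, ∀ y ∈ I, x ≠ y → ¬ nb a v x y) : I.card ≤ 4 := by
  have hvI : v ∉ I := fun h => by
    have := hI h
    simp at this
  have hpar : ∀ x ∈ I, ∀ y ∈ I, x ≠ y → par a v x y = 0 := fun x hx y hy hxy =>
    par_eq_zero_of_not_nb hxy (hind x hx y hy hxy)
  have hev : EvenSet a (insert v I) := by
    intro x hx y hy z hz hxy hyz hxz
    rw [mem_insert] at hx hy hz
    rcases hx with rfl | hx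
    · rcases hy with rfl | hy
      · exact absurd rfl hxy
      · rcases hz with rfl | hz
        · exact absurd rfl hxz
        · exact hpar y hy z hz hyz
    · rcases hy with rfl | hy
      · rcases hz with rfl | hz
        · exact absurd rfl hyz
        · rw [par_12 ha]; exact hpar x hx z hz hxz
      · rcases hz with rfl | hz
        · rw [← par_23 ha, ← par_12 ha]; exact hpar x hx y hy hxy
        · rw [par_base ha v, hpar x hx y hy hxy, hpar y hy z hz hyz, hpar x hx z hz hxz]
          decide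
  have hsub : insert v I ⊆ F := by
    intro x hx
    rw [mem_insert] at hx
    rcases hx with rfl | hx
    · exact hv
    · exact mem_of_mem_erase (hI hx)
  have := hF.six _ hsub hev
  rw [Finset.card_insert_of_notMem hvI] at this
  omega

/-- Number of points in a class. -/
def cnt (F : Finset V) (cl : V → Fin 6) (k : Fin 6) : ℕ := (F.filter (fun x => cl x = k)).card

lemma card_eq_cnt (F : Finset V) (cl : V → Fin 6) :
    F.card = cnt F cl 0 + cnt F cl 1 + cnt F cl 2 + cnt F cl 3 + cnt F cl 4 + cnt F cl 5 := by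
  have h := Finset.card_eq_sum_card_fiberwise (f := cl) (s := F) (t := univ)
    (fun x _ => by simp)
  rw [h, Fin.sum_univ_six]
  rfl

lemma nonblock_le (hF : Good a F) {cl : V → Fin 6}
    (hcl : ∀ x ∈ F, ∀ y ∈ F, ∀ z ∈ F, x ≠ y → y ≠ z → x ≠ z →
      par a x y z = T3 (cl x) (cl y) (cl z)) (i j k : Fin 6) (hij : i ≠ j) (hik : i ≠ k)
    (hjk : j ≠ k)
    (hT : ∀ p ∈ ({i, j, k} : Finset (Fin 6)), ∀ q ∈ ({i, j, k} : Finset (Fin 6)),
      ∀ r ∈ ({i, j, k} : Finset (Fin 6)), T3 p q r = 0) :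
    cnt F cl i + cnt F cl j + cnt F cl k ≤ 5 := by
  have hev : EvenSet a (F.filter (fun x => cl x ∈ ({i, j, k} : Finset (Fin 6)))) := by
    intro x hx y hy z hz hxy hyz hxz
    rw [mem_filter] at hx hy hz
    rw [hcl x hx.1 y hy.1 z hz.1 hxy hyz hxz]
    exact hT _ hx.2 _ hy.2 _ hz.2
  have h5 := hF.six _ (Finset.filter_subset _ _) hev
  have hcard : (F.filter (fun x => cl x ∈ ({i, j, k} : Finset (Fin 6)))).card =
      cnt F cl i + cnt F cl j + cnt F cl k := by
    unfold cnt
    rw [← Finset.card_union_of_disjoint, ← Finset.card_union_of_disjoint]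
    · congr 1
      ext x
      simp only [mem_filter, mem_insert, mem_singleton, mem_union]
      tauto
    · rw [Finset.disjoint_union_left]
      constructor
      · rw [Finset.disjoint_filter]
        intro x _ h1 h2
        exact hik (h1.symm.trans h2)
      · rw [Finset.disjoint_filter]
        intro x _ h1 h2
        exact hjk (h1.symm.trans h2)
    · rw [Finset.disjoint_filter]
      intro x _ h1 h2
      exact hij (h1.symm.trans h2)
  omega

/-- All ten inequalities for the sizes of the classes. -/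
lemma ten_inequalities (hF : Good a F) {cl : V → Fin 6}
    (hcl : ∀ x ∈ F, ∀ y ∈ F, ∀ z ∈ F, x ≠ y → y ≠ z → x ≠ z →
      par a x y z = T3 (cl x) (cl y) (cl z)) :
    (cnt F cl 5 + cnt F cl 0 + cnt F cl 2 ≤ 5 ∧ cnt F cl 5 + cnt F cl 1 + cnt F cl 3 ≤ 5 ∧
     cnt F cl 5 + cnt F cl 2 + cnt F cl 4 ≤ 5 ∧ cnt F cl 5 + cnt F cl 3 + cnt F cl 0 ≤ 5 ∧
     cnt F cl 5 + cnt F cl 4 + cnt F cl 1 ≤ 5) ∧
    (cnt F cl 0 + cnt F cl 1 + cnt F cl 2 ≤ 5 ∧ cnt F cl 1 + cnt F cl 2 + cnt F cl 3 ≤ 5 ∧
     cnt F cl 2 + cnt F cl 3 + cnt F cl 4 ≤ 5 ∧ cnt F cl 3 + cnt F cl 4 + cnt F cl 0 ≤ 5 ∧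
     cnt F cl 4 + cnt F cl 0 + cnt F cl 1 ≤ 5) := by
  refine ⟨⟨?_, ?_, ?_, ?_, ?_⟩, ?_, ?_, ?_, ?_, ?_⟩ <;>
    exact nonblock_le hF hcl _ _ _ (by decide) (by decide) (by decide) (by decide)

/-- There is no set of ten points with good parities. -/
lemma no_ten (ha : IsCocycle K a) (hF : Good a F) (h10 : F.card = 10) : False := by
  obtain ⟨v, hv⟩ : F.Nonempty := by rw [← Finset.card_pos, h10]; norm_num
  rcases pentagon_or_bipartite (nb a v) (F.erase v) (fun x y h => nb_symm ha h)
    (nb_tri ha hF hv) (nb_kk ha hF hv) with ⟨c, hc⟩ | ⟨A, B, hAB, hd, hA, hB⟩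
  · obtain ⟨cl, _, hcl⟩ := exists_classes ha hF hv hc
    obtain ⟨⟨a1, a2, a3, a4, a5⟩, b1, b2, b3, b4, b5⟩ := ten_inequalities hF hcl
    have := card_eq_cnt F cl
    omega
  · have hA' : A ⊆ F.erase v := by rw [← hAB]; exact Finset.subset_union_left
    have hB' : B ⊆ F.erase v := by rw [← hAB]; exact Finset.subset_union_right
    have h1 := indep_card ha hF hv hA' hA
    have h2 := indep_card ha hF hv hB' hB
    have h3 : (A ∪ B).card = A.card + B.card := Finset.card_union_of_disjoint hd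
    rw [hAB, Finset.card_erase_of_mem hv, h10] at h3
    omega

/-- A set of points with good parities has at most nine elements. -/
theorem card_le_nine (ha : IsCocycle K a) (hF : Good a F) : F.card ≤ 9 := by
  by_contra h
  obtain ⟨F', hF', h10⟩ := Finset.exists_subset_card_eq (s := F) (n := 10) (by omega)
  exact no_ten ha (hF.mono hF') h10

end Pool.Agent.Helper11.RP4
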