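import Mathlib
import Pool.Agent.Helper11.RP4.Ten

set_option autoImplicit false
set_option linter.unusedSectionVars false

open Finset

namespace Pool.Agent.Helper11.RP4

/-- Graph at the point `0` of the regular 9-gon. -/
def H9 (i j : Fin 9) : ZMod 2 :=
  if (1 ≤ i.val ∧ i.val ≤ 4 ∧ 5 ≤ j.val ∧ j.val ≤ i.val + 4) ∨
    (1 ≤ j.val ∧ j.val ≤ 4 ∧ 5 ≤ i.val ∧ i.val ≤ j.val + 4) then 1 else 0

/-- Classes of the nine points of the second type. -/
def kap : Fin 9 → Fin 6 := ![5, 0, 0, 1, 2, 2, 3, 4, 4]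

/-- Graph at the point `0` of the second type. -/
def HI (i j : Fin 9) : ZMod 2 := T (kap i) (kap j)

variable {V : Type} [Fintype V] [DecidableEq V]
variable {K : Finset (Finset V)} {a : V → V → ZMod 2} {F : Finset V}

/-- `f` labels the nine points of `F` with parities given by the graph `H`. -/
structure Lab (a : V → V → ZMod 2) (F : Finset V) (H : Fin 9 → Fin 9 → ZMod 2)
    (f : Fin 9 → V) : Prop where
  inj : Function.Injective f
  mem : ∀ i, f i ∈ F
  par : ∀ i j k, i ≠ j → j ≠ k → i ≠ k → par a (f i) (f j) (f k) = H i j + H j k + H i k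

/-- The difference of the new point and of the point `0`. -/
def udiff (a : V → V → ZMod 2) (H : Fin 9 → Fin 9 → ZMod 2) (f : Fin 9 → V) (y : V)
    (j : Fin 9) : ZMod 2 := if j.val ≤ 1 then 0 else par a y (f 1) (f j) + H 1 j

lemma par_new (ha : IsCocycle K a) {H : Fin 9 → Fin 9 → ZMod 2}
    (hH : ∀ i j, H i j = H j i) {f : Fin 9 → V} (hf : Lab a F H f) (y : V) {j k : Fin 9}
    (hj : j ≠ 0) (hk : k ≠ 0) (hjk : j ≠ k) :
    par a y (f j) (f k) = H j k + udiff a H f y j + udiff a H f y k := by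
  have hj' : ¬ j.val = 0 := fun h => hj (Fin.ext h)
  have hk' : ¬ k.val = 0 := fun h => hk (Fin.ext h)
  by_cases h1 : j = 1
  · subst h1
    have h2 : ¬ k.val ≤ 1 := by
      intro h
      apply hjk
      apply Fin.ext
      have : (1 : Fin 9).val = 1 := rfl
      omega
    unfold udiff
    rw [if_pos (by decide), if_neg h2]
    have := z2_add_self (H 1 k)
    linear_combination (-1 : ZMod 2) * this
  · by_cases h2 : k = 1
    · subst h2
      have h3 : ¬ j.val ≤ 1 := by
        intro h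
        apply hjk
        apply Fin.ext
        have : (1 : Fin 9).val = 1 := rfl
        omega
      unfold udiff
      rw [if_pos (show (1 : Fin 9).val ≤ 1 by decide), if_neg h3, par_23 ha, hH j 1]
      have := z2_add_self (H 1 j)
      linear_combination (-1 : ZMod 2) * this
    · have h3 : ¬ j.val ≤ 1 := by
        intro h
        apply h1
        apply Fin.ext
        have : (1 : Fin 9).val = 1 := rfl
        omega
      have h4 : ¬ k.val ≤ 1 := by
        intro h
        apply h2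
        apply Fin.ext
        have : (1 : Fin 9).val = 1 := rfl
        omega
      unfold udiff
      rw [if_neg h3, if_neg h4, par_base ha (f 1), hf.par 1 j k (Ne.symm h1) hjk (Ne.symm h2),
        par_12 ha y (f 1) (f j), par_12 ha y (f 1) (f k)]
      ring

lemma new_tri (ha : IsCocycle K a) {H : Fin 9 → Fin 9 → ZMod 2}
    (hH : ∀ i j, H i j = H j i) {f : Fin 9 → V} (hf : Lab a F H f) {y : V} (hy : y ∉ F)
    (hG : Good a (insert y (F.erase (f 0)))) (i j k : Fin 9)
    (h : i ≠ 0 ∧ j ≠ 0 ∧ k ≠ 0 ∧ i ≠ j ∧ j ≠ k ∧ i ≠ k) :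
    ¬ (H i j + udiff a H f y i + udiff a H f y j = 1 ∧
      H j k + udiff a H f y j + udiff a H f y k = 1 ∧
      H i k + udiff a H f y i + udiff a H f y k = 1) := by
  obtain ⟨hi, hj, hk, hij, hjk, hik⟩ := h
  rintro ⟨h1, h2, h3⟩
  have hyF : ∀ l, y ≠ f l := fun l hl => hy (hl ▸ hf.mem l)
  have hmem : ∀ l, l ≠ 0 → f l ∈ (insert y (F.erase (f 0))).erase y := by
    intro l hl
    rw [mem_erase, mem_insert, mem_erase]
    exact ⟨(hyF l).symm, Or.inr ⟨fun h => hl (hf.inj h), hf.mem l⟩⟩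
  refine nb_tri ha hG (mem_insert_self y _) (f i) (hmem i hi) (f j) (hmem j hj) (f k)
    (hmem k hk) (hf.inj.ne hij) (hf.inj.ne hjk) (hf.inj.ne hik) ⟨hf.inj.ne hij, ?_⟩
    ⟨hf.inj.ne hjk, ?_⟩ ⟨hf.inj.ne hik, ?_⟩
  · rw [par_new ha hH hf y hi hj hij]; exact h1
  · rw [par_new ha hH hf y hj hk hjk]; exact h2
  · rw [par_new ha hH hf y hi hk hik]; exact h3

lemma new_five (ha : IsCocycle K a) {H : Fin 9 → Fin 9 → ZMod 2}
    (hH : ∀ i j, H i j = H j i) {f : Fin 9 → V} (hf : Lab a F H f) {y : V} (hy : y ∉ F)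
    (hG : Good a (insert y (F.erase (f 0)))) (S : Finset (Fin 9)) (h0 : (0 : Fin 9) ∉ S)
    (hS : S.card = 5) :
    ¬ ∀ i ∈ S, ∀ j ∈ S, i ≠ j → H i j + udiff a H f y i + udiff a H f y j = 0 := by
  intro h
  have hyF : ∀ l, y ≠ f l := fun l hl => hy (hl ▸ hf.mem l)
  have hne : ∀ l ∈ S, l ≠ 0 := fun l hl h => h0 (h ▸ hl)
  have hmem : ∀ l, l ≠ 0 → f l ∈ (insert y (F.erase (f 0))).erase y := by
    intro l hl
    rw [mem_erase, mem_insert, mem_erase]
    exact ⟨(hyF l).symm, Or.inr ⟨fun h => hl (hf.inj h), hf.mem l⟩⟩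
  have := indep_card ha hG (mem_insert_self y _) (I := S.image f) (by
    intro x hx
    rw [mem_image] at hx
    obtain ⟨l, hl, rfl⟩ := hx
    exact hmem l (hne l hl)) (by
    intro x hx z hz hxz hnb
    rw [mem_image] at hx hz
    obtain ⟨i, hi, rfl⟩ := hx
    obtain ⟨j, hj, rfl⟩ := hz
    have hij : i ≠ j := fun h => hxz (by rw [h])
    have h1 := hnb.2
    rw [par_new ha hH hf y (hne i hi) (hne j hj) hij, h i hi j hj hij] at h1
    exact zero_ne_one h1)
  rw [Finset.card_image_of_injective _ hf.inj, hS] at this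
  omega

lemma H9_symm (i j : Fin 9) : H9 i j = H9 j i := by revert i j; decide

lemma HI_symm (i j : Fin 9) : HI i j = HI j i := by revert i j; decide

end Pool.Agent.Helper11.RP4
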