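import Mathlib
import Pool.Agent.Helper11.RP4.Ext

set_option autoImplicit false
set_option linter.unusedSectionVars false

open Finset

namespace Pool.Agent.Helper11.RP4

variable {V : Type} [Fintype V] [DecidableEq V]
variable {K : Finset (Finset V)} {a : V → V → ZMod 2} {F : Finset V}

lemma new_five_explicit (ha : IsCocycle K a) {H : Fin 9 → Fin 9 → ZMod 2}
    (hH : ∀ i j, H i j = H j i) {f : Fin 9 → V} (hf : Lab a F H f) {y : V} (hy : y ∉ F)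
    (hG : Good a (insert y (F.erase (f 0)))) (i j k l m : Fin 9)
    (h : (0 : Fin 9) ∉ ({i, j, k, l, m} : Finset (Fin 9)) ∧
      ({i, j, k, l, m} : Finset (Fin 9)).card = 5) :
    ¬ (H i j + udiff a H f y i + udiff a H f y j = 0 ∧
      H i k + udiff a H f y i + udiff a H f y k = 0 ∧
      H i l + udiff a H f y i + udiff a H f y l = 0 ∧
      H i m + udiff a H f y i + udiff a H f y m = 0 ∧
      H j k + udiff a H f y j + udiff a H f y k = 0 ∧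
      H j l + udiff a H f y j + udiff a H f y l = 0 ∧
      H j m + udiff a H f y j + udiff a H f y m = 0 ∧
      H k l + udiff a H f y k + udiff a H f y l = 0 ∧
      H k m + udiff a H f y k + udiff a H f y m = 0 ∧
      H l m + udiff a H f y l + udiff a H f y m = 0) := by
  rintro ⟨e1, e2, e3, e4, e5, e6, e7, e8, e9, e10⟩
  have hsw : ∀ p q : Fin 9, H p q + udiff a H f y p + udiff a H f y q = 0 →
      H q p + udiff a H f y q + udiff a H f y p = 0 := by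
    intro p q hpq
    rw [hH q p, ← hpq]; ring
  refine new_five ha hH hf hy hG _ h.1 h.2 ?_
  intro p hp q hq hpq
  simp only [mem_insert, mem_singleton] at hp hq
  rcases hp with rfl | rfl | rfl | rfl | rfl <;> rcases hq with rfl | rfl | rfl | rfl | rfl <;>
    first
    | exact absurd rfl hpq
    | assumption
    | (apply hsw; assumption)

set_option synthInstance.maxSize 100000 in
set_option synthInstance.maxHeartbeats 4000000 in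
set_option maxRecDepth 100000 in
lemma ext9 : ∀ u2 u3 u4 u5 u6 u7 u8 : ZMod 2,
    ¬ (H9 1 2 + 0 + u2 = 1 ∧ H9 2 6 + u2 + u6 = 1 ∧
      H9 1 6 + 0 + u6 = 1) →
    ¬ (H9 1 3 + 0 + u3 = 1 ∧ H9 3 7 + u3 + u7 = 1 ∧
      H9 1 7 + 0 + u7 = 1) →
    ¬ (H9 3 6 + u3 + u6 = 1 ∧ H9 6 8 + u6 + u8 = 1 ∧
      H9 3 8 + u3 + u8 = 1) →
    ¬ (H9 2 4 + u2 + u4 = 1 ∧ H9 4 8 + u4 + u8 = 1 ∧
      H9 2 8 + u2 + u8 = 1) →
    ¬ (H9 2 5 + u2 + u5 = 1 ∧ H9 5 7 + u5 + u7 = 1 ∧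
      H9 2 7 + u2 + u7 = 1) →
    ¬ (H9 1 5 + 0 + u5 = 1 ∧ H9 5 8 + u5 + u8 = 1 ∧
      H9 1 8 + 0 + u8 = 1) →
    ¬ (H9 1 2 + 0 + u2 = 0 ∧
      H9 1 3 + 0 + u3 = 0 ∧
      H9 1 4 + 0 + u4 = 0 ∧
      H9 1 5 + 0 + u5 = 0 ∧
      H9 2 3 + u2 + u3 = 0 ∧
      H9 2 4 + u2 + u4 = 0 ∧
      H9 2 5 + u2 + u5 = 0 ∧
      H9 3 4 + u3 + u4 = 0 ∧
      H9 3 5 + u3 + u5 = 0 ∧
      H9 4 5 + u4 + u5 = 0) →
    ¬ (H9 1 4 + 0 + u4 = 1 ∧ H9 4 7 + u4 + u7 = 1 ∧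
      H9 1 7 + 0 + u7 = 1) →
    ¬ (H9 4 5 + u4 + u5 = 0 ∧
      H9 4 6 + u4 + u6 = 0 ∧
      H9 4 7 + u4 + u7 = 0 ∧
      H9 4 8 + u4 + u8 = 0 ∧
      H9 5 6 + u5 + u6 = 0 ∧
      H9 5 7 + u5 + u7 = 0 ∧
      H9 5 8 + u5 + u8 = 0 ∧
      H9 6 7 + u6 + u7 = 0 ∧
      H9 6 8 + u6 + u8 = 0 ∧
      H9 7 8 + u7 + u8 = 0) →
    ¬ (H9 1 4 + 0 + u4 = 1 ∧ H9 4 6 + u4 + u6 = 1 ∧
      H9 1 6 + 0 + u6 = 1) →
    ¬ (H9 3 4 + u3 + u4 = 1 ∧ H9 4 8 + u4 + u8 = 1 ∧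
      H9 3 8 + u3 + u8 = 1) →
    ¬ (H9 1 3 + 0 + u3 = 1 ∧ H9 3 6 + u3 + u6 = 1 ∧
      H9 1 6 + 0 + u6 = 1) →
    ¬ (H9 1 5 + 0 + u5 = 1 ∧ H9 5 6 + u5 + u6 = 1 ∧
      H9 1 6 + 0 + u6 = 1) →
    ¬ (H9 2 6 + u2 + u6 = 1 ∧ H9 6 8 + u6 + u8 = 1 ∧
      H9 2 8 + u2 + u8 = 1) →
    ¬ (H9 3 5 + u3 + u5 = 1 ∧ H9 5 8 + u5 + u8 = 1 ∧
      H9 3 8 + u3 + u8 = 1) →
    (u2 = 0 ∧ u3 = 0 ∧ u4 = 0 ∧ u5 = 0 ∧ u6 = 0 ∧ u7 = 0 ∧ u8 = 0) ∨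
    (u2 = 0 ∧ u3 = 0 ∧ u4 = 1 ∧ u5 = 1 ∧ u6 = 0 ∧ u7 = 0 ∧ u8 = 0) := by
  decide

set_option synthInstance.maxSize 100000 in
set_option synthInstance.maxHeartbeats 4000000 in
set_option maxRecDepth 100000 in
lemma extI : ∀ u2 u3 u4 u5 u6 u7 u8 : ZMod 2,
    ¬ (HI 1 3 + 0 + u3 = 1 ∧ HI 3 6 + u3 + u6 = 1 ∧
      HI 1 6 + 0 + u6 = 1) →
    ¬ (HI 1 4 + 0 + u4 = 1 ∧ HI 4 7 + u4 + u7 = 1 ∧
      HI 1 7 + 0 + u7 = 1) →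
    ¬ (HI 2 4 + u2 + u4 = 1 ∧ HI 4 6 + u4 + u6 = 1 ∧
      HI 2 6 + u2 + u6 = 1) →
    ¬ (HI 2 5 + u2 + u5 = 1 ∧ HI 5 7 + u5 + u7 = 1 ∧
      HI 2 7 + u2 + u7 = 1) →
    ¬ (HI 1 5 + 0 + u5 = 1 ∧ HI 5 8 + u5 + u8 = 1 ∧
      HI 1 8 + 0 + u8 = 1) →
    ¬ (HI 1 2 + 0 + u2 = 0 ∧
      HI 1 3 + 0 + u3 = 0 ∧
      HI 1 4 + 0 + u4 = 0 ∧
      HI 1 5 + 0 + u5 = 0 ∧
      HI 2 3 + u2 + u3 = 0 ∧
      HI 2 4 + u2 + u4 = 0 ∧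
      HI 2 5 + u2 + u5 = 0 ∧
      HI 3 4 + u3 + u4 = 0 ∧
      HI 3 5 + u3 + u5 = 0 ∧
      HI 4 5 + u4 + u5 = 0) →
    ¬ (HI 1 2 + 0 + u2 = 0 ∧
      HI 1 6 + 0 + u6 = 0 ∧
      HI 1 7 + 0 + u7 = 0 ∧
      HI 1 8 + 0 + u8 = 0 ∧
      HI 2 6 + u2 + u6 = 0 ∧
      HI 2 7 + u2 + u7 = 0 ∧
      HI 2 8 + u2 + u8 = 0 ∧
      HI 6 7 + u6 + u7 = 0 ∧
      HI 6 8 + u6 + u8 = 0 ∧
      HI 7 8 + u7 + u8 = 0) →
    ¬ (HI 2 4 + u2 + u4 = 1 ∧ HI 4 8 + u4 + u8 = 1 ∧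
      HI 2 8 + u2 + u8 = 1) →
    ¬ (HI 4 5 + u4 + u5 = 0 ∧
      HI 4 6 + u4 + u6 = 0 ∧
      HI 4 7 + u4 + u7 = 0 ∧
      HI 4 8 + u4 + u8 = 0 ∧
      HI 5 6 + u5 + u6 = 0 ∧
      HI 5 7 + u5 + u7 = 0 ∧
      HI 5 8 + u5 + u8 = 0 ∧
      HI 6 7 + u6 + u7 = 0 ∧
      HI 6 8 + u6 + u8 = 0 ∧
      HI 7 8 + u7 + u8 = 0) →
    ¬ (HI 1 5 + 0 + u5 = 1 ∧ HI 5 6 + u5 + u6 = 1 ∧
      HI 1 6 + 0 + u6 = 1) →
    ¬ (HI 3 4 + u3 + u4 = 1 ∧ HI 4 7 + u4 + u7 = 1 ∧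
      HI 3 7 + u3 + u7 = 1) →
    ¬ (HI 3 4 + u3 + u4 = 1 ∧ HI 4 8 + u4 + u8 = 1 ∧
      HI 3 8 + u3 + u8 = 1) →
    u2 = 0 ∧ u3 = 0 ∧ u4 = 0 ∧ u5 = 0 ∧ u6 = 0 ∧ u7 = 0 ∧ u8 = 0 := by
  decide

lemma ext9_concl (ha : IsCocycle K a) {f : Fin 9 → V} (hf : Lab a F H9 f) {y : V}
    (hy : y ∉ F) (hG : Good a (insert y (F.erase (f 0)))) :
    (udiff a H9 f y 2 = 0 ∧ udiff a H9 f y 3 = 0 ∧ udiff a H9 f y 4 = 0 ∧ udiff a H9 f y 5 = 0 ∧ udiff a H9 f y 6 = 0 ∧ udiff a H9 f y 7 = 0 ∧ udiff a H9 f y 8 = 0) ∨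
    (udiff a H9 f y 2 = 0 ∧ udiff a H9 f y 3 = 0 ∧ udiff a H9 f y 4 = 1 ∧ udiff a H9 f y 5 = 1 ∧ udiff a H9 f y 6 = 0 ∧ udiff a H9 f y 7 = 0 ∧ udiff a H9 f y 8 = 0) := by
  have h1 : udiff a H9 f y 1 = 0 := by simp [udiff]
  have c0 := new_tri ha H9_symm hf hy hG 1 2 6 (by decide)
  have c1 := new_tri ha H9_symm hf hy hG 1 3 7 (by decide)
  have c2 := new_tri ha H9_symm hf hy hG 3 6 8 (by decide)
  have c3 := new_tri ha H9_symm hf hy hG 2 4 8 (by decide)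
  have c4 := new_tri ha H9_symm hf hy hG 2 5 7 (by decide)
  have c5 := new_tri ha H9_symm hf hy hG 1 5 8 (by decide)
  have c6 := new_five_explicit ha H9_symm hf hy hG 1 2 3 4 5 (by decide)
  have c7 := new_tri ha H9_symm hf hy hG 1 4 7 (by decide)
  have c8 := new_five_explicit ha H9_symm hf hy hG 4 5 6 7 8 (by decide)
  have c9 := new_tri ha H9_symm hf hy hG 1 4 6 (by decide)
  have c10 := new_tri ha H9_symm hf hy hG 3 4 8 (by decide)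
  have c11 := new_tri ha H9_symm hf hy hG 1 3 6 (by decide)
  have c12 := new_tri ha H9_symm hf hy hG 1 5 6 (by decide)
  have c13 := new_tri ha H9_symm hf hy hG 2 6 8 (by decide)
  have c14 := new_tri ha H9_symm hf hy hG 3 5 8 (by decide)
  rw [h1] at c0 c1 c5 c6 c7 c9 c11 c12
  exact ext9 (udiff a H9 f y 2) (udiff a H9 f y 3) (udiff a H9 f y 4) (udiff a H9 f y 5)
    (udiff a H9 f y 6) (udiff a H9 f y 7) (udiff a H9 f y 8) c0 c1 c2 c3 c4 c5 c6 c7 c8 c9 c10 c11 c12 c13 c14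

lemma extI_concl (ha : IsCocycle K a) {f : Fin 9 → V} (hf : Lab a F HI f) {y : V}
    (hy : y ∉ F) (hG : Good a (insert y (F.erase (f 0)))) :
    udiff a HI f y 2 = 0 ∧ udiff a HI f y 3 = 0 ∧ udiff a HI f y 4 = 0 ∧ udiff a HI f y 5 = 0 ∧ udiff a HI f y 6 = 0 ∧ udiff a HI f y 7 = 0 ∧ udiff a HI f y 8 = 0 := by
  have h1 : udiff a HI f y 1 = 0 := by simp [udiff]
  have c0 := new_tri ha HI_symm hf hy hG 1 3 6 (by decide)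
  have c1 := new_tri ha HI_symm hf hy hG 1 4 7 (by decide)
  have c2 := new_tri ha HI_symm hf hy hG 2 4 6 (by decide)
  have c3 := new_tri ha HI_symm hf hy hG 2 5 7 (by decide)
  have c4 := new_tri ha HI_symm hf hy hG 1 5 8 (by decide)
  have c5 := new_five_explicit ha HI_symm hf hy hG 1 2 3 4 5 (by decide)
  have c6 := new_five_explicit ha HI_symm hf hy hG 1 2 6 7 8 (by decide)
  have c7 := new_tri ha HI_symm hf hy hG 2 4 8 (by decide)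
  have c8 := new_five_explicit ha HI_symm hf hy hG 4 5 6 7 8 (by decide)
  have c9 := new_tri ha HI_symm hf hy hG 1 5 6 (by decide)
  have c10 := new_tri ha HI_symm hf hy hG 3 4 7 (by decide)
  have c11 := new_tri ha HI_symm hf hy hG 3 4 8 (by decide)
  rw [h1] at c0 c1 c4 c5 c6 c9
  exact extI (udiff a HI f y 2) (udiff a HI f y 3) (udiff a HI f y 4) (udiff a HI f y 5)
    (udiff a HI f y 6) (udiff a HI f y 7) (udiff a HI f y 8) c0 c1 c2 c3 c4 c5 c6 c7 c8 c9 c10 c11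


end Pool.Agent.Helper11.RP4
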