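import Mathlib
import Pool.Agent.Helper11.RP4.Count

set_option autoImplicit false
set_option linter.unusedSectionVars false

open Finset

namespace Pool.Agent.Helper11.RP4

variable {V : Type} [Fintype V] [DecidableEq V]

lemma exists_facet5 {K : Finset (Finset V)} (hK : IsProjectiveManifold4 K) :
    ∃ σ ∈ K, σ.card = 5 := by
  have h := hK.euler
  have hC := hK.projective.complex
  obtain ⟨σ, hσ⟩ : ∃ σ, σ ∈ K := by
    by_contra hcon
    push Not at hcon
    have h0 : ∀ k, (facesOver K ∅ k).card = 0 := by
      intro k
      rw [Finset.card_eq_zero, Finset.eq_empty_iff_forall_notMem]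
      intro τ hτ
      rw [mem_facesOver] at hτ
      exact hcon τ hτ.1
    rw [h0, h0, h0, h0, h0] at h
    omega
  obtain ⟨τ, hτ, _, h5⟩ := hK.projective.pure σ hσ
  exact ⟨τ, hτ, h5⟩

lemma descFactorial_four (n : ℕ) :
    24 * (n.choose 4 : ℤ) = (n : ℤ) * (n - 1) * (n - 2) * (n - 3) := by
  have h := Nat.descFactorial_eq_factorial_mul_choose n 4
  have h24 : Nat.factorial 4 = 24 := by decide
  rw [h24] at h
  rcases Nat.lt_or_ge n 4 with h4 | h4
  · interval_cases n <;> simp [Nat.choose]
  · obtain ⟨m, rfl⟩ : ∃ m, n = m + 4 := ⟨n - 4, by omega⟩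
    have e : Nat.descFactorial (m + 4) 4 = (m + 1) * ((m + 2) * ((m + 3) * (m + 4))) := by
      simp only [Nat.descFactorial_succ, Nat.descFactorial_zero]
      have h1 : m + 4 - 3 = m + 1 := by omega
      have h2 : m + 4 - 2 = m + 2 := by omega
      have h3 : m + 4 - 1 = m + 3 := by omega
      rw [h1, h2, h3]
      simp
    rw [e] at h
    have h' : (24 * ((m + 4).choose 4 : ℤ)) = ((m : ℤ) + 1) * ((m + 2) * ((m + 3) * (m + 4))) := by
      exact_mod_cast h.symm
    rw [h']
    push_cast
    ring

lemma choose_two_int (n : ℕ) : 2 * (n.choose 2 : ℤ) = (n : ℤ) * (n - 1) := by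
  rcases Nat.eq_zero_or_pos n with h | h
  · subst h; simp
  · obtain ⟨m, rfl⟩ : ∃ m, n = m + 1 := ⟨n - 1, by omega⟩
    have h1 := Nat.descFactorial_eq_factorial_mul_choose (m + 1) 2
    have e : Nat.descFactorial (m + 1) 2 = m * (m + 1) := by
      simp [Nat.descFactorial_succ]
    rw [e] at h1
    have h2 : Nat.factorial 2 = 2 := by decide
    rw [h2] at h1
    have h' : (2 * ((m + 1).choose 2 : ℤ)) = (m : ℤ) * (m + 1) := by exact_mod_cast h1.symm
    rw [h']
    push_cast
    ring

lemma vertex_edge_numbers {K : Finset (Finset V)} (hK : IsComplex K)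
    (hpair : ∀ x y : V, x ≠ y → ({x, y} : Finset V) ∈ K) :
    (facesOver K ∅ 1).card = Fintype.card V ∧
      (facesOver K ∅ 2).card = (Fintype.card V).choose 2 := by
  constructor
  · have : facesOver K ∅ 1 = powersetCard 1 univ := by
      ext σ
      rw [mem_facesOver, mem_powersetCard]
      constructor
      · rintro ⟨_, _, h⟩; exact ⟨subset_univ _, h⟩
      · rintro ⟨_, h⟩
        obtain ⟨v, rfl⟩ := Finset.card_eq_one.1 h
        exact ⟨hK.vertex v, empty_subset _, h⟩
    rw [this, card_powersetCard, Finset.card_univ, Nat.choose_one_right]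
  · have : facesOver K ∅ 2 = powersetCard 2 univ := by
      ext σ
      rw [mem_facesOver, mem_powersetCard]
      constructor
      · rintro ⟨_, _, h⟩; exact ⟨subset_univ _, h⟩
      · rintro ⟨_, h⟩
        obtain ⟨u, v, huv, rfl⟩ := Finset.card_eq_two.1 h
        exact ⟨hpair u v huv, empty_subset _, h⟩
    rw [this, card_powersetCard, Finset.card_univ]

/-- With fifteen vertices and all 4-sets injective, every pair has at most four odd triples. -/
lemma few_odd {K : Finset (Finset V)} (hK : IsProjectiveManifold4 K) {a : V → V → ZMod 2}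
    (ha : IsCocycle K a) (hsph : IsHomologySphere (cover K a)) (hs : Small K a)
    (h4 : ∀ S : Finset V, S.card = 4 → HomologyInjective K S) (hn : Fintype.card V = 15)
    {v x : V} (hvx : v ≠ x) :
    (univ.filter (fun y => y ≠ v ∧ y ≠ x ∧ par a v x y = 1)).card ≤ 4 := by
  set I := univ.filter (fun y => y ≠ v ∧ y ≠ x ∧ par a v x y = 1) with hI
  have hmem : ∀ y, y ∈ I ↔ y ≠ v ∧ y ≠ x ∧ par a v x y = 1 := by
    intro y; rw [hI, mem_filter]; simp
  have hz2 : ∀ s : ZMod 2, s = 0 ∨ s = 1 := by decide
  have hvyy : ∀ y ∈ I, ∀ y' ∈ I, y ≠ y' → par a v y y' = 0 := by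
    intro y hy y' hy' hyy
    rw [hmem] at hy hy'
    rcases hz2 (par a v y y') with h | h
    · exact h
    · exfalso
      have hc : ({v, x, y, y'} : Finset V).card = 4 := by
        rw [Finset.card_eq_four]
        exact ⟨v, x, y, y', hvx, hy.1.symm, hy'.1.symm, hy.2.1.symm, hy'.2.1.symm, hyy, rfl⟩
      have h2 := two_triples ha hsph hs hc (h4 _ hc)
      have hsum := par_four (a := a) (x := v) (y := x) (z := y) (w := y')
      rw [hy.2.2, hy'.2.2, h] at hsum
      have hxyy : par a x y y' = 1 := by
        generalize par a x y y' = t at hsum ⊢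
        revert t; decide
      have hodd : ∀ u ∈ ({v, x, y, y'} : Finset V), ({v, x, y, y'} : Finset V).erase u ∉ K := by
        intro u hu
        simp only [mem_insert, mem_singleton] at hu
        have key : ∀ r s t : V, r ≠ s → s ≠ t → r ≠ t → par a r s t = 1 →
            ({r, s, t} : Finset V) ∉ K := by
          intro r s t hrs hst hrt hp hmem
          have := ha.triangle r s t hrs hst hrt hmem
          unfold par at hp
          rw [this] at hp
          exact zero_ne_one hp
        rcases hu with rfl | rfl | rfl | rfl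
        · have e : ({u, x, y, y'} : Finset V).erase u = {x, y, y'} := by
            rw [Finset.erase_insert]; simp [hvx, hy.1.symm, hy'.1.symm]
          rw [e]
          exact key x y y' hy.2.1.symm hyy hy'.2.1.symm hxyy
        · have e : ({v, u, y, y'} : Finset V).erase u = {v, y, y'} := by
            rw [Finset.insert_comm, Finset.erase_insert]
            simp [hvx.symm, hy.2.1.symm, hy'.2.1.symm]
          rw [e]
          exact key v y y' hy.1.symm hyy hy'.1.symm h
        · have e : ({v, x, u, y'} : Finset V).erase u = {v, x, y'} := by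
            rw [Finset.insert_comm x u, Finset.insert_comm v u, Finset.erase_insert]
            simp [hy.1, hy.2.1, hyy]
          rw [e]
          exact key v x y' hvx hy'.2.1.symm hy'.1.symm hy'.2.2
        · have e : ({v, x, y, u} : Finset V).erase u = {v, x, y} := by
            rw [Finset.pair_comm y u, Finset.insert_comm x u, Finset.insert_comm v u,
              Finset.erase_insert]
            simp [hy'.1, hy'.2.1, hyy.symm]
          rw [e]
          exact key v x y hvx hy.2.1.symm hy.1.symm hy.2.2
      have h0 : (({v, x, y, y'} : Finset V).filter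
          (fun u => ({v, x, y, y'} : Finset V).erase u ∈ K)).card = 0 := by
        rw [Finset.card_eq_zero, Finset.filter_eq_empty_iff]
        exact hodd
      omega
  have hvI : v ∉ I := by
    intro h
    rw [hmem] at h
    exact h.1 rfl
  have hW : EvenSet a (insert v I) := by
    intro r hr s hs' t ht hrs hst hrt
    rw [mem_insert] at hr hs' ht
    rcases hr with hr | hr
    · rcases hs' with hs' | hs'
      · exact absurd (hr.trans hs'.symm) hrs
      · rcases ht with ht | ht
        · exact absurd (hr.trans ht.symm) hrt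
        · rw [hr]; exact hvyy s hs' t ht hst
    · rcases hs' with hs' | hs'
      · rcases ht with ht | ht
        · exact absurd (hs'.trans ht.symm) hst
        · rw [hs', ← par_12 ha]
          exact hvyy r hr t ht hrt
      · rcases ht with ht | ht
        · rw [ht, ← par_23 ha, ← par_12 ha]
          exact hvyy r hr s hs' hrs
        · have h1 := par_four (a := a) (x := v) (y := r) (z := s) (w := t)
          rw [hvyy r hr s hs' hrs, hvyy r hr t ht hrt, hvyy s hs' t ht hst] at h1
          simpa using h1
  have h := even_card hK.projective ha hsph (exists_facet5 hK) hW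
  rw [Finset.card_insert_of_notMem hvI, hn] at h
  omega

open Classical in
/-- In a tight map for which all subsets with two or three vertices can be cut off, many 4-sets
of vertices cannot be cut off. -/
theorem four_sets {K : Finset (Finset V)} (hK : IsProjectiveManifold4 K) {N : ℕ}
    (p : V → (Fin N → ℝ)) (hT : Tight K p)
    (h3 : ∀ S : Finset V, 2 ≤ S.card → S.card ≤ 3 → CutOff p S) :
    1 ≤ ((powersetCard 4 (univ : Finset V)).filter (fun S => ¬ CutOff p S)).card ∧
    ((Fintype.card V : ℤ) - 1) * (Fintype.card V - 6) * (Fintype.card V - 8) *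
      (Fintype.card V - 15) ≤
      24 * (((powersetCard 4 (univ : Finset V)).filter (fun S => ¬ CutOff p S)).card : ℤ) := by
  obtain ⟨a, ha, hsph⟩ := hK.projective.cover_sphere
  have hC := hK.projective.complex
  have hinj : ∀ S : Finset V, CutOff p S → HomologyInjective K S := by
    rintro S ⟨ℓ, c, hℓ, rfl⟩
    exact hT ℓ c hℓ
  have hs := small_of_injective hC ha hsph (fun S h2 h3' => hinj S (h3 S h2 h3'))
  set n := Fintype.card V with hn
  set B := ((powersetCard 4 (univ : Finset V)).filter (fun S => ¬ CutOff p S)).card with hB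
  obtain ⟨f1, f2⟩ := vertex_edge_numbers hC hs.pair
  obtain ⟨g3, g4, g5⟩ := face_numbers hK
  obtain ⟨σ, hσ, hσ5⟩ := exists_facet5 hK
  have h15 : 15 ≤ n := by
    have := even_card hK.projective ha hsph ⟨σ, hσ, hσ5⟩ (face_even hC ha hσ)
    omega
  -- the inequality
  have hper : ∀ S ∈ powersetCard 4 (univ : Finset V),
      2 + (if S ∈ K then 2 else 0) ≤ (S.filter (fun v => S.erase v ∈ K)).card +
        (if ¬ CutOff p S then 2 else 0) := by
    intro S hS
    rw [mem_powersetCard] at hS
    by_cases hSK : S ∈ K
    · have hall : S.filter (fun v => S.erase v ∈ K) = S := by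
        apply Finset.filter_true_of_mem
        intro v hv
        apply hC.down S hSK _ (erase_subset _ _)
        rw [← Finset.card_pos, Finset.card_erase_of_mem hv]
        omega
      rw [hall, hS.2, if_pos hSK]
      omega
    · rw [if_neg hSK]
      by_cases hcut : CutOff p S
      · have := two_triples ha hsph hs hS.2 (hinj S hcut)
        omega
      · rw [if_pos hcut]; omega
  have hsum := Finset.sum_le_sum hper
  rw [Finset.sum_add_distrib, Finset.sum_add_distrib, count_triples, Finset.sum_const,
    card_powersetCard, Finset.card_univ, smul_eq_mul] at hsum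
  have e1 : (∑ S ∈ powersetCard 4 (univ : Finset V), if S ∈ K then 2 else 0) =
      2 * (facesOver K ∅ 4).card := by
    rw [← Finset.sum_filter, Finset.sum_const, smul_eq_mul, mul_comm]
    congr 2
    ext S
    rw [mem_filter, mem_powersetCard, mem_facesOver]
    constructor
    · rintro ⟨⟨_, h⟩, h'⟩; exact ⟨h', empty_subset _, h⟩
    · rintro ⟨h', _, h⟩; exact ⟨⟨subset_univ _, h⟩, h'⟩
  have e2 : (∑ S ∈ powersetCard 4 (univ : Finset V), if ¬ CutOff p S then 2 else 0) =
      2 * B := by
    rw [← Finset.sum_filter, Finset.sum_const, smul_eq_mul, mul_comm]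
  rw [e1, e2, ← hn] at hsum
  have hc4 := descFactorial_four n
  have hc2 := choose_two_int n
  have hsum' : (n.choose 4 : ℤ) * 2 + 2 * (facesOver K ∅ 4).card ≤
      (facesOver K ∅ 3).card * ((n : ℤ) - 3) + 2 * B := by
    have h := hsum
    have hcast : ((n - 3 : ℕ) : ℤ) = (n : ℤ) - 3 := by omega
    zify at h
    rw [hcast] at h
    linarith
  rw [f1, f2] at g3 g4
  have hF3 : ((facesOver K ∅ 3).card : ℤ) = 10 + 2 * ((n : ℤ) * (n - 1)) - 10 * n := by
    linarith
  have hF4 : 2 * ((facesOver K ∅ 4).card : ℤ) = 30 + 5 * ((n : ℤ) * (n - 1)) - 30 * n := by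
    linarith
  have hbound : ((n : ℤ) - 1) * (n - 6) * (n - 8) * (n - 15) ≤ 24 * (B : ℤ) := by
    rw [hF3] at hsum'
    have h1 : 12 * ((n.choose 4 : ℤ) * 2 + 2 * (facesOver K ∅ 4).card) ≤
        12 * ((10 + 2 * ((n : ℤ) * (n - 1)) - 10 * n) * ((n : ℤ) - 3) + 2 * B) := by
      linarith
    have h2 : 12 * ((n.choose 4 : ℤ) * 2 + 2 * (facesOver K ∅ 4).card) =
        (n : ℤ) * (n - 1) * (n - 2) * (n - 3) +
          12 * (30 + 5 * ((n : ℤ) * (n - 1)) - 30 * n) := by
      rw [← hc4, ← hF4]; ring
    rw [h2] at h1
    have h3 : ((n : ℤ) - 1) * (n - 6) * (n - 8) * (n - 15) =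
        (n : ℤ) * (n - 1) * (n - 2) * (n - 3) +
          12 * (30 + 5 * ((n : ℤ) * (n - 1)) - 30 * n) -
          12 * ((10 + 2 * ((n : ℤ) * (n - 1)) - 10 * n) * ((n : ℤ) - 3)) := by
      ring
    rw [h3]
    linarith
  refine ⟨?_, hbound⟩
  rcases Nat.lt_or_ge 15 n with h16 | h16
  · -- at least sixteen vertices
    have h16' : (16 : ℤ) ≤ n := by exact_mod_cast h16
    have hpos : 0 < ((n : ℤ) - 1) * (n - 6) * (n - 8) * (n - 15) := by
      have a1 : (0 : ℤ) < n - 1 := by linarith
      have a2 : (0 : ℤ) < n - 6 := by linarith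
      have a3 : (0 : ℤ) < n - 8 := by linarith
      have a4 : (0 : ℤ) < n - 15 := by linarith
      positivity
    have : (0 : ℤ) < B := by linarith
    omega
  · -- fifteen vertices
    have hn15 : n = 15 := by omega
    by_contra hB0
    have hB0 : B = 0 := by omega
    have hall : ∀ S : Finset V, S.card = 4 → HomologyInjective K S := by
      intro S hS
      apply hinj
      by_contra hcut
      rw [hB, Finset.card_eq_zero, Finset.filter_eq_empty_iff] at hB0
      exact hB0 (mem_powersetCard.2 ⟨subset_univ _, hS⟩) hcut
    have hd := double_count hC (j := 2) (by norm_num) 3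
    have hc3 : Nat.choose 3 2 = 3 := by decide
    rw [hc3] at hd
    have hge : ∀ e ∈ facesOver K ∅ 2, 9 ≤ (facesOver K e 3).card := by
      intro e he
      rw [mem_facesOver] at he
      obtain ⟨v, x, hvx, rfl⟩ := Finset.card_eq_two.1 he.2.2
      have hfo := few_odd hK ha hsph hs hall (hn ▸ hn15) hvx
      have hz2 : ∀ s : ZMod 2, s = 0 ∨ s = 1 := by decide
      have hev : 9 ≤ (univ.filter (fun y => y ≠ v ∧ y ≠ x ∧ par a v x y = 0)).card := by
        have hun : univ.filter (fun y => y ≠ v ∧ y ≠ x ∧ par a v x y = 1) ∪
            univ.filter (fun y => y ≠ v ∧ y ≠ x ∧ par a v x y = 0) = univ \ {v, x} := by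
          ext y
          simp only [mem_union, mem_filter, mem_univ, true_and, mem_sdiff, mem_insert,
            mem_singleton, not_or]
          constructor
          · rintro (⟨h1, h2, _⟩ | ⟨h1, h2, _⟩) <;> exact ⟨h1, h2⟩
          · rintro ⟨h1, h2⟩
            rcases hz2 (par a v x y) with h | h
            · exact Or.inr ⟨h1, h2, h⟩
            · exact Or.inl ⟨h1, h2, h⟩
        have h1 := Finset.card_union_le (univ.filter (fun y => y ≠ v ∧ y ≠ x ∧ par a v x y = 1))
          (univ.filter (fun y => y ≠ v ∧ y ≠ x ∧ par a v x y = 0))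
        rw [hun, Finset.card_sdiff_of_subset (subset_univ _), Finset.card_univ,
          Finset.card_pair hvx, ← hn, hn15] at h1
        omega
      refine hev.trans ?_
      apply Finset.card_le_card_of_injOn (fun y => insert y {v, x})
      · intro y hy
        have hy' : y ≠ v ∧ y ≠ x ∧ par a v x y = 0 := by
          have := Finset.mem_coe.1 hy
          rw [mem_filter] at this
          exact this.2
        rw [Finset.mem_coe, mem_facesOver]
        refine ⟨?_, subset_insert _ _, ?_⟩
        · have := hs.triple v x y hvx hy'.2.1.symm hy'.1.symm hy'.2.2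
          have e : insert y ({v, x} : Finset V) = {v, x, y} := by
            ext t; simp only [mem_insert, mem_singleton]; tauto
          show insert y ({v, x} : Finset V) ∈ K
          rw [e]; exact this
        · rw [Finset.card_insert_of_notMem, Finset.card_pair hvx]
          simp [hy'.1, hy'.2.1]
      · intro y hy y' hy' h
        have hy1 : y ≠ v ∧ y ≠ x ∧ par a v x y = 0 := by
          have := Finset.mem_coe.1 hy
          rw [mem_filter] at this
          exact this.2
        have : y ∈ insert y' ({v, x} : Finset V) := by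
          have h0 : insert y ({v, x} : Finset V) = insert y' {v, x} := h
          rw [← h0]; exact mem_insert_self _ _
        rw [mem_insert, mem_insert, mem_singleton] at this
        rcases this with h' | h' | h'
        · exact h'
        · exact absurd h' hy1.1
        · exact absurd h' hy1.2.1
    have hle := Finset.card_nsmul_le_sum _ _ _ hge
    rw [hd, smul_eq_mul, f2, ← hn, hn15] at hle
    have hc15 : Nat.choose 15 2 = 105 := by decide
    rw [hc15] at hle
    rw [hn15] at hF3
    norm_num at hF3
    omega

end Pool.Agent.Helper11.RP4
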