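import Mathlib
import Pool.Agent.Helper11.RP4.Ext2

set_option autoImplicit false
set_option linter.unusedSectionVars false

open Finset

namespace Pool.Agent.Helper11.RP4

variable {V : Type} [Fintype V] [DecidableEq V]
variable {K : Finset (Finset V)} {a : V → V → ZMod 2} {F : Finset V}

/-- A 4-face cannot lie in three 5-faces. -/
lemma three_five
    (hcl : ∀ σ ∈ K, σ.card = 4 → (K.filter (fun τ => σ ⊆ τ ∧ τ.card = 5)).card = 2)
    {Q : Finset V} (hQ : Q ∈ K) (hc : Q.card = 4) {x y z : V} (hx : x ∉ Q) (hy : y ∉ Q)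
    (hz : z ∉ Q) (hxy : x ≠ y) (hxz : x ≠ z) (hyz : y ≠ z) (kx : insert x Q ∈ K)
    (ky : insert y Q ∈ K) (kz : insert z Q ∈ K) : False := by
  have h2 := hcl Q hQ hc
  have hne : ∀ p q : V, p ∉ Q → q ∉ Q → p ≠ q → insert p Q ≠ insert q Q := by
    intro p q hp hq hpq h
    have : p ∈ insert q Q := by rw [← h]; exact mem_insert_self _ _
    rw [mem_insert] at this
    rcases this with h' | h'
    · exact hpq h'
    · exact hp h'
  have hsub : ({insert x Q, insert y Q, insert z Q} : Finset (Finset V)) ⊆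
      K.filter (fun τ => Q ⊆ τ ∧ τ.card = 5) := by
    intro τ hτ
    simp only [mem_insert, mem_singleton] at hτ
    rw [mem_filter]
    rcases hτ with rfl | rfl | rfl
    · exact ⟨kx, Finset.subset_insert _ _, by rw [Finset.card_insert_of_notMem hx, hc]⟩
    · exact ⟨ky, Finset.subset_insert _ _, by rw [Finset.card_insert_of_notMem hy, hc]⟩
    · exact ⟨kz, Finset.subset_insert _ _, by rw [Finset.card_insert_of_notMem hz, hc]⟩
  have h3 := Finset.card_le_card hsub
  rw [h2, Finset.card_insert_of_notMem, Finset.card_pair (hne y z hy hz hyz)] at h3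
  · omega
  · simp only [mem_insert, mem_singleton, not_or]
    exact ⟨hne x y hx hy hxy, hne x z hx hz hxz⟩

lemma new_lab (ha : IsCocycle K a) {H : Fin 9 → Fin 9 → ZMod 2}
    (hH : ∀ i j, H i j = H j i) (hH0 : ∀ j, H 0 j = 0) {f : Fin 9 → V} (hf : Lab a F H f)
    {y : V} (hy : y ∉ F) (s : Fin 9 → Fin 9) (hs : Function.Injective s)
    (hs0 : ∀ i, i ≠ 0 → s i ≠ 0) (u : Fin 9 → ZMod 2)
    (hu : ∀ j, j ≠ 0 → udiff a H f y j = u j)
    (hA : ∀ i j k, i ≠ j → j ≠ k → i ≠ k → i ≠ 0 → j ≠ 0 → k ≠ 0 →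
      H (s i) (s j) + H (s j) (s k) + H (s i) (s k) = H i j + H j k + H i k)
    (hB : ∀ i j, i ≠ j → i ≠ 0 → j ≠ 0 → H (s i) (s j) + u (s i) + u (s j) = H i j) :
    Lab a (insert y (F.erase (f 0))) H (fun i => if i = 0 then y else f (s i)) := by
  have hyF : ∀ l, y ≠ f l := fun l hl => hy (hl ▸ hf.mem l)
  have key : ∀ i j, i ≠ j → i ≠ 0 → j ≠ 0 → par a y (f (s i)) (f (s j)) = H i j := by
    intro i j hij hi hj
    rw [par_new ha hH hf y (hs0 i hi) (hs0 j hj) (fun h => hij (hs h)), hu _ (hs0 i hi),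
      hu _ (hs0 j hj), hB i j hij hi hj]
  refine ⟨?_, ?_, ?_⟩
  · intro i j hij
    by_cases hi : i = 0
    · by_cases hj : j = 0
      · rw [hi, hj]
      · simp only [hi, if_true, hj, if_false] at hij
        exact absurd hij (hyF _)
    · by_cases hj : j = 0
      · simp only [hi, hj, if_true, if_false] at hij
        exact absurd hij.symm (hyF _)
      · simp only [hi, hj, if_false] at hij
        exact hs (hf.inj hij)
  · intro i
    by_cases hi : i = 0
    · simp only [hi, if_true]; exact mem_insert_self _ _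
    · simp only [hi, if_false]
      rw [mem_insert, mem_erase]
      exact Or.inr ⟨fun h => hs0 i hi (hf.inj h), hf.mem _⟩
  · intro i j k hij hjk hik
    by_cases hi : i = 0
    · have hj : j ≠ 0 := fun h => hij (by rw [hi, h])
      have hk : k ≠ 0 := fun h => hik (by rw [hi, h])
      simp only [hi, hj, hk, if_true, if_false]
      rw [key j k hjk hj hk, hH0, hH0]; ring
    · by_cases hj : j = 0
      · have hk : k ≠ 0 := fun h => hjk (by rw [hj, h])
        simp only [hi, hj, hk, if_true, if_false]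
        rw [par_12 ha, key i k hik hi hk, hH i 0, hH0, hH0]; ring
      · by_cases hk : k = 0
        · simp only [hi, hj, hk, if_true, if_false]
          rw [← par_23 ha, ← par_12 ha, key i j hij hi hj, hH j 0, hH i 0, hH0, hH0]; ring
        · simp only [hi, hj, hk, if_false]
          rw [hf.par _ _ _ (fun h => hij (hs h)) (fun h => hjk (hs h)) (fun h => hik (hs h))]
          exact hA i j k hij hjk hik hi hj hk

lemma H9_zero (j : Fin 9) : H9 0 j = 0 := by revert j; decide

lemma HI_zero (j : Fin 9) : HI 0 j = 0 := by revert j; decide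

/-- The swap of the labels 4 and 5. -/
def sw : Fin 9 → Fin 9 := ![0, 1, 2, 3, 5, 4, 6, 7, 8]

lemma sw_inj : Function.Injective sw := by
  intro i j; revert i j; decide

lemma sw_ne (i : Fin 9) : i ≠ 0 → sw i ≠ 0 := by revert i; decide

lemma sw_A : ∀ i j k : Fin 9, i ≠ j → j ≠ k → i ≠ k → i ≠ 0 → j ≠ 0 → k ≠ 0 →
    H9 (sw i) (sw j) + H9 (sw j) (sw k) + H9 (sw i) (sw k) = H9 i j + H9 j k + H9 i k := by
  decide

/-- The exceptional difference. -/
def uu : Fin 9 → ZMod 2 := ![0, 0, 0, 0, 1, 1, 0, 0, 0]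

lemma sw_B : ∀ i j : Fin 9, i ≠ j → i ≠ 0 → j ≠ 0 →
    H9 (sw i) (sw j) + uu (sw i) + uu (sw j) = H9 i j := by
  decide

/-- Labelled form of the next facet, first type. -/
lemma next9 (ha : IsCocycle K a) {f : Fin 9 → V} (hf : Lab a F H9 f) {y : V} (hy : y ∉ F)
    (hG : Good a (insert y (F.erase (f 0)))) :
    Lab a (insert y (F.erase (f 0))) H9 (fun i => if i = 0 then y else f i) ∨
    Lab a (insert y (F.erase (f 0))) H9 (fun i => if i = 0 then y else f (sw i)) := by
  have h0 : udiff a H9 f y 0 = 0 := by simp [udiff]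
  have h1 : udiff a H9 f y 1 = 0 := by simp [udiff]
  rcases ext9_concl ha hf hy hG with ⟨e2, e3, e4, e5, e6, e7, e8⟩ | ⟨e2, e3, e4, e5, e6, e7, e8⟩
  · left
    refine new_lab ha H9_symm H9_zero hf hy id Function.injective_id (fun i h => h)
      (fun _ => 0) ?_ ?_ ?_
    · intro j _
      fin_cases j <;> assumption
    · intro i j k _ _ _ _ _ _; rfl
    · intro i j _ _ _; simp
  · right
    refine new_lab ha H9_symm H9_zero hf hy sw sw_inj sw_ne uu ?_ sw_A sw_B
    intro j _
    fin_cases j <;> assumption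

lemma nextI (ha : IsCocycle K a) {f : Fin 9 → V} (hf : Lab a F HI f) {y : V} (hy : y ∉ F)
    (hG : Good a (insert y (F.erase (f 0)))) :
    Lab a (insert y (F.erase (f 0))) HI (fun i => if i = 0 then y else f i) := by
  have h0 : udiff a HI f y 0 = 0 := by simp [udiff]
  have h1 : udiff a HI f y 1 = 0 := by simp [udiff]
  obtain ⟨e2, e3, e4, e5, e6, e7, e8⟩ := extI_concl ha hf hy hG
  refine new_lab ha HI_symm HI_zero hf hy id Function.injective_id (fun i h => h)
    (fun _ => 0) ?_ ?_ ?_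
  · intro j _
    fin_cases j <;> assumption
  · intro i j k _ _ _ _ _ _; rfl
  · intro i j _ _ _; simp

/-- A set of labels with even triples gives a face. -/
lemma lab_face {H : Fin 9 → Fin 9 → ZMod 2} {f : Fin 9 → V} (hf : Lab a F H f)
    (hK : ∀ S ⊆ F, S.Nonempty → EvenSet a S → S ∈ K) (I : Finset (Fin 9)) (hne : I.Nonempty)
    (hI : ∀ i ∈ I, ∀ j ∈ I, ∀ k ∈ I, i ≠ j → j ≠ k → i ≠ k → H i j + H j k + H i k = 0) :
    I.image f ∈ K := by
  apply hK
  · intro x hx
    rw [mem_image] at hx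
    obtain ⟨i, _, rfl⟩ := hx
    exact hf.mem i
  · exact hne.image f
  · intro x hx y hy z hz hxy hyz hxz
    rw [mem_image] at hx hy hz
    obtain ⟨i, hi, rfl⟩ := hx
    obtain ⟨j, hj, rfl⟩ := hy
    obtain ⟨k, hk, rfl⟩ := hz
    have h1 : i ≠ j := fun h => hxy (by rw [h])
    have h2 : j ≠ k := fun h => hyz (by rw [h])
    have h3 : i ≠ k := fun h => hxz (by rw [h])
    rw [hf.par i j k h1 h2 h3]
    exact hI i hi j hj k hk h1 h2 h3

end Pool.Agent.Helper11.RP4
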