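import Mathlib
import Pool.Agent.Helper11.RP4.Nine

set_option autoImplicit false
set_option linter.unusedSectionVars false

open Finset

namespace Pool.Agent.Helper11.RP4

variable {V : Type} [Fintype V] [DecidableEq V]
variable {K : Finset (Finset V)} {a : V → V → ZMod 2} {F : Finset V}

/-- Labelling of a set with given classes. -/
lemma exists_label (F : Finset V) (cl : V → Fin 6) (κ : Fin 9 → Fin 6)
    (h : ∀ k, (univ.filter (fun i => κ i = k)).card = cnt F cl k) :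
    ∃ f : Fin 9 → V, Function.Injective f ∧ (∀ i, f i ∈ F) ∧ ∀ i, cl (f i) = κ i := by
  classical
  have e0 : ∀ k, Nonempty ({i : Fin 9 // κ i = k} ≃ {x : V // x ∈ F ∧ cl x = k}) := by
    intro k
    refine ⟨Fintype.equivOfCardEq ?_⟩
    rw [Fintype.card_subtype, Fintype.card_subtype, h k]
    unfold cnt
    congr 1
    ext x
    simp
  let e : ∀ k, {i : Fin 9 // κ i = k} ≃ {x : V // x ∈ F ∧ cl x = k} := fun k => (e0 k).some
  have hgen : ∀ (j : Fin 9) (k : Fin 6) (hk : κ j = k),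
      ((e (κ j) ⟨j, rfl⟩ : {x : V // x ∈ F ∧ cl x = κ j}) : V) = (e k ⟨j, hk⟩ : V) := by
    intro j k hk
    subst hk
    rfl
  refine ⟨fun i => (e (κ i) ⟨i, rfl⟩ : V), ?_, ?_, ?_⟩
  · intro i j hij
    simp only at hij
    have h1 : cl (e (κ i) ⟨i, rfl⟩ : V) = κ i := (e (κ i) ⟨i, rfl⟩).2.2
    have h2 : cl (e (κ j) ⟨j, rfl⟩ : V) = κ j := (e (κ j) ⟨j, rfl⟩).2.2
    have h3 : κ j = κ i := by rw [← h2, ← hij, h1]
    rw [hgen j (κ i) h3] at hij
    have h4 := (e (κ i)).injective (Subtype.ext hij)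
    exact congrArg Subtype.val h4
  · intro i
    exact (e (κ i) ⟨i, rfl⟩).2.1
  · intro i
    exact (e (κ i) ⟨i, rfl⟩).2.2

/-- Symmetries of the system of classes taking the class `k` to `5`. -/
def perm5 : Fin 6 → Fin 6 → Fin 6 :=
  ![![5, 0, 2, 1, 3, 4], ![0, 5, 2, 4, 3, 1], ![0, 2, 5, 4, 1, 3], ![0, 1, 4, 5, 2, 3],
    ![0, 2, 1, 3, 5, 4], ![0, 1, 2, 3, 4, 5]]

lemma perm5_self (k : Fin 6) : perm5 k k = 5 := by revert k; decide

lemma perm5_inj (k : Fin 6) : Function.Injective (perm5 k) := by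
  intro i j; revert k i j; decide

lemma perm5_T3 (k i j l : Fin 6) :
    T3 (perm5 k i) (perm5 k j) (perm5 k l) = T3 i j l := by
  revert k i j l; decide

/-- Rotations of the pentagon. -/
def rot : Fin 5 → Fin 6 → Fin 6 :=
  ![![0, 1, 2, 3, 4, 5], ![4, 0, 1, 2, 3, 5], ![3, 4, 0, 1, 2, 5], ![2, 3, 4, 0, 1, 5],
    ![1, 2, 3, 4, 0, 5]]

lemma rot_inj (k : Fin 5) : Function.Injective (rot k) := by
  intro i j; revert k i j; decide

lemma rot_T3 (k : Fin 5) (i j l : Fin 6) :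
    T3 (rot k i) (rot k j) (rot k l) = T3 i j l := by
  revert k i j l; decide

lemma rot_five (k : Fin 5) : rot k 5 = 5 := by revert k; decide

lemma cnt_comp (F : Finset V) (cl : V → Fin 6) (π : Fin 6 → Fin 6)
    (hπ : Function.Injective π) (k l : Fin 6) (h : π k = l) :
    cnt F (fun x => π (cl x)) l = cnt F cl k := by
  unfold cnt
  congr 1
  ext x
  simp only [mem_filter, and_congr_right_iff]
  intro _
  rw [← h]
  exact hπ.eq_iff

/-- The second type from classes. -/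
lemma labI_of_classes (hF : Good a F) (h9 : F.card = 9) {cl : V → Fin 6}
    (hne : ∀ k : Fin 6, ∃ x ∈ F, cl x = k)
    (hcl : ∀ x ∈ F, ∀ y ∈ F, ∀ z ∈ F, x ≠ y → y ≠ z → x ≠ z →
      par a x y z = T3 (cl x) (cl y) (cl z)) : ∃ f, Lab a F HI f := by
  have hpos : ∀ k, 1 ≤ cnt F cl k := by
    intro k
    obtain ⟨x, hx, hxk⟩ := hne k
    exact Finset.card_pos.2 ⟨x, mem_filter.2 ⟨hx, hxk⟩⟩
  have hsum := card_eq_cnt F cl
  -- a class with one element
  obtain ⟨k, hk⟩ : ∃ k, cnt F cl k = 1 := by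
    by_contra hcon
    push Not at hcon
    have h0 := hcon 0
    have h1 := hcon 1
    have h2 := hcon 2
    have h3 := hcon 3
    have h4 := hcon 4
    have h5 := hcon 5
    have p0 := hpos 0
    have p1 := hpos 1
    have p2 := hpos 2
    have p3 := hpos 3
    have p4 := hpos 4
    have p5 := hpos 5
    omega
  -- relabel
  set cl1 : V → Fin 6 := fun x => perm5 k (cl x) with hcl1
  have hcl1T : ∀ x ∈ F, ∀ y ∈ F, ∀ z ∈ F, x ≠ y → y ≠ z → x ≠ z →
      par a x y z = T3 (cl1 x) (cl1 y) (cl1 z) := by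
    intro x hx y hy z hz hxy hyz hxz
    rw [hcl x hx y hy z hz hxy hyz hxz, hcl1, perm5_T3]
  have h5 : cnt F cl1 5 = 1 := by
    rw [hcl1, cnt_comp F cl (perm5 k) (perm5_inj k) k 5 (perm5_self k), hk]
  have hpos1 : ∀ l, 1 ≤ cnt F cl1 l := by
    intro l
    obtain ⟨m, hm⟩ := (Finite.injective_iff_surjective.1 (perm5_inj k)) l
    rw [hcl1, cnt_comp F cl (perm5 k) (perm5_inj k) m l hm]
    exact hpos m
  have hsum1 := card_eq_cnt F cl1
  obtain ⟨⟨a1, a2, a3, a4, a5⟩, b1, b2, b3, b4, b5⟩ := ten_inequalities hF hcl1T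
  have p0 := hpos1 0
  have p1 := hpos1 1
  have p2 := hpos1 2
  have p3 := hpos1 3
  have p4 := hpos1 4
  obtain ⟨r, hr⟩ : ∃ r : Fin 5, cnt F (fun x => rot r (cl1 x)) 0 = 2 ∧
      cnt F (fun x => rot r (cl1 x)) 1 = 1 ∧ cnt F (fun x => rot r (cl1 x)) 2 = 2 ∧
      cnt F (fun x => rot r (cl1 x)) 3 = 1 ∧ cnt F (fun x => rot r (cl1 x)) 4 = 2 := by
    have hcases : (cnt F cl1 0 = 2 ∧ cnt F cl1 1 = 1 ∧ cnt F cl1 2 = 2 ∧ cnt F cl1 3 = 1 ∧
        cnt F cl1 4 = 2) ∨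
        (cnt F cl1 1 = 2 ∧ cnt F cl1 2 = 1 ∧ cnt F cl1 3 = 2 ∧ cnt F cl1 4 = 1 ∧
        cnt F cl1 0 = 2) ∨
        (cnt F cl1 2 = 2 ∧ cnt F cl1 3 = 1 ∧ cnt F cl1 4 = 2 ∧ cnt F cl1 0 = 1 ∧
        cnt F cl1 1 = 2) ∨
        (cnt F cl1 3 = 2 ∧ cnt F cl1 4 = 1 ∧ cnt F cl1 0 = 2 ∧ cnt F cl1 1 = 1 ∧
        cnt F cl1 2 = 2) ∨
        (cnt F cl1 4 = 2 ∧ cnt F cl1 0 = 1 ∧ cnt F cl1 1 = 2 ∧ cnt F cl1 2 = 1 ∧
        cnt F cl1 3 = 2) := by omega
    rcases hcases with h | h | h | h | h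
    · refine ⟨0, ?_⟩
      rw [cnt_comp F cl1 (rot 0) (rot_inj 0) 0 0 (by decide),
        cnt_comp F cl1 (rot 0) (rot_inj 0) 1 1 (by decide),
        cnt_comp F cl1 (rot 0) (rot_inj 0) 2 2 (by decide),
        cnt_comp F cl1 (rot 0) (rot_inj 0) 3 3 (by decide),
        cnt_comp F cl1 (rot 0) (rot_inj 0) 4 4 (by decide)]
      exact h
    · refine ⟨1, ?_⟩
      rw [cnt_comp F cl1 (rot 1) (rot_inj 1) 1 0 (by decide),
        cnt_comp F cl1 (rot 1) (rot_inj 1) 2 1 (by decide),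
        cnt_comp F cl1 (rot 1) (rot_inj 1) 3 2 (by decide),
        cnt_comp F cl1 (rot 1) (rot_inj 1) 4 3 (by decide),
        cnt_comp F cl1 (rot 1) (rot_inj 1) 0 4 (by decide)]
      exact h
    · refine ⟨2, ?_⟩
      rw [cnt_comp F cl1 (rot 2) (rot_inj 2) 2 0 (by decide),
        cnt_comp F cl1 (rot 2) (rot_inj 2) 3 1 (by decide),
        cnt_comp F cl1 (rot 2) (rot_inj 2) 4 2 (by decide),
        cnt_comp F cl1 (rot 2) (rot_inj 2) 0 3 (by decide),
        cnt_comp F cl1 (rot 2) (rot_inj 2) 1 4 (by decide)]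
      exact h
    · refine ⟨3, ?_⟩
      rw [cnt_comp F cl1 (rot 3) (rot_inj 3) 3 0 (by decide),
        cnt_comp F cl1 (rot 3) (rot_inj 3) 4 1 (by decide),
        cnt_comp F cl1 (rot 3) (rot_inj 3) 0 2 (by decide),
        cnt_comp F cl1 (rot 3) (rot_inj 3) 1 3 (by decide),
        cnt_comp F cl1 (rot 3) (rot_inj 3) 2 4 (by decide)]
      exact h
    · refine ⟨4, ?_⟩
      rw [cnt_comp F cl1 (rot 4) (rot_inj 4) 4 0 (by decide),
        cnt_comp F cl1 (rot 4) (rot_inj 4) 0 1 (by decide),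
        cnt_comp F cl1 (rot 4) (rot_inj 4) 1 2 (by decide),
        cnt_comp F cl1 (rot 4) (rot_inj 4) 2 3 (by decide),
        cnt_comp F cl1 (rot 4) (rot_inj 4) 3 4 (by decide)]
      exact h
  obtain ⟨r0, r1, r2, r3, r4⟩ := hr
  have r5 : cnt F (fun x => rot r (cl1 x)) 5 = 1 := by
    rw [cnt_comp F cl1 (rot r) (rot_inj r) 5 5 (rot_five r), h5]
  have hfib : ∀ k, (univ.filter (fun i => kap i = k)).card =
      cnt F (fun x => rot r (cl1 x)) k := by
    intro k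
    fin_cases k
    · exact Eq.trans (by decide) r0.symm
    · exact Eq.trans (by decide) r1.symm
    · exact Eq.trans (by decide) r2.symm
    · exact Eq.trans (by decide) r3.symm
    · exact Eq.trans (by decide) r4.symm
    · exact Eq.trans (by decide) r5.symm
  obtain ⟨f, hinj, hmem, hfκ⟩ := exists_label F _ kap hfib
  refine ⟨f, hinj, hmem, ?_⟩
  intro i j k hij hjk hik
  rw [hcl1T _ (hmem i) _ (hmem j) _ (hmem k) (hinj.ne hij) (hinj.ne hjk) (hinj.ne hik)]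
  rw [← rot_T3 r, hfκ i, hfκ j, hfκ k]
  rfl

end Pool.Agent.Helper11.RP4
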