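import Mathlib
import Pool.Agent.Helper11.RP4.Labels

set_option autoImplicit false
set_option linter.unusedSectionVars false

open Finset

namespace Pool.Agent.Helper11.RP4

variable {V : Type} [Fintype V] [DecidableEq V]
variable {K : Finset (Finset V)} {a : V → V → ZMod 2} {F : Finset V} {v : V}

lemma lab_of_base (ha : IsCocycle K a) {H : Fin 9 → Fin 9 → ZMod 2}
    (hH : ∀ i j, H i j = H j i) (hH0 : ∀ j, H 0 j = 0) {f : Fin 9 → V}
    (hinj : Function.Injective f) (hmem : ∀ i, f i ∈ F)
    (h : ∀ j k, j ≠ 0 → k ≠ 0 → j ≠ k → par a (f 0) (f j) (f k) = H j k) : Lab a F H f := by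
  refine ⟨hinj, hmem, ?_⟩
  intro i j k hij hjk hik
  by_cases hi : i = 0
  · subst hi
    rw [h j k (Ne.symm hij) (Ne.symm hik) hjk, hH0, hH0]; ring
  · by_cases hj : j = 0
    · subst hj
      rw [par_12 ha, h i k hi (Ne.symm hjk) hik, hH i 0, hH0, hH0]; ring
    · by_cases hk : k = 0
      · subst hk
        rw [← par_23 ha, ← par_12 ha, h i j hi hj hij, hH j 0, hH i 0, hH0, hH0]; ring
      · rw [par_base ha (f 0), h i j hi hj hij, h j k hj hk hjk, h i k hi hk hik]

/-- The first type from a bipartition. -/
lemma lab9_of_bipartite (ha : IsCocycle K a) (hF : Good a F) (hv : v ∈ F) (h9 : F.card = 9)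
    {A B : Finset V} (hAB : A ∪ B = F.erase v) (hd : Disjoint A B)
    (hA : ∀ x ∈ A, ∀ y ∈ A, x ≠ y → ¬ nb a v x y)
    (hB : ∀ x ∈ B, ∀ y ∈ B, x ≠ y → ¬ nb a v x y) : ∃ f, Lab a F H9 f := by
  classical
  have hA' : A ⊆ F.erase v := by rw [← hAB]; exact Finset.subset_union_left
  have hB' : B ⊆ F.erase v := by rw [← hAB]; exact Finset.subset_union_right
  have c1 := indep_card ha hF hv hA' hA
  have c2 := indep_card ha hF hv hB' hB
  have c3 : (A ∪ B).card = A.card + B.card := Finset.card_union_of_disjoint hd
  rw [hAB, Finset.card_erase_of_mem hv, h9] at c3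
  have cA : A.card = 4 := by omega
  have cB : B.card = 4 := by omega
  have hne : ∀ x ∈ A, ∀ y ∈ B, x ≠ y := fun x hx y hy h =>
    (Finset.disjoint_left.1 hd) hx (h ▸ hy)
  set Nb : V → Finset V := fun x => B.filter (fun y => nb a v x y) with hNb
  have memN : ∀ x y, y ∈ Nb x ↔ y ∈ B ∧ nb a v x y := fun x y => by rw [hNb, mem_filter]
  -- nested neighbourhoods
  have nested : ∀ x ∈ A, ∀ x' ∈ A, Nb x ⊆ Nb x' ∨ Nb x' ⊆ Nb x := by
    intro x hx x' hx'
    by_contra hcon
    rw [not_or, Finset.not_subset, Finset.not_subset] at hcon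
    obtain ⟨⟨b, hb, hb'⟩, c, hc, hc'⟩ := hcon
    rw [memN] at hb hb' hc hc'
    have hxx : x ≠ x' := by
      rintro rfl
      exact hb' hb
    have hbc : b ≠ c := by
      rintro rfl
      exact hb' hc
    have n1 : ¬ nb a v x' b := fun h => hb' ⟨hb.1, h⟩
    have n2 : ¬ nb a v x c := fun h => hc' ⟨hc.1, h⟩
    exact nb_kk ha hF hv x (hA' hx) b (hB' hb.1) x' (hA' hx') c (hB' hc.1)
      (hne x hx b hb.1) hxx (hne x hx c hc.1) (Ne.symm (hne x' hx' b hb.1)) hbc
      (hne x' hx' c hc.1) hb.2 hc.2 (hA x hx x' hx' hxx) n2 (fun h => n1 (nb_symm ha h))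
      (hB b hb.1 c hc.1 hbc)
  set U : V → Finset V := fun x => A.filter (fun x' => Nb x' ⊆ Nb x) with hU
  set W : V → Finset V := fun x => A.filter (fun x' => Nb x ⊆ Nb x') with hW
  have hUle : ∀ x ∈ A, (U x).card ≤ (Nb x).card := by
    intro x hx
    have hdis : Disjoint (U x) (B \ Nb x) := by
      rw [Finset.disjoint_left]
      intro u hu hu'
      exact (Finset.disjoint_left.1 hd) (mem_filter.1 hu).1 (mem_sdiff.1 hu').1
    have := indep_card ha hF hv (I := U x ∪ (B \ Nb x)) (by
      intro u hu
      rw [mem_union] at hu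
      rcases hu with hu | hu
      · exact hA' (mem_filter.1 hu).1
      · exact hB' (mem_sdiff.1 hu).1) (by
      intro u hu w hw huw
      rw [mem_union] at hu hw
      rcases hu with hu | hu <;> rcases hw with hw | hw
      · exact hA u (mem_filter.1 hu).1 w (mem_filter.1 hw).1 huw
      · intro h
        rw [mem_sdiff] at hw
        exact hw.2 ((mem_filter.1 hu).2 ((memN u w).2 ⟨hw.1, h⟩))
      · intro h
        rw [mem_sdiff] at hu
        exact hu.2 ((mem_filter.1 hw).2 ((memN w u).2 ⟨hu.1, nb_symm ha h⟩))
      · exact hB u (mem_sdiff.1 hu).1 w (mem_sdiff.1 hw).1 huw)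
    have hsd : (B \ Nb x).card = B.card - (Nb x).card :=
      Finset.card_sdiff_of_subset (Finset.filter_subset _ _)
    rw [Finset.card_union_of_disjoint hdis, hsd, cB] at this
    have hle : (Nb x).card ≤ 4 := by rw [← cB]; exact Finset.card_le_card (Finset.filter_subset _ _)
    omega
  have hWle : ∀ x ∈ A, (W x).card + (Nb x).card ≤ 5 := by
    intro x hx
    have hdis : Disjoint (W x) (Nb x) := by
      rw [Finset.disjoint_left]
      intro u hu hu'
      exact (Finset.disjoint_left.1 hd) (mem_filter.1 hu).1 (mem_filter.1 hu').1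
    rw [← Finset.card_union_of_disjoint hdis]
    apply hF.six
    · intro u hu
      rw [mem_union] at hu
      rcases hu with hu | hu
      · exact mem_of_mem_erase (hA' (mem_filter.1 hu).1)
      · exact mem_of_mem_erase (hB' (mem_filter.1 hu).1)
    · have eWW : ∀ p ∈ W x, ∀ q ∈ W x, p ≠ q → par a v p q = 0 := fun p hp q hq hpq =>
        par_eq_zero_of_not_nb hpq (hA p (mem_filter.1 hp).1 q (mem_filter.1 hq).1 hpq)
      have eNN : ∀ p ∈ Nb x, ∀ q ∈ Nb x, p ≠ q → par a v p q = 0 := fun p hp q hq hpq =>
        par_eq_zero_of_not_nb hpq (hB p (mem_filter.1 hp).1 q (mem_filter.1 hq).1 hpq)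
      have eWN : ∀ p ∈ W x, ∀ q ∈ Nb x, par a v p q = 1 := by
        intro p hp q hq
        exact ((memN p q).1 ((mem_filter.1 hp).2 hq)).2.2
      have eNW : ∀ p ∈ Nb x, ∀ q ∈ W x, par a v p q = 1 := by
        intro p hp q hq
        rw [par_23 ha]; exact eWN q hq p hp
      intro p hp q hq r hr hpq hqr hpr
      rw [mem_union] at hp hq hr
      rw [par_base ha v]
      rcases hp with hp | hp <;> rcases hq with hq | hq <;> rcases hr with hr | hr
      · rw [eWW p hp q hq hpq, eWW q hq r hr hqr, eWW p hp r hr hpr]; decide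
      · rw [eWW p hp q hq hpq, eWN q hq r hr, eWN p hp r hr]; decide
      · rw [eWN p hp q hq, eNW q hq r hr, eWW p hp r hr hpr]; decide
      · rw [eWN p hp q hq, eNN q hq r hr hqr, eWN p hp r hr]; decide
      · rw [eNW p hp q hq, eWW q hq r hr hqr, eNW p hp r hr]; decide
      · rw [eNW p hp q hq, eWN q hq r hr, eNN p hp r hr hpr]; decide
      · rw [eNN p hp q hq hpq, eNW q hq r hr, eNW p hp r hr]; decide
      · rw [eNN p hp q hq hpq, eNN q hq r hr hqr, eNN p hp r hr hpr]; decide
  have hUW : ∀ x ∈ A, U x ∪ W x = A := by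
    intro x hx
    ext x'
    rw [mem_union, hU, hW, mem_filter, mem_filter]
    constructor
    · rintro (h | h) <;> exact h.1
    · intro hx'
      rcases nested x hx x' hx' with h | h
      · exact Or.inr ⟨hx', h⟩
      · exact Or.inl ⟨hx', h⟩
  have hcardUW : ∀ x ∈ A, (U x).card + (W x).card = 4 + (U x ∩ W x).card := by
    intro x hx
    rw [← Finset.card_union_add_card_inter, hUW x hx, cA]
  have hmemUW : ∀ x ∈ A, x ∈ U x ∩ W x := by
    intro x hx
    rw [mem_inter, hU, hW, mem_filter, mem_filter]
    exact ⟨⟨hx, subset_refl _⟩, hx, subset_refl _⟩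
  have hinter : ∀ x ∈ A, (U x ∩ W x).card = 1 := by
    intro x hx
    have h1 := hcardUW x hx
    have h2 := hUle x hx
    have h3 := hWle x hx
    have h4 : 0 < (U x ∩ W x).card := Finset.card_pos.2 ⟨x, hmemUW x hx⟩
    omega
  have hNU : ∀ x ∈ A, 1 ≤ (Nb x).card ∧ (Nb x).card ≤ 4 := by
    intro x hx
    have h4 : 0 < (U x).card := Finset.card_pos.2 ⟨x, (mem_inter.1 (hmemUW x hx)).1⟩
    have h2 := hUle x hx
    have hle : (Nb x).card ≤ 4 := by
      rw [← cB]; exact Finset.card_le_card (Finset.filter_subset _ _)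
    exact ⟨by omega, hle⟩
  have hinjN : ∀ x ∈ A, ∀ x' ∈ A, (Nb x).card = (Nb x').card → x = x' := by
    intro x hx x' hx' hc
    have heq : Nb x = Nb x' := by
      rcases nested x hx x' hx' with h | h
      · exact Finset.eq_of_subset_of_card_le h (le_of_eq hc.symm)
      · exact (Finset.eq_of_subset_of_card_le h (le_of_eq hc)).symm
    have h1 : x' ∈ U x ∩ W x := by
      rw [mem_inter, hU, hW, mem_filter, mem_filter]
      exact ⟨⟨hx', by rw [heq]⟩, hx', by rw [heq]⟩
    have h2 := hinter x hx
    rw [Finset.card_eq_one] at h2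
    obtain ⟨w, hw⟩ := h2
    have h3 := hmemUW x hx
    rw [hw, mem_singleton] at h1 h3
    rw [h1, h3]
  have himg : A.image (fun x => (Nb x).card) = Finset.Icc 1 4 := by
    apply Finset.eq_of_subset_of_card_le
    · intro n hn
      rw [mem_image] at hn
      obtain ⟨x, hx, rfl⟩ := hn
      rw [mem_Icc]
      exact hNU x hx
    · rw [Finset.card_image_of_injOn (fun x hx x' hx' h => hinjN x hx x' hx' h), cA]
      decide
  have hexX : ∀ i : Fin 4, ∃ x ∈ A, (Nb x).card = i.val + 1 := by
    intro i
    have : i.val + 1 ∈ A.image (fun x => (Nb x).card) := by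
      rw [himg, mem_Icc]
      have := i.isLt
      omega
    rw [mem_image] at this
    obtain ⟨x, hx, h⟩ := this
    exact ⟨x, hx, h⟩
  choose X hXA hXc using hexX
  have hmono : ∀ i j : Fin 4, i ≤ j → Nb (X i) ⊆ Nb (X j) := by
    intro i j hij
    rcases nested (X i) (hXA i) (X j) (hXA j) with h | h
    · exact h
    · have h1 : Nb (X j) = Nb (X i) := by
        apply Finset.eq_of_subset_of_card_le h
        rw [hXc, hXc]
        have : i.val ≤ j.val := hij
        omega
      rw [h1]
  have hexB : ∀ j : Fin 4, ∃ b ∈ Nb (X j), ∀ i : Fin 4, i < j → b ∉ Nb (X i) := by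
    intro j
    by_cases hj : j.val = 0
    · obtain ⟨b, hb⟩ : (Nb (X j)).Nonempty := by
        rw [← Finset.card_pos, hXc]; omega
      refine ⟨b, hb, fun i hi => ?_⟩
      have : i.val < j.val := hi
      omega
    · set j' : Fin 4 := ⟨j.val - 1, by have := j.isLt; omega⟩ with hj'
      have hlt : (Nb (X j')).card < (Nb (X j)).card := by
        rw [hXc, hXc, hj']
        simp only
        omega
      obtain ⟨b, hb, hb'⟩ := Finset.exists_mem_notMem_of_card_lt_card hlt
      refine ⟨b, hb, fun i hi h => hb' (hmono i j' ?_ h)⟩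
      have h1 : i.val < j.val := hi
      rw [Fin.le_def, hj']
      simp only
      omega
  choose Y hYN hYn using hexB
  have hYB : ∀ j, Y j ∈ B := fun j => ((memN _ _).1 (hYN j)).1
  have hXinj : Function.Injective X := by
    intro i j hij
    have h1 := hXc i
    rw [hij, hXc j] at h1
    exact Fin.ext (by omega)
  have hYinj : Function.Injective Y := by
    intro i j hij
    rcases lt_trichotomy i j with h | h | h
    · exact absurd (hij ▸ hYN i) (hYn j i h)
    · exact h
    · exact absurd (hij.symm ▸ hYN j) (hYn i j h)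
  have hadj : ∀ i j : Fin 4, nb a v (X i) (Y j) ↔ j ≤ i := by
    intro i j
    constructor
    · intro h
      by_contra hcon
      exact hYn j i (not_le.1 hcon) ((memN _ _).2 ⟨hYB j, h⟩)
    · intro h
      exact ((memN _ _).1 (hmono j i h (hYN j))).2
  -- the labelling
  set f : Fin 9 → V := fun i => if i.val = 0 then v else
    if h : i.val ≤ 4 then X ⟨i.val - 1, by omega⟩ else Y ⟨i.val - 5, by have := i.isLt; omega⟩
    with hf
  have f0 : f 0 = v := by simp [hf]
  have fX : ∀ i : Fin 9, i.val ≠ 0 → ∀ h : i.val ≤ 4, f i = X ⟨i.val - 1, by omega⟩ := by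
    intro i hi h
    simp only [hf, hi, if_false, h, dif_pos]
  have fY : ∀ i : Fin 9, ∀ h : ¬ i.val ≤ 4,
      f i = Y ⟨i.val - 5, by have := i.isLt; omega⟩ := by
    intro i h
    have h0 : i.val ≠ 0 := by omega
    simp only [hf, h0, if_false, h, dif_neg, not_false_eq_true]
  have hvA : ∀ x ∈ A, x ≠ v := fun x hx => (mem_erase.1 (hA' hx)).1
  have hvB : ∀ x ∈ B, x ≠ v := fun x hx => (mem_erase.1 (hB' hx)).1
  refine ⟨f, lab_of_base ha H9_symm H9_zero ?_ ?_ ?_⟩
  · intro i j hij
    by_cases hi0 : i.val = 0
    · have hi : i = 0 := Fin.ext hi0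
      by_cases hj0 : j.val = 0
      · exact Fin.ext (by omega)
      · rw [hi, f0] at hij
        by_cases hj : j.val ≤ 4
        · rw [fX j hj0 hj] at hij
          exact absurd hij.symm (hvA _ (hXA _))
        · rw [fY j hj] at hij
          exact absurd hij.symm (hvB _ (hYB _))
    · by_cases hj0 : j.val = 0
      · have hj : j = 0 := Fin.ext hj0
        rw [hj, f0] at hij
        by_cases hi : i.val ≤ 4
        · rw [fX i hi0 hi] at hij
          exact absurd hij (hvA _ (hXA _))
        · rw [fY i hi] at hij
          exact absurd hij (hvB _ (hYB _))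
      · by_cases hi : i.val ≤ 4
        · by_cases hj : j.val ≤ 4
          · rw [fX i hi0 hi, fX j hj0 hj] at hij
            have := congrArg Fin.val (hXinj hij)
            simp only at this
            exact Fin.ext (by omega)
          · rw [fX i hi0 hi, fY j hj] at hij
            exact absurd hij (hne _ (hXA _) _ (hYB _))
        · by_cases hj : j.val ≤ 4
          · rw [fY i hi, fX j hj0 hj] at hij
            exact absurd hij.symm (hne _ (hXA _) _ (hYB _))
          · rw [fY i hi, fY j hj] at hij
            have := congrArg Fin.val (hYinj hij)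
            simp only at this
            exact Fin.ext (by omega)
  · intro i
    by_cases hi0 : i.val = 0
    · have hi : i = 0 := Fin.ext hi0
      rw [hi, f0]; exact hv
    · by_cases hi : i.val ≤ 4
      · rw [fX i hi0 hi]; exact mem_of_mem_erase (hA' (hXA _))
      · rw [fY i hi]; exact mem_of_mem_erase (hB' (hYB _))
  · intro j k hj hk hjk
    rw [f0]
    have hj0 : j.val ≠ 0 := fun h => hj (Fin.ext h)
    have hk0 : k.val ≠ 0 := fun h => hk (Fin.ext h)
    have hjk' : j.val ≠ k.val := fun h => hjk (Fin.ext h)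
    by_cases hj4 : j.val ≤ 4
    · by_cases hk4 : k.val ≤ 4
      · have h1 : H9 j k = 0 := by
          unfold H9
          rw [if_neg]
          omega
        rw [h1, fX j hj0 hj4, fX k hk0 hk4]
        have hXX : X ⟨j.val - 1, by omega⟩ ≠ X ⟨k.val - 1, by omega⟩ := by
          intro h
          have := congrArg Fin.val (hXinj h)
          simp only at this
          omega
        exact par_eq_zero_of_not_nb hXX (hA _ (hXA _) _ (hXA _) hXX)
      · rw [fX j hj0 hj4, fY k hk4]
        by_cases hle : k.val ≤ j.val + 4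
        · have h1 : H9 j k = 1 := by
            unfold H9
            rw [if_pos]
            left
            omega
          rw [h1]
          refine ((hadj _ _).2 ?_).2
          rw [Fin.le_def]
          simp only
          omega
        · have h1 : H9 j k = 0 := by
            unfold H9
            rw [if_neg]
            omega
          rw [h1]
          apply par_eq_zero_of_not_nb (hne _ (hXA _) _ (hYB _))
          rw [hadj, Fin.le_def]
          simp only
          omega
    · by_cases hk4 : k.val ≤ 4
      · rw [par_23 ha, fX k hk0 hk4, fY j hj4]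
        by_cases hle : j.val ≤ k.val + 4
        · have h1 : H9 j k = 1 := by
            unfold H9
            rw [if_pos]
            right
            omega
          rw [h1]
          refine ((hadj _ _).2 ?_).2
          rw [Fin.le_def]
          simp only
          omega
        · have h1 : H9 j k = 0 := by
            unfold H9
            rw [if_neg]
            omega
          rw [h1]
          apply par_eq_zero_of_not_nb (hne _ (hXA _) _ (hYB _))
          rw [hadj, Fin.le_def]
          simp only
          omega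
      · have h1 : H9 j k = 0 := by
          unfold H9
          rw [if_neg]
          omega
        rw [h1, fY j hj4, fY k hk4]
        have hYY : Y ⟨j.val - 5, by have := j.isLt; omega⟩ ≠
            Y ⟨k.val - 5, by have := k.isLt; omega⟩ := by
          intro h
          have := congrArg Fin.val (hYinj h)
          simp only at this
          omega
        exact par_eq_zero_of_not_nb hYY (hB _ (hYB _) _ (hYB _) hYY)

/-- The two types of sets of nine points with good parities. -/
theorem nine_types (ha : IsCocycle K a) (hF : Good a F) (h9 : F.card = 9) :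
    (∃ f, Lab a F H9 f) ∨ ∃ f, Lab a F HI f := by
  obtain ⟨v, hv⟩ : F.Nonempty := by rw [← Finset.card_pos, h9]; norm_num
  rcases pentagon_or_bipartite (nb a v) (F.erase v) (fun x y h => nb_symm ha h)
    (nb_tri ha hF hv) (nb_kk ha hF hv) with ⟨c, hc⟩ | ⟨A, B, hAB, hd, hA, hB⟩
  · obtain ⟨cl, hne, hcl⟩ := exists_classes ha hF hv hc
    exact Or.inr (labI_of_classes hF h9 hne hcl)
  · exact Or.inl (lab9_of_bipartite ha hF hv h9 hAB hd hA hB)

end Pool.Agent.Helper11.RP4
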