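import Mathlib
import Pool.Agent.Helper11.RP4.Half
import Pool.Agent.Helper11.RP4.Convex

set_option autoImplicit false
set_option linter.unusedSectionVars false

open Finset

namespace Pool.Agent.Helper11.RP4

variable {V : Type} [Fintype V] [DecidableEq V]
variable {K : Finset (Finset V)} {a : V → V → ZMod 2} {F : Finset V}

lemma image_insert_eq (f : Fin 9 → V) (i : Fin 9) (I : Finset (Fin 9)) :
    insert (f i) (I.image f) = (insert i I).image f := by
  rw [Finset.image_insert]

lemma twin_contra
    (hcl : ∀ σ ∈ K, σ.card = 4 → (K.filter (fun τ => σ ⊆ τ ∧ τ.card = 5)).card = 2)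
    {f : Fin 9 → V} (hf : Lab a F H9 f) {F' : Finset V} {y : V} (hy : y ∉ F)
    (hg : Lab a F' H9 (fun i => if i = 0 then y else f i))
    (hK : ∀ S ⊆ F, S.Nonempty → EvenSet a S → S ∈ K)
    (hK' : ∀ S ⊆ F', S.Nonempty → EvenSet a S → S ∈ K) : False := by
  have hyF : ∀ l, y ≠ f l := fun l hl => hy (hl ▸ hf.mem l)
  have hnot : ∀ (i : Fin 9) (I : Finset (Fin 9)), i ∉ I → f i ∉ I.image f := by
    intro i I hi h
    rw [mem_image] at h
    obtain ⟨j, hj, hji⟩ := h
    exact hi (hf.inj hji ▸ hj)
  have hynot : ∀ (I : Finset (Fin 9)), y ∉ I.image f := by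
    intro I h
    rw [mem_image] at h
    obtain ⟨j, hj, hji⟩ := h
    exact hyF j hji.symm
  have hQ : ({1, 2, 3, 4} : Finset (Fin 9)).image f ∈ K :=
    lab_face hf hK _ (by decide) (by decide)
  have hc : (({1, 2, 3, 4} : Finset (Fin 9)).image f).card = 4 := by
    rw [Finset.card_image_of_injective _ hf.inj]; decide
  refine three_five hcl hQ hc (x := f 0) (y := f 5) (z := y) (hnot 0 _ (by decide))
    (hnot 5 _ (by decide)) (hynot _) (hf.inj.ne (by decide)) (Ne.symm (hyF 0))
    (Ne.symm (hyF 5)) ?_ ?_ ?_
  · rw [image_insert_eq]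
    exact lab_face hf hK _ (by decide) (by decide)
  · rw [image_insert_eq]
    exact lab_face hf hK _ (by decide) (by decide)
  · have h1 : insert y (({1, 2, 3, 4} : Finset (Fin 9)).image f) =
        ({0, 1, 2, 3, 4} : Finset (Fin 9)).image (fun i => if i = 0 then y else f i) := by
      simp [Finset.image_insert]
    rw [h1]
    exact lab_face hg hK' _ (by decide) (by decide)

lemma M9_rot : ∀ i j k : Fin 9, i ≠ j → j ≠ k → i ≠ k →
    H9 (i + 5) (j + 5) + H9 (j + 5) (k + 5) + H9 (i + 5) (k + 5) =
      H9 i j + H9 j k + H9 i k := by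
  decide

lemma lab_rot {f : Fin 9 → V} (hf : Lab a F H9 f) : Lab a F H9 (fun i => f (i + 5)) := by
  have hinj : Function.Injective (fun i : Fin 9 => i + 5) := fun i j h => by
    simpa using h
  refine ⟨hf.inj.comp hinj, fun i => hf.mem _, ?_⟩
  intro i j k hij hjk hik
  rw [hf.par _ _ _ (hinj.ne hij) (hinj.ne hjk) (hinj.ne hik)]
  exact M9_rot i j k hij hjk hik

/-- The facets of the hull cannot have nine vertices. -/
theorem nine_contra (ha : IsCocycle K a)
    (hcl : ∀ σ ∈ K, σ.card = 4 → (K.filter (fun τ => σ ⊆ τ ∧ τ.card = 5)).card = 2)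
    (P : Finset V → Prop)
    (hP : ∀ F, P F → Good a F ∧ F.card = 9 ∧ ∀ S ⊆ F, S.Nonempty → EvenSet a S → S ∈ K)
    (hflip : ∀ F, P F → ∀ x ∈ F, ∃ y, y ∉ F ∧ P (insert y (F.erase x)))
    (F : Finset V) (hPF : P F) : False := by
  obtain ⟨hF, h9, hK⟩ := hP F hPF
  rcases nine_types ha hF h9 with ⟨f, hf⟩ | ⟨f, hf⟩
  · -- first type
    obtain ⟨y, hy, hPy⟩ := hflip F hPF (f 0) (hf.mem 0)
    obtain ⟨hF1, _, hK1⟩ := hP _ hPy
    rcases next9 ha hf hy hF1 with hg | hg
    · exact twin_contra hcl hf hy hg hK hK1
    · set g : Fin 9 → V := fun i => if i = 0 then y else f (sw i) with hgdef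
      have hg' := lab_rot hg
      set g' : Fin 9 → V := fun i => g (i + 5) with hg'def
      set F1 := insert y (F.erase (f 0)) with hF1def
      obtain ⟨z, hz, hPz⟩ := hflip F1 hPy (g' 0) (hg'.mem 0)
      obtain ⟨hF2, _, hK2⟩ := hP _ hPz
      rcases next9 ha hg' hz hF2 with hh | hh
      · exact twin_contra hcl hg' hz hh hK1 hK2
      · have hyF : ∀ l, y ≠ f l := fun l hl => hy (hl ▸ hf.mem l)
        have hzg : ∀ l, z ≠ g l := fun l hl => hz (hl ▸ hg.mem l)
        have g0 : g 0 = y := rfl
        have g1 : g 1 = f 1 := rfl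
        have g2 : g 2 = f 2 := rfl
        have g6 : g 6 = f 6 := rfl
        have g7 : g 7 = f 7 := rfl
        have g8 : g 8 = f 8 := rfl
        have hzy : z ≠ y := hzg 0
        have hz1 : z ≠ f 1 := hzg 1
        have hz2 : z ≠ f 2 := hzg 2
        have hz6 : z ≠ f 6 := hzg 6
        have hz7 : z ≠ f 7 := hzg 7
        have hz8 : z ≠ f 8 := hzg 8
        have hz0 : z ≠ f 0 := by
          intro h0
          have e1 := hh.par 0 4 6 (by decide) (by decide) (by decide)
          have e2 := hf.par 0 1 2 (by decide) (by decide) (by decide)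
          have e3 : par a z (f 1) (f 2) = H9 0 4 + H9 4 6 + H9 0 6 := e1
          rw [h0, e2] at e3
          revert e3
          decide
        have hnot : ∀ (i : Fin 9) (I : Finset (Fin 9)), i ∉ I → f i ∉ I.image f := by
          intro i I hi h
          rw [mem_image] at h
          obtain ⟨j, hj, hji⟩ := h
          exact hi (hf.inj hji ▸ hj)
        have hynot : ∀ (I : Finset (Fin 9)), y ∉ I.image f := by
          intro I h
          rw [mem_image] at h
          obtain ⟨j, hj, hji⟩ := h
          exact hyF j hji.symm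
        have hQ : ({1, 6, 7, 8} : Finset (Fin 9)).image f ∈ K :=
          lab_face hf hK _ (by decide) (by decide)
        have hc : (({1, 6, 7, 8} : Finset (Fin 9)).image f).card = 4 := by
          rw [Finset.card_image_of_injective _ hf.inj]; decide
        have hznot : z ∉ ({1, 6, 7, 8} : Finset (Fin 9)).image f := by
          simp only [Finset.image_insert, Finset.image_singleton, mem_insert, mem_singleton,
            not_or]
          exact ⟨hz1, hz6, hz7, hz8⟩
        refine three_five hcl hQ hc (x := f 0) (y := y) (z := z) (hnot 0 _ (by decide))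
          (hynot _) hznot (Ne.symm (hyF 0)) (Ne.symm hz0) (Ne.symm hzy) ?_ ?_ ?_
        · rw [image_insert_eq]
          exact lab_face hf hK _ (by decide) (by decide)
        · have h1 : insert y (({1, 6, 7, 8} : Finset (Fin 9)).image f) =
              ({0, 1, 6, 7, 8} : Finset (Fin 9)).image g := by
            simp only [Finset.image_insert, Finset.image_singleton, g0, g1, g6, g7, g8]
          rw [h1]
          exact lab_face hg hK1 _ (by decide) (by decide)
        · have h1 : insert z (({1, 6, 7, 8} : Finset (Fin 9)).image f) =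
              ({0, 4, 1, 2, 3} : Finset (Fin 9)).image
                (fun i => if i = 0 then z else g' (sw i)) := by
            have e4 : g' (sw 4) = f 1 := rfl
            have e1 : g' (sw 1) = f 6 := rfl
            have e2 : g' (sw 2) = f 7 := rfl
            have e3 : g' (sw 3) = f 8 := rfl
            simp only [Finset.image_insert, Finset.image_singleton, if_true,
              show ¬ (4 : Fin 9) = 0 by decide, show ¬ (1 : Fin 9) = 0 by decide,
              show ¬ (2 : Fin 9) = 0 by decide, show ¬ (3 : Fin 9) = 0 by decide, if_false,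
              e4, e1, e2, e3]
          rw [h1]
          exact lab_face hh hK2 _ (by decide) (by decide)
  · -- second type
    obtain ⟨y, hy, hPy⟩ := hflip F hPF (f 0) (hf.mem 0)
    obtain ⟨hF1, _, hK1⟩ := hP _ hPy
    have hg := nextI ha hf hy hF1
    have hyF : ∀ l, y ≠ f l := fun l hl => hy (hl ▸ hf.mem l)
    have hnot : ∀ (i : Fin 9) (I : Finset (Fin 9)), i ∉ I → f i ∉ I.image f := by
      intro i I hi h
      rw [mem_image] at h
      obtain ⟨j, hj, hji⟩ := h
      exact hi (hf.inj hji ▸ hj)
    have hynot : ∀ (I : Finset (Fin 9)), y ∉ I.image f := by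
      intro I h
      rw [mem_image] at h
      obtain ⟨j, hj, hji⟩ := h
      exact hyF j hji.symm
    have hQ : ({1, 2, 4, 5} : Finset (Fin 9)).image f ∈ K :=
      lab_face hf hK _ (by decide) (by decide)
    have hc : (({1, 2, 4, 5} : Finset (Fin 9)).image f).card = 4 := by
      rw [Finset.card_image_of_injective _ hf.inj]; decide
    refine three_five hcl hQ hc (x := f 0) (y := f 3) (z := y) (hnot 0 _ (by decide))
      (hnot 3 _ (by decide)) (hynot _) (hf.inj.ne (by decide)) (Ne.symm (hyF 0))
      (Ne.symm (hyF 3)) ?_ ?_ ?_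
    · rw [image_insert_eq]
      exact lab_face hf hK _ (by decide) (by decide)
    · rw [image_insert_eq]
      exact lab_face hf hK _ (by decide) (by decide)
    · have h1 : insert y (({1, 2, 4, 5} : Finset (Fin 9)).image f) =
          ({0, 1, 2, 4, 5} : Finset (Fin 9)).image (fun i => if i = 0 then y else f i) := by
        simp [Finset.image_insert]
      rw [h1]
      exact lab_face hg hK1 _ (by decide) (by decide)

lemma dim_le (hK : IsProjective4 K) : ∀ σ ∈ K, σ.card ≤ 5 := by
  intro σ hσ
  obtain ⟨τ, _, hst, hc⟩ := hK.pure σ hσ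
  rw [← hc]
  exact Finset.card_le_card hst

lemma injective_of_cutOff {N : ℕ} {p : V → (Fin N → ℝ)} (hT : Tight K p) {S : Finset V}
    (h : CutOff p S) : HomologyInjective K S := by
  obtain ⟨ℓ, c, hℓ, rfl⟩ := h
  exact hT ℓ c hℓ

/-- Local form: a set of vertices all of whose subsets with at most five elements can be cut
off has at most nine elements. -/
theorem local_bound (hK : IsProjective4 K) {N : ℕ} (p : V → (Fin N → ℝ)) (hT : Tight K p)
    (F : Finset V) (hF : ∀ S ⊆ F, 2 ≤ S.card → S.card ≤ 5 → CutOff p S) : F.card ≤ 9 := by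
  obtain ⟨a, ha, hsph⟩ := hK.cover_sphere
  obtain ⟨hG, _⟩ := good_of_injective hK.complex (dim_le hK) ha hsph F
    (fun S hS h2 h5 => injective_of_cutOff hT (hF S hS h2 h5))
  exact card_le_nine ha hG

/-- Main theorem: simplicial hull. -/
theorem simplicial_hull (hK : IsProjective4 K) {N : ℕ} (p : V → (Fin N → ℝ))
    (hspan : affineSpan ℝ (Set.range p) = ⊤) (hT : Tight K p) (hS : SimplicialHull p) :
    N ≤ 8 := by
  by_contra hN
  obtain ⟨a, ha, hsph⟩ := hK.cover_sphere
  have hfacet : ∀ F, Facet p F → Good a F ∧ ∀ S ⊆ F, S.Nonempty → EvenSet a S → S ∈ K := by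
    intro F hF
    exact good_of_injective hK.complex (dim_le hK) ha hsph F
      (fun S hSF h2 _ => injective_of_cutOff hT (facet_cutOff hspan hS hF hSF
        (Finset.card_pos.1 (by omega))))
  have hcard : ∀ F, Facet p F → F.card = 9 := by
    intro F hF
    have h1 := card_le_nine ha (hfacet F hF).1
    obtain ⟨ℓ, c, _, _, h2⟩ := hF
    omega
  obtain ⟨F, hF⟩ := exists_facet hspan hS (by omega)
  exact nine_contra ha hK.closed (Facet p)
    (fun F hF => ⟨(hfacet F hF).1, hcard F hF, (hfacet F hF).2⟩)
    (fun F hF x hx => flip hspan hS hF hx) F hF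

end Pool.Agent.Helper11.RP4
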