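import Mathlib
import Pool.Agent.Helper11.RP4.Main

set_option autoImplicit false
set_option linter.unusedSectionVars false

open Finset

namespace Pool.Agent.Helper11.RP4

variable {V : Type} [Fintype V] [DecidableEq V]

lemma affineIndependent_map_of_disjoint {ι E E' : Type} [AddCommGroup E] [Module ℝ E]
    [AddCommGroup E'] [Module ℝ E'] (q : ι → E) (hq : AffineIndependent ℝ q)
    (π : E →ₗ[ℝ] E') (hD : Disjoint (vectorSpan ℝ (Set.range q)) (LinearMap.ker π)) :
    AffineIndependent ℝ (fun i => π (q i)) := by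
  rcases isEmpty_or_nonempty ι with h | ⟨⟨i0⟩⟩
  · exact affineIndependent_of_subsingleton ℝ _
  · rw [affineIndependent_iff_linearIndependent_vsub ℝ _ i0] at hq ⊢
    have h1 := hq.map (f := π) (by
      refine hD.mono_left ?_
      rw [Submodule.span_le]
      rintro _ ⟨i, rfl⟩
      exact vsub_mem_vectorSpan ℝ (Set.mem_range_self _) (Set.mem_range_self _))
    convert h1 using 1
    funext i
    simp

lemma project_step {M : ℕ} (hM : 9 ≤ M) {K : Finset (Finset V)} (p : V → (Fin (M + 1) → ℝ))
    (hspan : affineSpan ℝ (Set.range p) = ⊤) (hT : Tight K p) (hS : SimplicialFaces 8 p) :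
    ∃ p' : V → (Fin M → ℝ), affineSpan ℝ (Set.range p') = ⊤ ∧ Tight K p' ∧
      SimplicialFaces 8 p' := by
  classical
  -- a generic direction
  set s : Finset (Submodule ℝ (Fin (M + 1) → ℝ)) :=
    ((univ : Finset (Finset V)).image (fun X : Finset V =>
      vectorSpan ℝ (p '' (↑X : Set V)))).filter
      (fun D => D ≠ ⊤) with hs
  have htop : (⊤ : Submodule ℝ (Fin (M + 1) → ℝ)) ∉ s := by
    rw [hs, mem_filter]
    exact fun h => h.2 rfl
  have hne := Subspace.biUnion_ne_univ_of_top_notMem htop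
  rw [Set.ne_univ_iff_exists_notMem] at hne
  obtain ⟨u, hu⟩ := hne
  have hu' : ∀ X : Set V, vectorSpan ℝ (p '' X) ≠ ⊤ → u ∉ vectorSpan ℝ (p '' X) := by
    intro X hX hmem
    apply hu
    rw [Set.mem_iUnion₂]
    refine ⟨vectorSpan ℝ (p '' X), ?_, hmem⟩
    rw [hs, mem_filter, mem_image]
    refine ⟨⟨X.toFinset, mem_univ _, ?_⟩, hX⟩
    rw [Set.coe_toFinset]
  have hu0 : u ≠ 0 := by
    rintro rfl
    refine hu' ∅ ?_ (Submodule.zero_mem _)
    rw [Set.image_empty, vectorSpan_empty]
    intro h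
    have := congrArg (fun D : Submodule ℝ (Fin (M + 1) → ℝ) => Module.finrank ℝ D) h
    simp at this
  -- the projection
  have hrk : Module.finrank ℝ ((Fin (M + 1) → ℝ) ⧸ Submodule.span ℝ {u}) =
      Module.finrank ℝ (Fin M → ℝ) := by
    have h1 := Submodule.finrank_quotient_add_finrank (Submodule.span ℝ {u})
    rw [finrank_span_singleton hu0] at h1
    simp at h1 ⊢
    omega
  set e := LinearEquiv.ofFinrankEq _ _ hrk with he
  set π : (Fin (M + 1) → ℝ) →ₗ[ℝ] (Fin M → ℝ) :=
    (e : _ →ₗ[ℝ] _) ∘ₗ (Submodule.span ℝ {u}).mkQ with hπ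
  have hsurj : Function.Surjective π := by
    rw [hπ, LinearMap.coe_comp]
    exact e.surjective.comp (Submodule.mkQ_surjective _)
  have hker : LinearMap.ker π = Submodule.span ℝ {u} := by
    rw [hπ, LinearMap.ker_comp]
    ext x
    simp
  have hcomp : ∀ ℓ : (Fin M → ℝ) →ₗ[ℝ] ℝ, ℓ ≠ 0 → ℓ ∘ₗ π ≠ 0 := by
    intro ℓ hℓ h
    apply hℓ
    apply LinearMap.ext
    intro x
    obtain ⟨y, rfl⟩ := hsurj x
    have := LinearMap.congr_fun h y
    simpa using this
  refine ⟨fun v => π (p v), ?_, ?_, ?_⟩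
  · have h1 : Set.range (fun v => π (p v)) = π.toAffineMap '' Set.range p := by
      rw [← Set.range_comp]; rfl
    rw [h1]
    exact AffineMap.span_eq_top_of_surjective π.toAffineMap hsurj hspan
  · intro ℓ c hℓ
    have := hT (ℓ ∘ₗ π) c (hcomp ℓ hℓ)
    exact this
  · intro ℓ c hℓ hsup hdim
    set X : Set V := {v : V | ℓ (π (p v)) = c} with hX
    have himg : (fun v => π (p v)) '' X = π.toAffineMap '' (p '' X) := by
      rw [Set.image_image]; rfl
    have hmap : vectorSpan ℝ ((fun v => π (p v)) '' X) =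
        (vectorSpan ℝ (p '' X)).map π := by
      rw [himg, ← AffineMap.map_vectorSpan]
      rfl
    have hdim' : Module.finrank ℝ ((vectorSpan ℝ (p '' X)).map π) ≤ 8 := by
      rw [← hmap]; exact hdim
    have hDtop : vectorSpan ℝ (p '' X) ≠ ⊤ := by
      intro h
      rw [h, Submodule.map_top, LinearMap.range_eq_top.2 hsurj, finrank_top] at hdim'
      simp at hdim'
      omega
    have hdisj : Disjoint (vectorSpan ℝ (p '' X)) (LinearMap.ker π) := by
      rw [hker, Submodule.disjoint_span_singleton]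
      intro h
      exact absurd h (hu' X hDtop)
    have hinj : Function.Injective (π.domRestrict (vectorSpan ℝ (p '' X))) := by
      rw [← LinearMap.ker_eq_bot, LinearMap.ker_eq_bot']
      intro x hx
      have h1 : (x : Fin (M + 1) → ℝ) ∈ LinearMap.ker π := by
        rw [LinearMap.mem_ker]; exact hx
      exact Subtype.ext (Submodule.disjoint_def.1 hdisj x x.2 h1)
    have hfr : Module.finrank ℝ (vectorSpan ℝ (p '' X)) ≤ 8 := by
      have h1 := LinearMap.finrank_range_of_inj hinj
      have h2 : LinearMap.range (π.domRestrict (vectorSpan ℝ (p '' X))) =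
          (vectorSpan ℝ (p '' X)).map π := LinearMap.range_domRestrict _ _
      rw [h2] at h1
      omega
    have hai := hS (ℓ ∘ₗ π) c (hcomp ℓ hℓ) (fun v => hsup v) hfr
    refine affineIndependent_map_of_disjoint _ hai π ?_
    refine hdisj.mono_left ?_
    apply vectorSpan_mono
    rintro _ ⟨⟨v, hv⟩, rfl⟩
    exact ⟨v, hv, rfl⟩

lemma simplicialHull_of_faces {p : V → (Fin 9 → ℝ)} (hS : SimplicialFaces 8 p) :
    SimplicialHull p := by
  intro ℓ c hℓ hsup
  refine hS ℓ c hℓ hsup ?_
  have hle : vectorSpan ℝ (p '' {v : V | ℓ (p v) = c}) ≤ LinearMap.ker ℓ := by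
    unfold vectorSpan
    rw [Submodule.span_le]
    rintro _ ⟨_, ⟨x, hx, rfl⟩, _, ⟨y, hy, rfl⟩, rfl⟩
    simp only [SetLike.mem_coe, LinearMap.mem_ker, vsub_eq_sub, map_sub]
    rw [Set.mem_ofPred_eq] at hx hy
    rw [hx, hy, sub_self]
  have h1 := Submodule.finrank_mono hle
  have h2 := LinearMap.finrank_range_add_finrank_ker ℓ
  have h3 : LinearMap.range ℓ = ⊤ := by
    apply LinearMap.range_eq_top.2
    exact LinearMap.surjective hℓ
  rw [h3, finrank_top] at h2
  simp at h2
  omega

/-- Main theorem: if the faces of dimension at most 8 of the convex hull are simplices, then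
the dimension is at most 8. -/
theorem simplicial_faces {K : Finset (Finset V)} (hK : IsProjective4 K) {N : ℕ}
    (p : V → (Fin N → ℝ)) (hspan : affineSpan ℝ (Set.range p) = ⊤) (hT : Tight K p)
    (hS : SimplicialFaces 8 p) : N ≤ 8 := by
  by_contra hN
  have key : ∀ k : ℕ, ∀ (p : V → (Fin (9 + k) → ℝ)), affineSpan ℝ (Set.range p) = ⊤ →
      Tight K p → SimplicialFaces 8 p → False := by
    intro k
    induction k with
    | zero =>
      intro p hspan hT hS
      have := simplicial_hull hK p hspan hT (simplicialHull_of_faces hS)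
      omega
    | succ k ih =>
      intro p hspan hT hS
      obtain ⟨p', h1, h2, h3⟩ := project_step (M := 9 + k) (by omega) p hspan hT hS
      exact ih p' h1 h2 h3
  obtain ⟨k, hk⟩ : ∃ k, N = 9 + k := ⟨N - 9, by omega⟩
  subst hk
  exact key k p hspan hT hS

end Pool.Agent.Helper11.RP4
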