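import Mathlib
import Pool.Agent.Helper11.RP4.Main

set_option autoImplicit false
set_option linter.unusedSectionVars false

open Finset

namespace Pool.Agent.Helper11.RP4

variable {V : Type} [Fintype V] [DecidableEq V] {N : ℕ}

/-- Some affine functional vanishes on `S` and is positive on the rest of `Z`. -/
def SepIn (p : V → (Fin N → ℝ)) (Z S : Finset V) : Prop :=
  ∃ (ℓ : (Fin N → ℝ) →ₗ[ℝ] ℝ) (c : ℝ), (∀ v ∈ S, val p ℓ c v = 0) ∧
    ∀ v ∈ Z, v ∉ S → 0 < val p ℓ c v

/-- Rank of the affine functionals on `Z`. -/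
noncomputable def rk (p : V → (Fin N → ℝ)) (Z : Finset V) : ℕ :=
  Module.finrank ℝ (LinearMap.range (evalMap p Z))

lemma rotate_on (p : V → (Fin N → ℝ)) {ℓ : (Fin N → ℝ) →ₗ[ℝ] ℝ} {c : ℝ} {Y : Finset V}
    (hne : Y.Nonempty) (hpos : ∀ v ∈ Y, 0 < val p ℓ c v)
    (m : (Fin N → ℝ) →ₗ[ℝ] ℝ) (d : ℝ) :
    ∃ (t : ℝ) (y : V), y ∈ Y ∧ val p (m + t • ℓ) (d + t * c) y = 0 ∧
      ∀ v ∈ Y, 0 ≤ val p (m + t • ℓ) (d + t * c) v := by
  obtain ⟨y, hy, hmax⟩ := Finset.exists_max_image Y (fun v => - val p m d v / val p ℓ c v) hne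
  refine ⟨- val p m d y / val p ℓ c y, y, hy, ?_, ?_⟩
  · rw [val_comb]
    have := hpos y hy
    field_simp
    ring
  · intro v hv
    rw [val_comb]
    have h1 := hmax v hv
    have h2 := hpos v hv
    have h3 : - val p m d v / val p ℓ c v * val p ℓ c v ≤
        - val p m d y / val p ℓ c y * val p ℓ c v :=
      mul_le_mul_of_nonneg_right h1 h2.le
    have h4 : - val p m d v / val p ℓ c v * val p ℓ c v = - val p m d v := by
      field_simp
    linarith

/-- From a face of `Z` to `Z`. -/
lemma sepIn_trans (p : V → (Fin N → ℝ)) {Z Z0 S : Finset V}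
    {ℓ : (Fin N → ℝ) →ₗ[ℝ] ℝ} {c : ℝ} (hzero : ∀ v ∈ Z0, val p ℓ c v = 0)
    (hpos : ∀ v ∈ Z, v ∉ Z0 → 0 < val p ℓ c v) (hS : S ⊆ Z0) (h : SepIn p Z0 S) :
    SepIn p Z S := by
  obtain ⟨m, d, hm0, hmpos⟩ := h
  by_cases hne : (Z \ Z0).Nonempty
  · obtain ⟨t, y, hy, hy0, hnn⟩ := rotate_on p (ℓ := ℓ) (c := c) hne (by
      intro v hv
      rw [mem_sdiff] at hv
      exact hpos v hv.1 hv.2) m d
    refine ⟨m + (t + 1) • ℓ, d + (t + 1) * c, ?_, ?_⟩
    · intro v hv
      rw [val_comb, hm0 v hv, hzero v (hS hv)]
      ring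
    · intro v hv hvS
      rw [val_comb]
      by_cases hv0 : v ∈ Z0
      · rw [hzero v hv0, mul_zero, add_zero]
        exact hmpos v hv0 hvS
      · have h1 := hnn v (mem_sdiff.2 ⟨hv, hv0⟩)
        rw [val_comb] at h1
        have h2 := hpos v hv hv0
        linarith
  · rw [Finset.not_nonempty_iff_eq_empty, Finset.sdiff_eq_empty_iff_subset] at hne
    exact ⟨m, d, hm0, fun v hv hvS => hmpos v (hne hv) hvS⟩

/-- Every finite set of points has a large simplex face. -/
theorem exists_simplex_face (p : V → (Fin N → ℝ)) :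
    ∀ (n : ℕ) (Z : Finset V), Z.card = n →
      ∃ F ⊆ Z, 2 * rk p Z ≤ F.card + Z.card ∧ ∀ S ⊆ F, SepIn p Z S := by
  classical
  intro n
  induction n using Nat.strong_induction_on with
  | _ n ih =>
    intro Z hn
    by_cases hfull : rk p Z = Z.card
    · -- affinely independent
      refine ⟨Z, subset_refl _, by omega, ?_⟩
      have htop : LinearMap.range (evalMap p Z) = ⊤ := by
        apply Submodule.eq_top_of_finrank_eq
        unfold rk at hfull
        rw [hfull]
        simp
      intro S hS
      have hsurj := LinearMap.range_eq_top.1 htop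
      obtain ⟨⟨m, d⟩, hmd⟩ := hsurj (fun v => if (v : V) ∈ S then 0 else 1)
      have hval : ∀ v (hv : v ∈ Z), val p m d v = if v ∈ S then 0 else 1 := by
        intro v hv
        have := congrFun hmd ⟨v, hv⟩
        simpa [evalMap] using this
      refine ⟨m, d, ?_, ?_⟩
      · intro v hv
        rw [hval v (hS hv), if_pos hv]
      · intro v hv hvS
        rw [hval v hv, if_neg hvS]
        norm_num
    · -- a facet of `Z`
      have hlt : rk p Z < Z.card := by
        have h1 : rk p Z ≤ Z.card := by
          unfold rk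
          have := Submodule.finrank_le (LinearMap.range (evalMap p Z))
          simpa using this
        omega
      have hZne : Z.Nonempty := Finset.card_pos.1 (by omega)
      have hbound : ∃ k, ∃ (ℓ : (Fin N → ℝ) →ₗ[ℝ] ℝ) (c : ℝ),
          ((∀ v ∈ Z, 0 ≤ val p ℓ c v) ∧ (∃ v ∈ Z, val p ℓ c v ≠ 0)) ∧
          (Z.filter (fun v => val p ℓ c v = 0)).card = k ∧
          ∀ (ℓ' : (Fin N → ℝ) →ₗ[ℝ] ℝ) (c' : ℝ),
            ((∀ v ∈ Z, 0 ≤ val p ℓ' c' v) ∧ (∃ v ∈ Z, val p ℓ' c' v ≠ 0)) →
            (Z.filter (fun v => val p ℓ' c' v = 0)).card ≤ k := by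
        have hstart : ∃ (ℓ : (Fin N → ℝ) →ₗ[ℝ] ℝ) (c : ℝ),
            ((∀ v ∈ Z, 0 ≤ val p ℓ c v) ∧ (∃ v ∈ Z, val p ℓ c v ≠ 0)) ∧
            (Z.filter (fun v => val p ℓ c v = 0)).card =
              (Z.filter (fun v => val p ℓ c v = 0)).card := by
          obtain ⟨v0, hv0⟩ := hZne
          refine ⟨0, -1, ⟨?_, v0, hv0, ?_⟩, rfl⟩
          · intro v _
            rw [val_zero_linear]; norm_num
          · rw [val_zero_linear]; norm_num
        obtain ⟨ℓ0, c0, h0, _⟩ := hstart
        have hspec := Nat.findGreatest_spec (P := fun k => ∃ (ℓ : (Fin N → ℝ) →ₗ[ℝ] ℝ) (c : ℝ),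
          ((∀ v ∈ Z, 0 ≤ val p ℓ c v) ∧ (∃ v ∈ Z, val p ℓ c v ≠ 0)) ∧
          (Z.filter (fun v => val p ℓ c v = 0)).card = k)
          (n := Z.card) (m := (Z.filter (fun v => val p ℓ0 c0 v = 0)).card)
          (Finset.card_le_card (Finset.filter_subset _ _)) ⟨ℓ0, c0, h0, rfl⟩
        obtain ⟨ℓ, c, h1, h2⟩ := hspec
        exact ⟨_, ℓ, c, h1, h2, fun ℓ' c' h' => Nat.le_findGreatest
          (P := fun k => ∃ (ℓ : (Fin N → ℝ) →ₗ[ℝ] ℝ) (c : ℝ),
          ((∀ v ∈ Z, 0 ≤ val p ℓ c v) ∧ (∃ v ∈ Z, val p ℓ c v ≠ 0)) ∧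
          (Z.filter (fun v => val p ℓ c v = 0)).card = k)
          (Finset.card_le_card (Finset.filter_subset _ _)) ⟨ℓ', c', h', rfl⟩⟩
      obtain ⟨k, ℓ, c, ⟨hnn, w, hw, hwne⟩, hk, hmax⟩ := hbound
      set Z0 := Z.filter (fun v => val p ℓ c v = 0) with hZ0
      have hzero : ∀ v ∈ Z0, val p ℓ c v = 0 := fun v hv => (mem_filter.1 hv).2
      have hpos : ∀ v ∈ Z, v ∉ Z0 → 0 < val p ℓ c v := by
        intro v hv hv0
        rcases (hnn v hv).lt_or_eq with h | h
        · exact h
        · exact absurd (mem_filter.2 ⟨hv, h.symm⟩) hv0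
      have hsub : Z0 ⊆ Z := Finset.filter_subset _ _
      have hw0 : w ∉ Z0 := fun h => hwne (hzero w h)
      have hcard : Z0.card < Z.card :=
        Finset.card_lt_card ⟨hsub, fun h => hw0 (h hw)⟩
      -- the rank drops by at most one
      have hrk : rk p Z ≤ rk p Z0 + 1 := by
        by_contra hcon
        have hA := LinearMap.finrank_range_add_finrank_ker (evalMap p Z)
        have hB := LinearMap.finrank_range_add_finrank_ker (evalMap p Z0)
        rw [finrank_functionals] at hA hB
        unfold rk at hcon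
        have hspan : Module.finrank ℝ (Submodule.span ℝ
            {((ℓ, c) : ((Fin N → ℝ) →ₗ[ℝ] ℝ) × ℝ)} : Submodule ℝ _) ≤ 1 := by
          have h4 := finrank_span_le_card (R := ℝ)
            ({((ℓ, c) : ((Fin N → ℝ) →ₗ[ℝ] ℝ) × ℝ)} : Set (((Fin N → ℝ) →ₗ[ℝ] ℝ) × ℝ))
          simpa using h4
        have hsup := Submodule.finrank_add_le_finrank_add_finrank
          (LinearMap.ker (evalMap p Z))
          (Submodule.span ℝ {((ℓ, c) : ((Fin N → ℝ) →ₗ[ℝ] ℝ) × ℝ)})
        have hex : ∃ q : ((Fin N → ℝ) →ₗ[ℝ] ℝ) × ℝ, q ∈ LinearMap.ker (evalMap p Z0) ∧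
            q ∉ LinearMap.ker (evalMap p Z) ⊔
              Submodule.span ℝ {((ℓ, c) : ((Fin N → ℝ) →ₗ[ℝ] ℝ) × ℝ)} := by
          by_contra hcon'
          push Not at hcon'
          have hle' : LinearMap.ker (evalMap p Z0) ≤ LinearMap.ker (evalMap p Z) ⊔
              Submodule.span ℝ {((ℓ, c) : ((Fin N → ℝ) →ₗ[ℝ] ℝ) × ℝ)} := fun q hq => hcon' q hq
          have h3 := Submodule.finrank_mono hle'
          omega
        obtain ⟨⟨m, d⟩, hq, hqn⟩ := hex
        obtain ⟨t, y, hy, hy0, hnn'⟩ := rotate_on p (ℓ := ℓ) (c := c) (Y := Z \ Z0)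
          ⟨w, mem_sdiff.2 ⟨hw, hw0⟩⟩ (by
            intro v hv
            rw [mem_sdiff] at hv
            exact hpos v hv.1 hv.2) m d
        rw [mem_sdiff] at hy
        have hzero' : ∀ v ∈ Z0, val p (m + t • ℓ) (d + t * c) v = 0 := by
          intro v hv
          rw [val_comb, hzero v hv, mul_zero, add_zero]
          rw [LinearMap.mem_ker] at hq
          have := congrFun hq ⟨v, hv⟩
          simpa [evalMap] using this
        have hne' : ∃ v ∈ Z, val p (m + t • ℓ) (d + t * c) v ≠ 0 := by
          by_contra hcon'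
          push Not at hcon'
          apply hqn
          have h5 : (m + t • ℓ, d + t * c) ∈ LinearMap.ker (evalMap p Z) := by
            rw [LinearMap.mem_ker]
            funext v
            simp only [evalMap, LinearMap.coe_mk, AddHom.coe_mk, Pi.zero_apply]
            exact hcon' v v.2
          rw [Submodule.mem_sup]
          refine ⟨_, h5, (-t) • (ℓ, c), Submodule.smul_mem _ _
            (Submodule.mem_span_singleton_self _), ?_⟩
          rw [Prod.smul_mk, Prod.mk_add_mk, Prod.mk.injEq]
          refine ⟨?_, ?_⟩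
          · apply LinearMap.ext
            intro x
            simp only [LinearMap.add_apply, LinearMap.smul_apply, smul_eq_mul]
            ring
          · rw [smul_eq_mul]; ring
        have hnn'' : ∀ v ∈ Z, 0 ≤ val p (m + t • ℓ) (d + t * c) v := by
          intro v hv
          by_cases hv0 : v ∈ Z0
          · rw [hzero' v hv0]
          · exact hnn' v (mem_sdiff.2 ⟨hv, hv0⟩)
        have h6 := hmax _ _ ⟨hnn'', hne'⟩
        have h7 : insert y Z0 ⊆ Z.filter (fun v => val p (m + t • ℓ) (d + t * c) v = 0) := by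
          intro v hv
          rw [mem_insert] at hv
          rw [mem_filter]
          rcases hv with rfl | hv
          · exact ⟨hy.1, hy0⟩
          · exact ⟨hsub hv, hzero' v hv⟩
        have h8 := Finset.card_le_card h7
        rw [Finset.card_insert_of_notMem hy.2] at h8
        omega
      obtain ⟨F0, hF0, hcard0, hsep0⟩ := ih Z0.card (by omega) Z0 rfl
      rcases Nat.lt_or_ge (Z0.card + 1) Z.card with h2 | h2
      · refine ⟨F0, hF0.trans hsub, by omega, ?_⟩
        intro S hS
        exact sepIn_trans p hzero hpos (hS.trans hF0) (hsep0 S hS)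
      · -- pyramid
        have hZeq : Z = insert w Z0 := by
          symm
          apply Finset.eq_of_subset_of_card_le
          · intro v hv
            rw [mem_insert] at hv
            rcases hv with rfl | hv
            · exact hw
            · exact hsub hv
          · rw [Finset.card_insert_of_notMem hw0]; omega
        refine ⟨insert w F0, ?_, ?_, ?_⟩
        · intro v hv
          rw [mem_insert] at hv
          rcases hv with rfl | hv
          · exact hw
          · exact hsub (hF0 hv)
        · rw [Finset.card_insert_of_notMem (fun h => hw0 (hF0 h))]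
          omega
        · intro S hS
          by_cases hwS : w ∈ S
          · have hS0 : S.erase w ⊆ F0 := by
              intro v hv
              rw [mem_erase] at hv
              have := hS hv.2
              rw [mem_insert] at this
              rcases this with h | h
              · exact absurd h hv.1
              · exact h
            obtain ⟨m, d, hm0, hmpos⟩ := hsep0 _ hS0
            have hLw := hpos w hw hw0
            set t : ℝ := - val p m d w / val p ℓ c w with ht
            refine ⟨m + t • ℓ, d + t * c, ?_, ?_⟩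
            · intro v hv
              rw [val_comb]
              by_cases hvw : v = w
              · subst hvw
                rw [ht]
                field_simp
                ring
              · rw [hm0 v (mem_erase.2 ⟨hvw, hv⟩), hzero v (hF0 (hS0 (mem_erase.2 ⟨hvw, hv⟩)))]
                ring
            · intro v hv hvS
              have hvw : v ≠ w := fun h => hvS (h ▸ hwS)
              have hv0 : v ∈ Z0 := by
                rw [hZeq, mem_insert] at hv
                rcases hv with h | h
                · exact absurd h hvw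
                · exact h
              rw [val_comb, hzero v hv0, mul_zero, add_zero]
              exact hmpos v hv0 (fun h => hvS (mem_of_mem_erase h))
          · have hS0 : S ⊆ F0 := by
              intro v hv
              have := hS hv
              rw [mem_insert] at this
              rcases this with h | h
              · exact absurd (h ▸ hv) hwS
              · exact h
            exact sepIn_trans p hzero hpos (hS0.trans hF0) (hsep0 S hS0)

/-- Number of vertices and dimension. -/
theorem vertex_bound {K : Finset (Finset V)} (hK : IsProjective4 K)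
    (p : V → (Fin N → ℝ)) (hspan : affineSpan ℝ (Set.range p) = ⊤) (hT : Tight K p) :
    2 * N ≤ Fintype.card V + 7 := by
  obtain ⟨F, _, hcard, hsep⟩ := exists_simplex_face p _ (univ : Finset V) rfl
  have hrk : rk p (univ : Finset V) = N + 1 := by
    have hA := LinearMap.finrank_range_add_finrank_ker (evalMap p (univ : Finset V))
    rw [finrank_functionals] at hA
    have hker : LinearMap.ker (evalMap p (univ : Finset V)) = ⊥ := by
      rw [LinearMap.ker_eq_bot']
      rintro ⟨m, d⟩ h
      have h1 : ∀ v, val p m d v = 0 := by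
        intro v
        have := congrFun h ⟨v, mem_univ v⟩
        simpa [evalMap] using this
      obtain ⟨h2, h3⟩ := span_zero hspan h1
      rw [h2, h3]; rfl
    rw [hker, finrank_bot] at hA
    unfold rk
    omega
  rw [hrk, Finset.card_univ] at hcard
  by_contra hcon
  obtain ⟨F', hF', h10⟩ := Finset.exists_subset_card_eq (s := F) (n := 10) (by omega)
  have h9 := local_bound hK p hT F' (by
    intro S hS h2 h5
    obtain ⟨ℓ, c, h0, hpos⟩ := hsep S (hS.trans hF')
    obtain ⟨s, hs⟩ : S.Nonempty := Finset.card_pos.1 (by omega)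
    obtain ⟨w, hw, hwS⟩ : ∃ w ∈ F', w ∉ S := by
      by_contra hcon'
      push Not at hcon'
      have := Finset.card_le_card (show F' ⊆ S from hcon')
      omega
    refine ⟨ℓ, c, ?_, ?_⟩
    · apply linear_ne_zero (p := p) (c := c) (u := s) (v := w)
      rw [h0 s hs]
      exact ne_of_lt (hpos w (mem_univ w) hwS)
    · ext v
      unfold below
      rw [mem_filter]
      simp only [mem_univ, true_and]
      have hval : ℓ (p v) ≤ c ↔ val p ℓ c v ≤ 0 := by
        unfold val
        constructor <;> intro h <;> linarith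
      rw [hval]
      constructor
      · intro h
        by_contra hvS
        exact absurd (hpos v (mem_univ v) hvS) (not_lt.2 h)
      · intro hvS
        rw [h0 v hvS])
  omega

end Pool.Agent.Helper11.RP4
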